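import Mathlib
import Pool.Agent.Helper5.GKK.Herm

/-!
Triangles of strict GKK matrices: a triangle whose cyclic product is not real is balanced.
-/

namespace Pool.Agent.Helper69.GKK

open Matrix Finset Filter Topology
open Pool.Agent.Helper5.GKK
open scoped ComplexOrder ComplexConjugate

variable {n : ℕ}

theorem pm_triple (A : Matrix (Fin n) (Fin n) ℂ) {i j k : Fin n} (hij : i ≠ j) (hik : i ≠ k) (hjk : j ≠ k) :
    pm A (insert i (insert j {k})) = A i i * A j j * A k k - A i i * A j k * A k j - A i j * A j i * A k k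
      + A i j * A j k * A k i + A i k * A j i * A k j - A i k * A j j * A k i := by
  have h := pm_eq_det A ![i, j, k] (by
    intro x y hxy
    fin_cases x <;> fin_cases y <;> simp_all) (insert i (insert j {k})) (by
    ext x
    simp only [Set.mem_range, Fin.exists_fin_succ, Finset.coe_insert, Finset.coe_singleton,
      Set.mem_insert_iff, Set.mem_singleton_iff]
    simp [eq_comm])
  rw [← h, det_fin_three]
  simp

theorem ap_single (A : Matrix (Fin n) (Fin n) ℂ) {i j k : Fin n} (hij : i ≠ j) (hik : i ≠ k) (hjk : j ≠ k) :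
    ap A {k} i j = (A k k * A i j - A i k * A k j) * (A k k * A j i - A j k * A k i) := by
  rw [ap, pm_triple A hij hik hjk, pm_singleton, pm_pair A hik, pm_pair A hjk]
  ring

theorem ap_empty (A : Matrix (Fin n) (Fin n) ℂ) {i j : Fin n} (hij : i ≠ j) :
    ap A ∅ i j = A i j * A j i := by
  rw [ap, pm_empty]
  have e1 : (insert i ∅ : Finset (Fin n)) = {i} := rfl
  have e2 : (insert j ∅ : Finset (Fin n)) = {j} := rfl
  rw [e1, e2, pm_singleton, pm_singleton, pm_pair A hij]
  ring

theorem conj_eq_of_mul_pos {x y : ℂ} (h : 0 < x * y) : ∃ s : ℝ, 0 < s ∧ conj y = s * x := by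
  have hx : x ≠ 0 := by rintro rfl; simp at h
  have hn : 0 < Complex.normSq x := Complex.normSq_pos.mpr hx
  obtain ⟨h1, h2⟩ := Complex.pos_iff.mp h
  refine ⟨(x * y).re / Complex.normSq x, div_pos h1 hn, ?_⟩
  have h3 : ((x * y).re : ℂ) = x * y := by
    apply Complex.ext
    · simp
    · rw [Complex.ofReal_im]; exact h2
  have h4 : ((x * y).re : ℂ) = conj x * conj y := by
    rw [← map_mul, ← h3, Complex.conj_ofReal]
    simp
  have h5 : (Complex.normSq x : ℂ) ≠ 0 := by exact_mod_cast hn.ne'
  rw [Complex.ofReal_div, h4, eq_comm, div_mul_eq_mul_div, div_eq_iff h5, ← Complex.mul_conj]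
  ring

theorem norm_eq_of {z w : ℂ} (h1 : (z + w).im = 0) (h2 : 0 < z * w) (h3 : z.im ≠ 0) : ‖z‖ = ‖w‖ := by
  obtain ⟨s, hs, hw⟩ := conj_eq_of_mul_pos h2
  have h4 : w.im = -(s * z.im) := by
    have := congrArg Complex.im hw
    simp at this
    linarith
  have h5 : z.im * (1 - s) = 0 := by
    rw [Complex.add_im] at h1
    linarith
  have h6 : s = 1 := by
    rcases mul_eq_zero.mp h5 with h | h
    · exact absurd h h3
    · linarith
  rw [h6, Complex.ofReal_one, one_mul] at hw
  rw [← hw, Complex.norm_conj]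

/-- A triangle of a strict GKK matrix whose cyclic product is not real is balanced. -/
theorem triangle {X : Matrix (Fin n) (Fin n) ℂ} (hX : IsStrictGKK X) {i j k : Fin n} (hij : i ≠ j)
    (hik : i ≠ k) (hjk : j ≠ k)
    (h : ((X i j + conj (X j i)) * (X j k + conj (X k j)) * (X k i + conj (X i k))).im ≠ 0) :
    ‖X i j * X j k * X k i‖ = ‖X i k * X k j * X j i‖ := by
  obtain ⟨hP, hap⟩ := (isStrictGKK_iff X).mp hX
  have p1 : 0 < X i j * X j i := by
    rw [← ap_empty X hij]; exact hap ∅ i j (by simp) (by simp) hij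
  have p2 : 0 < X j k * X k j := by
    rw [← ap_empty X hjk]; exact hap ∅ j k (by simp) (by simp) hjk
  have p3 : 0 < X k i * X i k := by
    rw [← ap_empty X hik.symm]; exact hap ∅ k i (by simp) (by simp) hik.symm
  obtain ⟨s1, hs1, e1⟩ := conj_eq_of_mul_pos p1
  obtain ⟨s2, hs2, e2⟩ := conj_eq_of_mul_pos p2
  obtain ⟨s3, hs3, e3⟩ := conj_eq_of_mul_pos p3
  have hkk : 0 < X k k := by rw [← pm_singleton X k]; exact hP _
  have hreal := hap {k} i j (by simpa using hik) (by simpa using hjk) hij
  rw [ap_single X hij hik hjk] at hreal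
  refine norm_eq_of ?_ ?_ ?_
  · have hk : (X k k).im = 0 := (Complex.pos_iff.mp hkk).2.symm
    have hkr : 0 < (X k k).re := (Complex.pos_iff.mp hkk).1
    have h1 := (Complex.pos_iff.mp hreal).2
    have q23 : ((X j k * X k j) * (X k i * X i k)).im = 0 := (Complex.pos_iff.mp (mul_pos p2 p3)).2.symm
    have e : (X k k * X i j - X i k * X k j) * (X k k * X j i - X j k * X k i)
        = X k k * X k k * (X i j * X j i) + (X j k * X k j) * (X k i * X i k)
          - X k k * (X i j * X j k * X k i + X i k * X k j * X j i) := by ring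
    rw [e, Complex.sub_im, Complex.add_im, q23] at h1
    have e4 : (X k k * X k k * (X i j * X j i)).im = 0 :=
      (Complex.pos_iff.mp (mul_pos (mul_pos hkk hkk) p1)).2.symm
    rw [e4, Complex.mul_im, hk] at h1
    have h5 : (X k k).re * (X i j * X j k * X k i + X i k * X k j * X j i).im = 0 := by linarith
    exact (mul_eq_zero.mp h5).resolve_left hkr.ne'
  · have e : X i j * X j k * X k i * (X i k * X k j * X j i)
        = (X i j * X j i) * (X j k * X k j) * (X k i * X i k) := by ring
    rw [e]
    exact mul_pos (mul_pos p1 p2) p3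
  · intro h0
    apply h
    rw [e1, e2, e3]
    have e : (X i j + s1 * X i j) * (X j k + s2 * X j k) * (X k i + s3 * X k i)
        = (((1 + s1) * (1 + s2) * (1 + s3) : ℝ) : ℂ) * (X i j * X j k * X k i) := by
      push_cast; ring
    rw [e, Complex.im_ofReal_mul, h0, mul_zero]

end Pool.Agent.Helper69.GKK
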