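import Mathlib
import Pool.Agent.Helper69.GKK.Gen

/-!
Block triangular limits of strict GKK matrices in general position: the diagonal blocks are
diagonally similar to Hermitian matrices.
-/

namespace Pool.Agent.Helper69.GKK

open Matrix Finset Filter Topology
open Pool.Agent.Helper5.GKK
open scoped ComplexOrder ComplexConjugate

variable {n : ℕ}

/-- The diagonal blocks of `A` (the block with the number `b` has the indices `i` with `c i = b`) are
irreducible: if `S` is a nonempty set of indices of one block and `A i j = 0` for all `i ∈ S` and all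
indices `j` of the block outside `S`, then `S` is the whole block. -/
def IrreducibleBlocks (A : Matrix (Fin n) (Fin n) ℂ) (c : Fin n → ℕ) : Prop :=
  ∀ S : Finset (Fin n), S.Nonempty → (∀ i ∈ S, ∀ j ∈ S, c i = c j) →
    (∀ i ∈ S, ∀ j, c j = c i → j ∉ S → A i j = 0) → ∀ i ∈ S, ∀ j, c j = c i → j ∈ S

/-- For every diagonal block of order at least three there is an index `o` (in the block or not) such
that `h o j * h j k * h k o` is not real, where `h = A + Aᴴ`, for all `j ≠ k` other than `o` in the
block with `A j k ≠ 0`. -/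
def GeneralPosition (A : Matrix (Fin n) (Fin n) ℂ) (c : Fin n → ℕ) : Prop :=
  ∀ b : ℕ, 3 ≤ (univ.filter fun i => c i = b).card → ∃ o,
    ∀ j k, c j = b → c k = b → j ≠ k → j ≠ o → k ≠ o → A j k ≠ 0 →
      ((A + Aᴴ) o j * (A + Aᴴ) j k * (A + Aᴴ) k o).im ≠ 0

theorem herm_apply (A : Matrix (Fin n) (Fin n) ℂ) (i j : Fin n) : (A + Aᴴ) i j = A i j + conj (A j i) := by
  rw [Matrix.add_apply, conjTranspose_apply]; rfl

theorem herm_conj (A : Matrix (Fin n) (Fin n) ℂ) (i j : Fin n) : conj ((A + Aᴴ) i j) = (A + Aᴴ) j i := by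
  rw [herm_apply, herm_apply, map_add, Complex.conj_conj, add_comm]

theorem tri_swap (A : Matrix (Fin n) (Fin n) ℂ) (o j k : Fin n)
    (h : ((A + Aᴴ) o j * (A + Aᴴ) j k * (A + Aᴴ) k o).im ≠ 0) :
    ((A + Aᴴ) o k * (A + Aᴴ) k j * (A + Aᴴ) j o).im ≠ 0 := by
  intro h0
  apply h
  have e : conj ((A + Aᴴ) o k * (A + Aᴴ) k j * (A + Aᴴ) j o)
      = (A + Aᴴ) o j * (A + Aᴴ) j k * (A + Aᴴ) k o := by
    rw [map_mul, map_mul, herm_conj, herm_conj, herm_conj]; ring
  rw [← e, Complex.conj_im, h0, neg_zero]

theorem continuous_tri (o j k : Fin n) : Continuous fun A : Matrix (Fin n) (Fin n) ℂ =>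
    ((A + Aᴴ) o j * (A + Aᴴ) j k * (A + Aᴴ) k o).im := by
  have h : ∀ i j : Fin n, Continuous fun A : Matrix (Fin n) (Fin n) ℂ => (A + Aᴴ) i j := by
    intro i j
    simp only [herm_apply]
    have h1 : ∀ i j : Fin n, Continuous fun A : Matrix (Fin n) (Fin n) ℂ => A i j :=
      fun i j => continuous_id.matrix_elem i j
    exact (h1 i j).add (Complex.continuous_conj.comp (h1 j i))
  exact Complex.continuous_im.comp (((h o j).mul (h j k)).mul (h k o))

/-- the part of `X` on the block `b`, at the positions where `A` does not vanish -/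
noncomputable def part (A : Matrix (Fin n) (Fin n) ℂ) (c : Fin n → ℕ) (b : ℕ) (X : Matrix (Fin n) (Fin n) ℂ) :
    Matrix (Fin n) (Fin n) ℂ :=
  Matrix.of fun i j => open Classical in if c i = b ∧ c j = b ∧ (i = j ∨ A i j ≠ 0 ∨ A j i ≠ 0) then X i j else 0

theorem continuous_part (A : Matrix (Fin n) (Fin n) ℂ) (c : Fin n → ℕ) (b : ℕ) : Continuous (part A c b) := by
  refine continuous_matrix fun i j => ?_
  simp only [part, of_apply]
  split_ifs
  · exact continuous_id.matrix_elem i j
  · exact continuous_const

theorem part_self (A : Matrix (Fin n) (Fin n) ℂ) (c : Fin n → ℕ) (b : ℕ) {i j : Fin n} (hi : c i = b)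
    (hj : c j = b) : part A c b A i j = A i j := by
  simp only [part, of_apply]
  split_ifs with h
  · rfl
  · by_contra h0
    exact h ⟨hi, hj, Or.inr (Or.inl (Ne.symm h0))⟩

/-- the block in general position of a matrix near `A` is symmetrizable -/
theorem part_symmetrizable {A : Matrix (Fin n) (Fin n) ℂ} {c : Fin n → ℕ} {b : ℕ} {o : Fin n}
    {X : Matrix (Fin n) (Fin n) ℂ} (hX : IsStrictGKK X)
    (h : ∀ j k, c j = b → c k = b → j ≠ k → j ≠ o → k ≠ o → A j k ≠ 0 →
      ((X + Xᴴ) o j * (X + Xᴴ) j k * (X + Xᴴ) k o).im ≠ 0) : Symmetrizable (part A c b X) := by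
  obtain ⟨hP, hap⟩ := (isStrictGKK_iff X).mp hX
  have pos : ∀ i j, i ≠ j → 0 < X i j * X j i := by
    intro i j hij
    rw [← ap_empty X hij]; exact hap ∅ i j (by simp) (by simp) hij
  have ne : ∀ i j, i ≠ j → X i j ≠ 0 := by
    intro i j hij h0
    have := pos i j hij
    rw [h0, zero_mul] at this
    exact lt_irrefl _ this
  refine ⟨fun i => if i = o then 1 else ‖X o i‖ / ‖X i o‖, fun i => ?_, fun i j => ?_⟩
  · dsimp only
    split_ifs with hi
    · exact one_pos
    · exact div_pos (norm_pos_iff.mpr (ne o i (Ne.symm hi))) (norm_pos_iff.mpr (ne i o hi))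
  · simp only [part, of_apply]
    by_cases hij : c i = b ∧ c j = b ∧ (i = j ∨ A i j ≠ 0 ∨ A j i ≠ 0)
    swap
    · have hji : ¬ (c j = b ∧ c i = b ∧ (j = i ∨ A j i ≠ 0 ∨ A i j ≠ 0)) := by
        rintro ⟨h1, h2, h3⟩
        refine hij ⟨h2, h1, ?_⟩
        rcases h3 with h3 | h3 | h3
        · exact Or.inl h3.symm
        · exact Or.inr (Or.inr h3)
        · exact Or.inr (Or.inl h3)
      rw [if_neg hij, if_neg hji]; simp
    · have hji : c j = b ∧ c i = b ∧ (j = i ∨ A j i ≠ 0 ∨ A i j ≠ 0) := by
        obtain ⟨h2, h1, h3⟩ := hij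
        refine ⟨h1, h2, ?_⟩
        rcases h3 with h3 | h3 | h3
        · exact Or.inl h3.symm
        · exact Or.inr (Or.inr h3)
        · exact Or.inr (Or.inl h3)
      rw [if_pos hij, if_pos hji]
      obtain ⟨hi, hj, h3⟩ := hij
      rcases eq_or_ne i j with rfl | hne
      · have : 0 < X i i := by rw [← pm_singleton X i]; exact hP _
        rw [Complex.conj_eq_iff_im.mpr (Complex.pos_iff.mp this).2.symm]
      · have pair : ∀ x, x ≠ o → ((1 : ℝ) : ℂ) * X o x = ((‖X o x‖ / ‖X x o‖ : ℝ) : ℂ) * conj (X x o) := by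
          intro x hx
          obtain ⟨s, hs, hse⟩ := conj_eq_of_mul_pos (pos o x (Ne.symm hx))
          have hns : ‖X x o‖ = s * ‖X o x‖ := by
            rw [← Complex.norm_conj, hse, norm_mul, Complex.norm_real, Real.norm_of_nonneg hs.le]
          have n1 : ‖X o x‖ ≠ 0 := norm_ne_zero_iff.mpr (ne o x (Ne.symm hx))
          rw [hse, hns]
          have e : ‖X o x‖ / (s * ‖X o x‖) = 1 / s := by field_simp
          rw [e]
          push_cast
          have : (s : ℂ) ≠ 0 := by exact_mod_cast hs.ne'
          field_simp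
        by_cases hio : i = o
        · subst hio
          rw [if_pos rfl, if_neg hne.symm]
          exact pair j hne.symm
        by_cases hjo : j = o
        · subst hjo
          rw [if_pos rfl, if_neg hne]
          have := congrArg conj (pair i hne)
          simp only [map_mul, Complex.conj_ofReal, Complex.conj_conj] at this
          exact this.symm
        rw [if_neg hio, if_neg hjo]
        have hA : ((X + Xᴴ) o i * (X + Xᴴ) i j * (X + Xᴴ) j o).im ≠ 0 := by
          rcases h3 with h3 | h3 | h3
          · exact absurd h3 hne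
          · exact h i j hi hj hne hio hjo h3
          · exact tri_swap X o j i (h j i hj hi hne.symm hjo hio h3)
        simp only [herm_apply] at hA
        have ht := triangle hX (Ne.symm hio) (Ne.symm hjo) hne hA
        rw [norm_mul, norm_mul, norm_mul, norm_mul] at ht
        obtain ⟨s, hs, hse⟩ := conj_eq_of_mul_pos (pos i j hne)
        have n1 := norm_pos_iff.mpr (ne i o hio)
        have n2 := norm_pos_iff.mpr (ne j o hjo)
        have n3 := norm_pos_iff.mpr (ne i j hne)
        have hns : ‖X j i‖ = s * ‖X i j‖ := by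
          rw [← Complex.norm_conj, hse, norm_mul, Complex.norm_real, Real.norm_of_nonneg hs.le]
        rw [hns] at ht
        have key : ‖X o i‖ / ‖X i o‖ = ‖X o j‖ / ‖X j o‖ * s := by
          rw [div_mul_eq_mul_div, div_eq_div_iff n1.ne' n2.ne']
          have := n3.ne'
          apply mul_right_cancel₀ this
          linarith
        rw [hse, key]
        push_cast
        ring

theorem symm_of_gen {A : Matrix (Fin n) (Fin n) ℂ} {c : Fin n → ℕ} {b : ℕ} {o : Fin n}
    (hA : A ∈ closure {B : Matrix (Fin n) (Fin n) ℂ | IsStrictGKK B})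
    (h : ∀ j k, c j = b → c k = b → j ≠ k → j ≠ o → k ≠ o → A j k ≠ 0 →
      ((A + Aᴴ) o j * (A + Aᴴ) j k * (A + Aᴴ) k o).im ≠ 0) :
    part A c b A ∈ closure {X : Matrix (Fin n) (Fin n) ℂ | Symmetrizable X} := by
  rw [mem_closure_iff_frequently] at hA ⊢
  have hev : ∀ᶠ X in 𝓝 A, ∀ j k, c j = b → c k = b → j ≠ k → j ≠ o → k ≠ o → A j k ≠ 0 →
      ((X + Xᴴ) o j * (X + Xᴴ) j k * (X + Xᴴ) k o).im ≠ 0 := by
    simp only [eventually_all]
    intro j k hj hk hjk hjo hko hne
    exact (continuous_tri o j k).continuousAt.eventually_ne (h j k hj hk hjk hjo hko hne)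
  have h1 : ∃ᶠ X in 𝓝 A, Symmetrizable (part A c b X) :=
    (hA.and_eventually hev).mono fun X hX => part_symmetrizable hX.1 hX.2
  exact (continuous_part A c b).continuousAt.tendsto.frequently h1

/-- if a part is a limit of symmetrizable matrices and the block is irreducible, then it is symmetrizable -/
theorem block_symm {A : Matrix (Fin n) (Fin n) ℂ} {c : Fin n → ℕ} (hirr : IrreducibleBlocks A c) {b : ℕ}
    (h : part A c b A ∈ closure {X : Matrix (Fin n) (Fin n) ℂ | Symmetrizable X}) :
    ∃ w : Fin n → ℝ, (∀ i, 0 < w i) ∧ ∀ i j, c i = b → c j = b → (w i : ℂ) * A i j = w j * conj (A j i) := by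
  obtain ⟨ℓ, w, hw, h0, h1⟩ := exists_block h
  refine ⟨w, hw, fun i j hi hj => ?_⟩
  have hconst : ∀ i j, c i = b → c j = b → ℓ i = ℓ j := by
    intro i j hi hj
    obtain ⟨m, hm, hmin⟩ := Finset.exists_min_image (univ.filter fun i => c i = b) ℓ ⟨i, by simpa using hi⟩
    simp only [mem_filter, mem_univ, true_and] at hm hmin
    have hS := hirr (univ.filter fun i => c i = b ∧ ℓ i = ℓ m) ⟨m, by simpa using hm⟩
      (by
        intro x hx y hy
        simp only [mem_filter, mem_univ, true_and] at hx hy
        rw [hx.1, hy.1])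
      (by
        intro x hx y hy hyS
        simp only [mem_filter, mem_univ, true_and, not_and] at hx hy hyS
        have hyb : c y = b := hy.trans hx.1
        have h2 : ℓ x < ℓ y := by
          rw [hx.2]
          exact lt_of_le_of_ne (hmin y hyb) (Ne.symm (hyS hyb))
        have h3 := h0 x y h2
        rwa [part_self A c b hx.1 hyb] at h3)
      m (by simpa using hm)
    have e1 : ℓ i = ℓ m := by
      have := hS i (hi.trans hm.symm)
      simp only [mem_filter, mem_univ, true_and] at this
      exact this.2
    have e2 : ℓ j = ℓ m := by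
      have := hS j (hj.trans hm.symm)
      simp only [mem_filter, mem_univ, true_and] at this
      exact this.2
    rw [e1, e2]
  have h2 := h1 i j (hconst i j hi hj)
  rwa [part_self A c b hi hj, part_self A c b hj hi] at h2

/-- an irreducible GKK block of order at most two is symmetrizable -/
theorem small_symm {A : Matrix (Fin n) (Fin n) ℂ} (hA : IsGKK A) {c : Fin n → ℕ}
    (hirr : IrreducibleBlocks A c) {b : ℕ} (hb : ¬ 3 ≤ (univ.filter fun i => c i = b).card) :
    ∃ w : Fin n → ℝ, (∀ i, 0 < w i) ∧ ∀ i j, c i = b → c j = b → (w i : ℂ) * A i j = w j * conj (A j i) := by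
  obtain ⟨hP, hap⟩ := (isGKK_iff A).mp hA
  have hdiag : ∀ i, conj (A i i) = A i i := by
    intro i
    have : 0 < A i i := by rw [← pm_singleton A i]; exact hP _
    exact Complex.conj_eq_iff_im.mpr (Complex.pos_iff.mp this).2.symm
  by_cases hpair : ∃ i j, i ≠ j ∧ c i = b ∧ c j = b
  · obtain ⟨p, q, hpq, hp, hq⟩ := hpair
    have hmem : ∀ x, c x = b → x = p ∨ x = q := by
      intro x hx
      by_contra hh
      push Not at hh
      apply hb
      have h1 : ({x, p, q} : Finset (Fin n)) ⊆ univ.filter fun i => c i = b := by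
        intro y hy
        simp only [mem_insert, mem_singleton] at hy
        simp only [mem_filter, mem_univ, true_and]
        rcases hy with rfl | rfl | rfl <;> assumption
      have h2 : ({x, p, q} : Finset (Fin n)).card = 3 := by
        rw [card_insert_of_notMem (by simp [hh.1, hh.2]), card_insert_of_notMem (by simpa using hpq),
          card_singleton]
      rw [← h2]
      exact card_le_card h1
    have hne : ∀ x y, x ≠ y → c x = b → c y = b → A x y ≠ 0 := by
      intro x y hxy hx hy h0
      have := hirr {x} ⟨x, by simp⟩ (by simp) (by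
        intro i hi j hj hjS
        simp only [mem_singleton] at hi hjS
        subst hi
        have h1 : j = y := by
          have ha := hmem i hx
          have hb' := hmem y hy
          have hc := hmem j (hj.trans hx)
          rcases ha with rfl | rfl <;> rcases hb' with rfl | rfl <;> rcases hc with rfl | rfl <;>
            simp_all
        rw [h1]; exact h0) x (by simp) y (hy.trans hx.symm)
      simp only [mem_singleton] at this
      exact hxy this.symm
    have hpos : ∀ x y, x ≠ y → c x = b → c y = b → 0 < A x y * A y x := by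
      intro x y hxy hx hy
      have h1 := hap ∅ x y (by simp) (by simp) hxy
      rw [ap_empty A hxy] at h1
      exact lt_of_le_of_ne h1 (mul_ne_zero (hne x y hxy hx hy) (hne y x hxy.symm hy hx)).symm
    refine ⟨fun i => if i = p then ‖A q p‖ else if i = q then ‖A p q‖ else 1, fun i => ?_, fun i j hi hj => ?_⟩
    · dsimp only
      split_ifs
      · exact norm_pos_iff.mpr (hne q p hpq.symm hq hp)
      · exact norm_pos_iff.mpr (hne p q hpq hp hq)
      · exact one_pos
    · obtain ⟨s, hs, hse⟩ := conj_eq_of_mul_pos (hpos p q hpq hp hq)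
      have hns : ‖A q p‖ = s * ‖A p q‖ := by
        rw [← Complex.norm_conj, hse, norm_mul, Complex.norm_real, Real.norm_of_nonneg hs.le]
      have main : ((‖A q p‖ : ℝ) : ℂ) * A p q = ((‖A p q‖ : ℝ) : ℂ) * conj (A q p) := by
        rw [hse, hns]; push_cast; ring
      rcases hmem i hi with rfl | rfl <;> rcases hmem j hj with rfl | rfl
      · rw [hdiag]
      · simp only [if_true, if_neg hpq.symm]; exact main
      · simp only [if_true, if_neg hpq.symm]
        have := congrArg conj main
        simp only [map_mul, Complex.conj_ofReal, Complex.conj_conj] at this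
        exact this.symm
      · rw [hdiag]
  · refine ⟨fun _ => 1, fun _ => one_pos, fun i j hi hj => ?_⟩
    have : i = j := by
      by_contra hij
      exact hpair ⟨i, j, hij, hi, hj⟩
    subst this
    rw [hdiag]

/-- **Criterion for reducible matrices in general position.** -/
theorem reducible_iff {A : Matrix (Fin n) (Fin n) ℂ} (hA : IsGKK A) {c : Fin n → ℕ}
    (ht : ∀ i j, c i < c j → A i j = 0) (hirr : IrreducibleBlocks A c) (hg : GeneralPosition A c) :
    A ∈ closure {B : Matrix (Fin n) (Fin n) ℂ | IsStrictGKK B} ↔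
      ∃ w : Fin n → ℝ, (∀ i, 0 < w i) ∧ ∀ i j, c i = c j → (w i : ℂ) * A i j = w j * conj (A j i) := by
  constructor
  · intro hL
    have hb : ∀ b, ∃ w : Fin n → ℝ, (∀ i, 0 < w i) ∧
        ∀ i j, c i = b → c j = b → (w i : ℂ) * A i j = w j * conj (A j i) := by
      intro b
      by_cases h3 : 3 ≤ (univ.filter fun i => c i = b).card
      · obtain ⟨o, h⟩ := hg b h3
        exact block_symm hirr (symm_of_gen hL h)
      · exact small_symm hA hirr h3
    choose w hw hs using hb
    refine ⟨fun i => w (c i) i, fun i => hw _ i, fun i j hij => ?_⟩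
    have := hs (c i) i j rfl hij.symm
    simpa [hij] using this
  · rintro ⟨w, hw, hs⟩
    have h := block_mem_closure ((isGKK_iff A).mp hA).1 c hw ht hs
    exact closure_mono (fun X hX => hX.1) h

end Pool.Agent.Helper69.GKK
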