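import Mathlib
import Pool.Agent.Helper69.GKK.Block

/-!
An irreducible diagonal block of a GKK matrix that is in general position with respect to one of its
own indices is diagonally similar to a Hermitian matrix.
-/

namespace Pool.Agent.Helper69.GKK

open Matrix Finset Filter Topology
open Pool.Agent.Helper5.GKK
open scoped ComplexOrder ComplexConjugate

variable {n : ℕ}

theorem conj_eq_of_mul_nonneg {x y : ℂ} (h : 0 ≤ x * y) (hx : x ≠ 0) : ∃ s : ℝ, 0 ≤ s ∧ conj y = s * x := by
  rcases eq_or_ne y 0 with rfl | hy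
  · exact ⟨0, le_rfl, by simp⟩
  · obtain ⟨s, hs, h1⟩ := conj_eq_of_mul_pos (lt_of_le_of_ne h (mul_ne_zero hx hy).symm)
    exact ⟨s, hs.le, h1⟩

/-- in a GKK matrix a nonzero cyclic product of a nonreal triangle is not real -/
theorem im_cyc_ne {A : Matrix (Fin n) (Fin n) ℂ} (hp : ∀ i j, i ≠ j → 0 ≤ A i j * A j i) {i j k : Fin n}
    (hij : i ≠ j) (hik : i ≠ k) (hjk : j ≠ k)
    (h : ((A + Aᴴ) i j * (A + Aᴴ) j k * (A + Aᴴ) k i).im ≠ 0) (hz : A i j * A j k * A k i ≠ 0) :
    (A i j * A j k * A k i).im ≠ 0 := by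
  intro h0
  apply h
  have h1 : A i j ≠ 0 := by intro h; apply hz; rw [h]; ring
  have h2 : A j k ≠ 0 := by intro h; apply hz; rw [h]; ring
  have h3 : A k i ≠ 0 := by intro h; apply hz; rw [h]; ring
  obtain ⟨s1, -, e1⟩ := conj_eq_of_mul_nonneg (hp i j hij) h1
  obtain ⟨s2, -, e2⟩ := conj_eq_of_mul_nonneg (hp j k hjk) h2
  obtain ⟨s3, -, e3⟩ := conj_eq_of_mul_nonneg (hp k i hik.symm) h3
  rw [herm_apply, herm_apply, herm_apply, e1, e2, e3]
  have e : (A i j + s1 * A i j) * (A j k + s2 * A j k) * (A k i + s3 * A k i)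
      = (((1 + s1) * (1 + s2) * (1 + s3) : ℝ) : ℂ) * (A i j * A j k * A k i) := by
    push_cast; ring
  rw [e, Complex.im_ofReal_mul, h0, mul_zero]

/-- a nonreal triangle of a GKK matrix is balanced -/
theorem triangle0 {A : Matrix (Fin n) (Fin n) ℂ} (hA : IsGKK A) {i j k : Fin n} (hij : i ≠ j)
    (hik : i ≠ k) (hjk : j ≠ k)
    (h : ((A + Aᴴ) i j * (A + Aᴴ) j k * (A + Aᴴ) k i).im ≠ 0) :
    ‖A i j * A j k * A k i‖ = ‖A i k * A k j * A j i‖ := by
  obtain ⟨hP, hap⟩ := (isGKK_iff A).mp hA
  have hp : ∀ i j, i ≠ j → 0 ≤ A i j * A j i := by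
    intro i j hij
    rw [← ap_empty A hij]; exact hap ∅ i j (by simp) (by simp) hij
  have p1 := hp i j hij
  have p2 := hp j k hjk
  have p3 := hp k i hik.symm
  have hkk : 0 < A k k := by rw [← pm_singleton A k]; exact hP _
  have hreal := hap {k} i j (by simpa using hik) (by simpa using hjk) hij
  rw [ap_single A hij hik hjk] at hreal
  have hsum : (A i j * A j k * A k i + A i k * A k j * A j i).im = 0 := by
    have hk : (A k k).im = 0 := (Complex.pos_iff.mp hkk).2.symm
    have hkr : 0 < (A k k).re := (Complex.pos_iff.mp hkk).1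
    have h1 := (Complex.nonneg_iff.mp hreal).2
    have q23 : ((A j k * A k j) * (A k i * A i k)).im = 0 := (Complex.nonneg_iff.mp (mul_nonneg p2 p3)).2.symm
    have e : (A k k * A i j - A i k * A k j) * (A k k * A j i - A j k * A k i)
        = A k k * A k k * (A i j * A j i) + (A j k * A k j) * (A k i * A i k)
          - A k k * (A i j * A j k * A k i + A i k * A k j * A j i) := by ring
    rw [e, Complex.sub_im, Complex.add_im, q23] at h1
    have e4 : (A k k * A k k * (A i j * A j i)).im = 0 :=
      (Complex.nonneg_iff.mp (mul_nonneg (mul_nonneg hkk.le hkk.le) p1)).2.symm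
    rw [e4, Complex.mul_im, hk] at h1
    have h5 : (A k k).re * (A i j * A j k * A k i + A i k * A k j * A j i).im = 0 := by linarith
    exact (mul_eq_zero.mp h5).resolve_left hkr.ne'
  have hprod : 0 ≤ (A i j * A j k * A k i) * (A i k * A k j * A j i) := by
    have e : A i j * A j k * A k i * (A i k * A k j * A j i)
        = (A i j * A j i) * (A j k * A k j) * (A k i * A i k) := by ring
    rw [e]
    exact mul_nonneg (mul_nonneg p1 p2) p3
  by_cases hz : A i j * A j k * A k i = 0
  · by_cases hw : A i k * A k j * A j i = 0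
    · rw [hz, hw]
    · exfalso
      have h1 := im_cyc_ne hp hik hij hjk.symm (tri_swap A i j k h) hw
      rw [hz, zero_add] at hsum
      exact h1 hsum
  · have h1 := im_cyc_ne hp hij hik hjk h hz
    by_cases hw : A i k * A k j * A j i = 0
    · rw [hw, add_zero] at hsum
      exact absurd hsum h1
    · exact norm_eq_of hsum (lt_of_le_of_ne hprod (mul_ne_zero hz hw).symm) h1

theorem self_symm {A : Matrix (Fin n) (Fin n) ℂ} (hA : IsGKK A) {c : Fin n → ℕ}
    (hirr : IrreducibleBlocks A c) {o : Fin n}
    (h : ∀ j k, c j = c o → c k = c o → j ≠ k → j ≠ o → k ≠ o → A j k ≠ 0 →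
      ((A + Aᴴ) o j * (A + Aᴴ) j k * (A + Aᴴ) k o).im ≠ 0) :
    ∃ w : Fin n → ℝ, (∀ i, 0 < w i) ∧
      ∀ i j, c i = c o → c j = c o → (w i : ℂ) * A i j = w j * conj (A j i) := by
  obtain ⟨hP, hap⟩ := (isGKK_iff A).mp hA
  have hp : ∀ i j, i ≠ j → 0 ≤ A i j * A j i := by
    intro i j hij
    rw [← ap_empty A hij]; exact hap ∅ i j (by simp) (by simp) hij
  have hh : ∀ i j, (A + Aᴴ) i j ≠ 0 → A i j = 0 → A j i ≠ 0 := by
    intro i j h1 h2 h3
    apply h1
    rw [herm_apply, h2, h3]; simp
  -- both families of entries at `o` are nonzero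
  have hout : ∀ j, c j = c o → j ≠ o → A o j ≠ 0 := by
    intro j hj hjo
    have hS := hirr (univ.filter fun j => c j = c o ∧ (j = o ∨ A o j ≠ 0)) ⟨o, by simp⟩
      (by
        intro x hx y hy
        simp only [mem_filter, mem_univ, true_and] at hx hy
        rw [hx.1, hy.1])
      (by
        intro k hk l hl hlS
        simp only [mem_filter, mem_univ, true_and, not_and, not_or, not_not] at hk hl hlS
        have hlb : c l = c o := hl.trans hk.1
        obtain ⟨hlo, hol⟩ := hlS hlb
        rcases hk.2 with rfl | hok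
        · exact hol
        · by_contra hkl
          have hkl' : k ≠ l := by rintro rfl; exact hok hol
          by_cases hko : k = o
          · subst hko; exact hkl hol
          have h1 := h k l hk.1 hlb hkl' hko hlo hkl
          have h2 : A l o ≠ 0 := by
            refine hh o l ?_ hol
            intro h3
            apply h1
            have : (A + Aᴴ) l o = 0 := by rw [← herm_conj, h3, map_zero]
            rw [this, mul_zero, Complex.zero_im]
          have h4 := triangle0 hA (Ne.symm hko) (Ne.symm hlo) hkl' h1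
          rw [hol] at h4
          have h5 : A o k * A k l * A l o = 0 := by
            rw [← norm_eq_zero, h4]; simp
          exact mul_ne_zero (mul_ne_zero hok hkl) h2 h5)
      o (by simp) j hj
    simp only [mem_filter, mem_univ, true_and] at hS
    exact hS.2.resolve_left hjo
  have hin : ∀ j, c j = c o → j ≠ o → A j o ≠ 0 := by
    intro j hj hjo hj0
    have hS := hirr (univ.filter fun j => c j = c o ∧ j ≠ o ∧ A j o = 0) ⟨j, by simp [hj, hjo, hj0]⟩
      (by
        intro x hx y hy
        simp only [mem_filter, mem_univ, true_and] at hx hy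
        rw [hx.1, hy.1])
      (by
        intro k hk l hl hlS
        simp only [mem_filter, mem_univ, true_and, not_and] at hk hl hlS
        obtain ⟨hkb, hko, hk0⟩ := hk
        have hlb : c l = c o := hl.trans hkb
        by_cases hlo : l = o
        · rw [hlo]; exact hk0
        have hl0 := hlS hlb hlo
        by_contra hkl
        have hkl' : k ≠ l := by rintro rfl; exact hl0 hk0
        have h1 := h k l hkb hlb hkl' hko hlo hkl
        have h4 := triangle0 hA (Ne.symm hko) (Ne.symm hlo) hkl' h1
        rw [hk0] at h4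
        have h5 : A o k * A k l * A l o = 0 := by
          rw [← norm_eq_zero, h4]; simp
        exact mul_ne_zero (mul_ne_zero (hout k hkb hko) hkl) hl0 h5)
      j (by simp [hj, hjo, hj0]) o hj.symm
    simp only [mem_filter, mem_univ, true_and] at hS
    exact hS.1 rfl
  have hreal : ∀ i, conj (A i i) = A i i := by
    intro i
    have : 0 < A i i := by rw [← pm_singleton A i]; exact hP _
    exact Complex.conj_eq_iff_im.mpr (Complex.pos_iff.mp this).2.symm
  classical
  refine ⟨fun i => if c i = c o then (if i = o then 1 else ‖A o i‖ / ‖A i o‖) else 1, fun i => ?_,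
    fun i j hi hj => ?_⟩
  · dsimp only
    split_ifs with h1 h2
    · exact one_pos
    · exact div_pos (norm_pos_iff.mpr (hout i h1 h2)) (norm_pos_iff.mpr (hin i h1 h2))
    · exact one_pos
  · dsimp only
    rw [if_pos hi, if_pos hj]
    rcases eq_or_ne i j with rfl | hne
    · rw [hreal]
    have pair : ∀ x, c x = c o → x ≠ o →
        ((1 : ℝ) : ℂ) * A o x = ((‖A o x‖ / ‖A x o‖ : ℝ) : ℂ) * conj (A x o) := by
      intro x hxb hx
      have hpos : 0 < A o x * A x o :=
        lt_of_le_of_ne (hp o x (Ne.symm hx)) (mul_ne_zero (hout x hxb hx) (hin x hxb hx)).symm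
      obtain ⟨s, hs, hse⟩ := conj_eq_of_mul_pos hpos
      have hns : ‖A x o‖ = s * ‖A o x‖ := by
        rw [← Complex.norm_conj, hse, norm_mul, Complex.norm_real, Real.norm_of_nonneg hs.le]
      have n1 : ‖A o x‖ ≠ 0 := norm_ne_zero_iff.mpr (hout x hxb hx)
      rw [hse, hns]
      have e : ‖A o x‖ / (s * ‖A o x‖) = 1 / s := by field_simp
      rw [e]
      push_cast
      have : (s : ℂ) ≠ 0 := by exact_mod_cast hs.ne'
      field_simp
    by_cases hio : i = o
    · subst hio
      rw [if_pos rfl, if_neg hne.symm]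
      exact pair j hj hne.symm
    by_cases hjo : j = o
    · subst hjo
      rw [if_pos rfl, if_neg hne]
      have := congrArg conj (pair i hi hne)
      simp only [map_mul, Complex.conj_ofReal, Complex.conj_conj] at this
      exact this.symm
    rw [if_neg hio, if_neg hjo]
    -- the general pair
    have main : ∀ i j, c i = c o → c j = c o → i ≠ j → i ≠ o → j ≠ o → A i j ≠ 0 →
        ((‖A o i‖ / ‖A i o‖ : ℝ) : ℂ) * A i j = ((‖A o j‖ / ‖A j o‖ : ℝ) : ℂ) * conj (A j i) := by
      intro i j hi hj hne hio hjo hA0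
      have h1 := h i j hi hj hne hio hjo hA0
      have ht := triangle0 hA (Ne.symm hio) (Ne.symm hjo) hne h1
      rw [norm_mul, norm_mul, norm_mul, norm_mul] at ht
      obtain ⟨s, hs, hse⟩ := conj_eq_of_mul_nonneg (hp i j hne) hA0
      have n0 := norm_pos_iff.mpr (hout i hi hio)
      have n1 := norm_pos_iff.mpr (hin i hi hio)
      have n2 := norm_pos_iff.mpr (hin j hj hjo)
      have n3 := norm_pos_iff.mpr hA0
      have hns : ‖A j i‖ = s * ‖A i j‖ := by
        rw [← Complex.norm_conj, hse, norm_mul, Complex.norm_real, Real.norm_of_nonneg hs]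
      rw [hns] at ht
      have key : ‖A o i‖ / ‖A i o‖ = ‖A o j‖ / ‖A j o‖ * s := by
        rw [div_mul_eq_mul_div, div_eq_div_iff n1.ne' n2.ne']
        have := n3.ne'
        apply mul_right_cancel₀ this
        linarith
      rw [hse, key]
      push_cast
      ring
    by_cases hA0 : A i j = 0
    · by_cases hA1 : A j i = 0
      · rw [hA0, hA1]; simp
      · have := congrArg conj (main j i hj hi hne.symm hjo hio hA1)
        simp only [map_mul, Complex.conj_ofReal, Complex.conj_conj] at this
        exact this.symm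
    · exact main i j hi hj hne hio hjo hA0

/-- An irreducible GKK matrix in general position is a limit of strict GKK matrices. -/
theorem irreducible_mem {A : Matrix (Fin n) (Fin n) ℂ} (hA : IsGKK A)
    (hirr : IrreducibleBlocks A fun _ => 0) (hg : GeneralPosition A fun _ => 0) :
    A ∈ closure {B : Matrix (Fin n) (Fin n) ℂ | IsStrictGKK B} := by
  have hs : ∃ w : Fin n → ℝ, (∀ i, 0 < w i) ∧
      ∀ i j, (fun _ : Fin n => 0) i = (fun _ : Fin n => 0) j → (w i : ℂ) * A i j = w j * conj (A j i) := by
    by_cases h3 : 3 ≤ (univ.filter fun i : Fin n => (fun _ : Fin n => 0) i = 0).card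
    · obtain ⟨o, h⟩ := hg 0 h3
      obtain ⟨w, hw, hs⟩ := self_symm (o := o) hA hirr h
      exact ⟨w, hw, fun i j _ => hs i j rfl rfl⟩
    · obtain ⟨w, hw, hs⟩ := small_symm hA hirr h3
      exact ⟨w, hw, fun i j _ => hs i j rfl rfl⟩
  obtain ⟨w, hw, hs⟩ := hs
  exact (reducible_iff hA (fun i j h => absurd h (lt_irrefl _)) hirr hg).mpr ⟨w, hw, hs⟩

end Pool.Agent.Helper69.GKK
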