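import Mathlib
import Pool.Agent.Helper69.GKK.Irr
import Pool.Agent.Helper85.SVG.Det

/-!
An abstract form of strict GKK matrices that is closed under Schur complements, restriction to index
sets and diagonal similarity.
-/

namespace Pool.Agent.Helper69.GKK

open Matrix Finset Filter Topology
open Pool.Agent.Helper5.GKK
open scoped ComplexOrder ComplexConjugate

set_option linter.unusedSectionVars false

variable {ι : Type*} [DecidableEq ι]

/-- Schur complement of the diagonal entry `k` -/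
noncomputable def sch (S : ι → ι → ℂ) (k : ι) : ι → ι → ℂ := fun i j => S i j - S i k * S k j / S k k

/-- `S` restricted to the index set `V` is strict GKK -/
def SG (V : Finset ι) (S : ι → ι → ℂ) : Prop :=
  ∀ l : List ι, l.Nodup → (∀ x ∈ l, x ∈ V) →
    (∀ i ∈ V, i ∉ l → 0 < (l.foldl sch S) i i) ∧
    (∀ i ∈ V, ∀ j ∈ V, i ∉ l → j ∉ l → i ≠ j → 0 < (l.foldl sch S) i j * (l.foldl sch S) j i)

namespace SG

variable {V : Finset ι} {S : ι → ι → ℂ}

theorem diag (h : SG V S) {i : ι} (hi : i ∈ V) : 0 < S i i :=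
  (h [] List.nodup_nil (by simp)).1 i hi (by simp)

theorem prod (h : SG V S) {i j : ι} (hi : i ∈ V) (hj : j ∈ V) (hij : i ≠ j) : 0 < S i j * S j i :=
  (h [] List.nodup_nil (by simp)).2 i hi j hj (by simp) (by simp) hij

theorem diag_ne (h : SG V S) {i : ι} (hi : i ∈ V) : S i i ≠ 0 := (h.diag hi).ne'

theorem ne (h : SG V S) {i j : ι} (hi : i ∈ V) (hj : j ∈ V) (hij : i ≠ j) : S i j ≠ 0 :=
  left_ne_zero_of_mul (h.prod hi hj hij).ne'

theorem diag_im (h : SG V S) {i : ι} (hi : i ∈ V) : (S i i).im = 0 := (Complex.pos_iff.mp (h.diag hi)).2.symm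

theorem mono (h : SG V S) {V' : Finset ι} (hV : V' ⊆ V) : SG V' S := by
  intro l hl hlV
  obtain ⟨h1, h2⟩ := h l hl fun x hx => hV (hlV x hx)
  exact ⟨fun i hi => h1 i (hV hi), fun i hi j hj => h2 i (hV hi) j (hV hj)⟩

theorem sch (h : SG V S) {k : ι} (hk : k ∈ V) : SG (V.erase k) (sch S k) := by
  intro l hl hlV
  have hkl : k ∉ l := fun hh => (mem_erase.mp (hlV k hh)).1 rfl
  obtain ⟨h1, h2⟩ := h (k :: l) (List.nodup_cons.mpr ⟨hkl, hl⟩) (by
    intro x hx
    rcases List.mem_cons.mp hx with rfl | hx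
    · exact hk
    · exact (mem_erase.mp (hlV x hx)).2)
  rw [List.foldl_cons] at h1 h2
  refine ⟨fun i hi hil => h1 i (mem_erase.mp hi).2 ?_, fun i hi j hj hil hjl hij =>
    h2 i (mem_erase.mp hi).2 j (mem_erase.mp hj).2 ?_ ?_ hij⟩
  · rw [List.mem_cons, not_or]; exact ⟨(mem_erase.mp hi).1, hil⟩
  · rw [List.mem_cons, not_or]; exact ⟨(mem_erase.mp hi).1, hil⟩
  · rw [List.mem_cons, not_or]; exact ⟨(mem_erase.mp hj).1, hjl⟩

end SG

/-- diagonal similarity -/
noncomputable def scl (D : ι → ℂ) (S : ι → ι → ℂ) : ι → ι → ℂ := fun i j => (D i)⁻¹ * S i j * D j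

theorem sch_scl (D : ι → ℂ) (hD : ∀ i, D i ≠ 0) (S : ι → ι → ℂ) (k : ι) :
    sch (scl D S) k = scl D (sch S k) := by
  funext i j
  simp only [sch, scl]
  have hk := hD k
  by_cases h : S k k = 0
  · simp [h]
  · field_simp

theorem foldl_scl (D : ι → ℂ) (hD : ∀ i, D i ≠ 0) (l : List ι) : ∀ S : ι → ι → ℂ,
    l.foldl sch (scl D S) = scl D (l.foldl sch S) := by
  induction l with
  | nil => intro S; rfl
  | cons k l ih => intro S; rw [List.foldl_cons, List.foldl_cons, sch_scl D hD, ih]

theorem SG.scl {V : Finset ι} {S : ι → ι → ℂ} (h : SG V S) (D : ι → ℂ) (hD : ∀ i, D i ≠ 0) :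
    SG V (scl D S) := by
  intro l hl hlV
  obtain ⟨h1, h2⟩ := h l hl hlV
  rw [foldl_scl D hD]
  refine ⟨fun i hi hil => ?_, fun i hi j hj hil hjl hij => ?_⟩
  · have e : GKK.scl D (l.foldl GKK.sch S) i i = (l.foldl GKK.sch S) i i := by
      simp only [GKK.scl]
      have := hD i
      field_simp
    rw [e]; exact h1 i hi hil
  · have e : GKK.scl D (l.foldl GKK.sch S) i j * GKK.scl D (l.foldl GKK.sch S) j i
        = (l.foldl GKK.sch S) i j * (l.foldl GKK.sch S) j i := by
      simp only [GKK.scl]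
      have h1 := hD i
      have h2 := hD j
      field_simp
    rw [e]; exact h2 i hi j hj hil hjl hij

section fromMatrix

variable {n : ℕ}

theorem sc_insert' (A : Matrix (Fin n) (Fin n) ℂ) {K : Finset (Fin n)} {k : Fin n} (hK : pm A K ≠ 0)
    (hK' : pm A (insert k K) ≠ 0) (hk : k ∉ K) (i j : Fin n) :
    sc A (insert k K) i j = sc A K i j - sc A K i k * sc A K k j / sc A K k k := by
  have h1 := Helper85.SVG.pp_insert A hK hk i j
  rw [Helper85.SVG.pp_eq_sc A _ hK' i j, pm_insert A K k hK hk] at h1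
  have h2 : sc A K k k ≠ 0 := by
    intro h; apply hK'; rw [pm_insert A K k hK hk, h, mul_zero]
  have h3 : sc A K k k * sc A (insert k K) i j = sc A K k k * sc A K i j - sc A K k j * sc A K i k := by
    apply mul_left_cancel₀ hK
    rw [← h1]; ring
  field_simp
  rw [mul_comm, h3]; ring

theorem foldl_sc (A : Matrix (Fin n) (Fin n) ℂ) (hP : ∀ S, pm A S ≠ 0) (l : List (Fin n)) :
    ∀ K : Finset (Fin n), l.Nodup → (∀ x ∈ l, x ∉ K) →
      l.foldl sch (sc A K) = sc A (l.foldl (fun K k => insert k K) K) := by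
  induction l with
  | nil => intro K _ _; rfl
  | cons k l ih =>
    intro K hl hlK
    rw [List.foldl_cons, List.foldl_cons]
    have hk : k ∉ K := hlK k (by simp)
    have e : sch (sc A K) k = sc A (insert k K) := by
      funext i j
      rw [sc_insert' A (hP K) (hP _) hk]
      rfl
    rw [e]
    refine ih (insert k K) (List.nodup_cons.mp hl).2 fun x hx hxK => ?_
    rcases mem_insert.mp hxK with rfl | h
    · exact (List.nodup_cons.mp hl).1 hx
    · exact hlK x (List.mem_cons_of_mem _ hx) h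

theorem mem_foldl_insert (l : List (Fin n)) : ∀ (K : Finset (Fin n)) (x : Fin n),
    x ∈ l.foldl (fun K k => insert k K) K ↔ x ∈ K ∨ x ∈ l := by
  induction l with
  | nil => intro K x; simp
  | cons k l ih =>
    intro K x
    rw [List.foldl_cons, ih, mem_insert, List.mem_cons]
    tauto

theorem SG.of_strict {X : Matrix (Fin n) (Fin n) ℂ} (hX : IsStrictGKK X) (V : Finset (Fin n)) :
    SG V (fun i j => X i j) := by
  obtain ⟨hP, hap⟩ := (isStrictGKK_iff X).mp hX
  have hP' : ∀ S, pm X S ≠ 0 := fun S => (hP S).ne'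
  intro l hl _
  have e0 : (fun i j => X i j) = sc X ∅ := by
    funext i j; rw [sc_empty]
  rw [e0, foldl_sc X hP' l (∅ : Finset (Fin n)) hl (by simp)]
  set K := l.foldl (fun K k => insert k K) (∅ : Finset (Fin n)) with hK
  have hmem : ∀ x, x ∉ l → x ∉ K := by
    intro x hx hxK
    rw [hK, mem_foldl_insert] at hxK
    rcases hxK with h | h
    · simp at h
    · exact hx h
  have hinv : ∀ z : ℂ, 0 < z → 0 < z⁻¹ := by
    intro z hz
    obtain ⟨h1, h2⟩ := Complex.pos_iff.mp hz
    have e : z = (z.re : ℂ) := Complex.ext rfl (by rw [Complex.ofReal_im]; exact h2.symm)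
    rw [e, ← Complex.ofReal_inv]
    exact_mod_cast inv_pos.mpr h1
  refine ⟨fun i _ hi => ?_, fun i _ j _ hi hj hij => ?_⟩
  · have h1 := hP (insert i K)
    rw [pm_insert X K i (hP' K) (hmem i hi)] at h1
    have e : sc X K i i = (pm X K)⁻¹ * (pm X K * sc X K i i) := by
      rw [← mul_assoc, inv_mul_cancel₀ (hP' K), one_mul]
    rw [e]
    exact mul_pos (hinv _ (hP K)) h1
  · have h1 := hap K i j (hmem i hi) (hmem j hj) hij
    rw [ap, pm_insert X K i (hP' K) (hmem i hi), pm_insert X K j (hP' K) (hmem j hj),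
      pm_insert_insert X K i j (hP' K) (hmem i hi) (hmem j hj) hij] at h1
    have e : sc X K i j * sc X K j i = (pm X K)⁻¹ * ((pm X K)⁻¹ *
        (pm X K * sc X K i i * (pm X K * sc X K j j) -
          pm X K * (pm X K * (sc X K i i * sc X K j j - sc X K i j * sc X K j i)))) := by
      have := hP' K
      field_simp
      ring
    rw [e]
    exact mul_pos (hinv _ (hP K)) (mul_pos (hinv _ (hP K)) h1)

end fromMatrix

/-- the triangle condition -/
theorem SG.tri {V : Finset ι} {S : ι → ι → ℂ} (h : SG V S) {i j k : ι} (hi : i ∈ V) (hj : j ∈ V)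
    (hk : k ∈ V) (hij : i ≠ j) (hik : i ≠ k) (hjk : j ≠ k) (him : (S i j * S j k * S k i).im ≠ 0) :
    ‖S i j * S j k * S k i‖ = ‖S i k * S k j * S j i‖ := by
  have p1 := h.prod hi hj hij
  have p2 := h.prod hj hk hjk
  have p3 := h.prod hk hi hik.symm
  have hkk := h.diag hk
  have h1 := (h.sch hk).prod (mem_erase.mpr ⟨hik, hi⟩) (mem_erase.mpr ⟨hjk, hj⟩) hij
  simp only [GKK.sch] at h1
  have hkk0 := hkk.ne'
  have h2 : 0 < S k k * S k k * ((S i j - S i k * S k j / S k k) * (S j i - S j k * S k i / S k k)) :=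
    mul_pos (mul_pos hkk hkk) h1
  have e : S k k * S k k * ((S i j - S i k * S k j / S k k) * (S j i - S j k * S k i / S k k))
      = S k k * S k k * (S i j * S j i) + (S j k * S k j) * (S k i * S i k)
        - S k k * (S i j * S j k * S k i + S i k * S k j * S j i) := by
    field_simp
    ring
  rw [e] at h2
  refine norm_eq_of ?_ ?_ him
  · have hk0 : (S k k).im = 0 := h.diag_im hk
    have hkr : 0 < (S k k).re := (Complex.pos_iff.mp hkk).1
    have h3 := (Complex.pos_iff.mp h2).2
    have q23 : ((S j k * S k j) * (S k i * S i k)).im = 0 := (Complex.pos_iff.mp (mul_pos p2 p3)).2.symm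
    have e4 : (S k k * S k k * (S i j * S j i)).im = 0 :=
      (Complex.pos_iff.mp (mul_pos (mul_pos hkk hkk) p1)).2.symm
    rw [Complex.sub_im, Complex.add_im, q23, e4, Complex.mul_im, hk0] at h3
    have h5 : (S k k).re * (S i j * S j k * S k i + S i k * S k j * S j i).im = 0 := by linarith
    exact (mul_eq_zero.mp h5).resolve_left hkr.ne'
  · have e : S i j * S j k * S k i * (S i k * S k j * S j i)
        = (S i j * S j i) * (S j k * S k j) * (S k i * S i k) := by ring
    rw [e]
    exact mul_pos (mul_pos p1 p2) p3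

end Pool.Agent.Helper69.GKK
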