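import Mathlib
import Pool.Agent.Helper69.GKK.SG

/-!
Four indices of a strict GKK matrix that carry both an unbalanced triangle and a nonreal triangle:
normal form, the rank one relation, and the behaviour under Schur complements.
-/

namespace Pool.Agent.Helper69.GKK

open Matrix Finset Filter Topology
open scoped ComplexOrder ComplexConjugate

set_option linter.unusedSectionVars false

variable {ι : Type*} [DecidableEq ι]

/-- the triangle is not balanced -/
def RT (S : ι → ι → ℂ) (a b c : ι) : Prop := ‖S a b * S b c * S c a‖ ≠ ‖S a c * S c b * S b a‖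

/-- the triangle is not real -/
def HT (S : ι → ι → ℂ) (a b c : ι) : Prop := (S a b * S b c * S c a).im ≠ 0

/-- rows (columns) `a` and `x` are proportional on the columns (rows) `c` and `k` -/
def par (S : ι → ι → ℂ) (a c x k : ι) : Prop := S a k * S x c = S a c * S x k ∧ S k a * S c x = S c a * S k x

/-- unbalanced on `a b`, nonreal on `c d` -/
def Mixed (S : ι → ι → ℂ) (a b c d : ι) : Prop := RT S a b c ∧ RT S a b d ∧ HT S a c d

theorem real_of_im {z : ℂ} (h : z.im = 0) : z = (z.re : ℂ) :=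
  Complex.ext rfl (by rw [Complex.ofReal_im]; exact h)

theorem im_of_prod {x y : ℂ} (hx : x.im = 0) (hxy : 0 < x * y) : y.im = 0 := by
  obtain ⟨s, hs, h⟩ := conj_eq_of_mul_pos hxy
  have := congrArg Complex.im h
  rw [Complex.im_ofReal_mul, hx, mul_zero, Complex.conj_im] at this
  linarith

theorem conj_of_norm {x y : ℂ} (hxy : 0 < x * y) (hn : ‖x‖ = ‖y‖) : y = conj x := by
  obtain ⟨s, hs, h⟩ := conj_eq_of_mul_pos hxy
  have hx : x ≠ 0 := left_ne_zero_of_mul hxy.ne'
  have h1 : ‖y‖ = s * ‖x‖ := by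
    rw [← Complex.norm_conj, h, norm_mul, Complex.norm_real, Real.norm_of_nonneg hs.le]
  have h2 : s = 1 := by
    have h3 : ‖x‖ ≠ 0 := norm_ne_zero_iff.mpr hx
    have h4 : s * ‖x‖ = 1 * ‖x‖ := by rw [← h1, ← hn, one_mul]
    exact mul_right_cancel₀ h3 h4
  rw [h2, Complex.ofReal_one, one_mul] at h
  rw [← h, Complex.conj_conj]

theorem eq_of_norm {x y : ℂ} (hx : x.im = 0) (hxy : 0 < x * y) (hn : ‖x‖ = ‖y‖) : y = x := by
  rw [conj_of_norm hxy hn]
  exact Complex.conj_eq_iff_im.mpr hx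

/-- symmetrising a pair -/
theorem exists_sym {x y : ℂ} (hxy : 0 < x * y) : ∃ δ : ℂ, δ ≠ 0 ∧ ∃ r : ℝ, 0 < r ∧ x * δ = r ∧ δ⁻¹ * y = r := by
  obtain ⟨s, hs, h⟩ := conj_eq_of_mul_pos hxy
  have hx : x ≠ 0 := left_ne_zero_of_mul hxy.ne'
  have hn : 0 < ‖x‖ := norm_pos_iff.mpr hx
  have hy : y = s * conj x := by
    rw [← Complex.conj_conj y, h, map_mul, Complex.conj_ofReal]
  have hss : 0 < Real.sqrt s := Real.sqrt_pos.mpr hs
  have hcx : conj x ≠ 0 := (map_ne_zero _).mpr hx
  have hnc : (‖x‖ : ℂ) ≠ 0 := by exact_mod_cast hn.ne'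
  have hsc : (Real.sqrt s : ℂ) ≠ 0 := by exact_mod_cast hss.ne'
  have hxx : x * conj x = ((‖x‖ : ℝ) : ℂ) * ((‖x‖ : ℝ) : ℂ) := by
    rw [Complex.mul_conj, Complex.normSq_eq_norm_sq]; push_cast; ring
  have hs2 : ((s : ℝ) : ℂ) = ((Real.sqrt s : ℝ) : ℂ) * ((Real.sqrt s : ℝ) : ℂ) := by
    rw [← Complex.ofReal_mul, Real.mul_self_sqrt hs.le]
  refine ⟨(Real.sqrt s : ℂ) * conj x / ‖x‖, div_ne_zero (mul_ne_zero hsc hcx) hnc, Real.sqrt s * ‖x‖,
    mul_pos hss hn, ?_, ?_⟩
  · have e : x * ((Real.sqrt s : ℂ) * conj x / ‖x‖) = (Real.sqrt s : ℂ) * (x * conj x) / ‖x‖ := by ring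
    rw [e, hxx]
    push_cast
    field_simp
  · rw [hy, hs2]
    push_cast
    field_simp

theorem norm_cancel {x y u v : ℂ} (hu : u ≠ 0) (h : ‖u‖ = ‖v‖) (hxy : ‖x * u‖ = ‖y * v‖) : ‖x‖ = ‖y‖ := by
  rw [norm_mul, norm_mul, ← h] at hxy
  exact mul_right_cancel₀ (norm_ne_zero_iff.mpr hu) hxy

/-- normal form of a mixed quadruple -/
structure NF (S : ι → ι → ℂ) (a b c d : ι) : Prop where
  ac : S c a = S a c
  ac_im : (S a c).im = 0
  ad : S d a = S a d
  ad_im : (S a d).im = 0
  bc : S c b = S b c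
  bc_im : (S b c).im = 0
  bd : S d b = S b d
  bd_im : (S b d).im = 0
  ab_im : (S a b).im = 0
  ba_im : (S b a).im = 0
  ab : S a b ≠ S b a
  cd : S d c = conj (S c d)
  cd_im : (S c d).im ≠ 0

theorem cyc_scl (D : ι → ℂ) (hD : ∀ i, D i ≠ 0) (S : ι → ι → ℂ) (a b c : ι) :
    scl D S a b * scl D S b c * scl D S c a = S a b * S b c * S c a := by
  simp only [scl]
  have ha := hD a
  have hb := hD b
  have hc := hD c
  field_simp

theorem RT_scl (D : ι → ℂ) (hD : ∀ i, D i ≠ 0) (S : ι → ι → ℂ) (a b c : ι) :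
    RT (scl D S) a b c ↔ RT S a b c := by
  rw [RT, RT, cyc_scl D hD, cyc_scl D hD]

theorem HT_scl (D : ι → ℂ) (hD : ∀ i, D i ≠ 0) (S : ι → ι → ℂ) (a b c : ι) :
    HT (scl D S) a b c ↔ HT S a b c := by
  rw [HT, HT, cyc_scl D hD]

theorem Mixed_scl (D : ι → ℂ) (hD : ∀ i, D i ≠ 0) (S : ι → ι → ℂ) (a b c d : ι) :
    Mixed (scl D S) a b c d ↔ Mixed S a b c d := by
  rw [Mixed, Mixed, RT_scl D hD, RT_scl D hD, HT_scl D hD]

theorem par_scl (D : ι → ℂ) (hD : ∀ i, D i ≠ 0) (S : ι → ι → ℂ) (a c x k : ι) :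
    par (scl D S) a c x k ↔ par S a c x k := by
  have ha := hD a
  have hc := hD c
  have hx := hD x
  have hk := hD k
  have e1 : scl D S a k * scl D S x c = ((D a)⁻¹ * (D x)⁻¹ * D k * D c) * (S a k * S x c) := by
    simp only [scl]; ring
  have e2 : scl D S a c * scl D S x k = ((D a)⁻¹ * (D x)⁻¹ * D k * D c) * (S a c * S x k) := by
    simp only [scl]; ring
  have e3 : scl D S k a * scl D S c x = ((D k)⁻¹ * (D c)⁻¹ * D a * D x) * (S k a * S c x) := by
    simp only [scl]; ring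
  have e4 : scl D S c a * scl D S k x = ((D k)⁻¹ * (D c)⁻¹ * D a * D x) * (S c a * S k x) := by
    simp only [scl]; ring
  rw [par, par, e1, e2, e3, e4]
  have n1 : ((D a)⁻¹ * (D x)⁻¹ * D k * D c) ≠ 0 := by
    refine mul_ne_zero (mul_ne_zero (mul_ne_zero (inv_ne_zero ha) (inv_ne_zero hx)) hk) hc
  have n2 : ((D k)⁻¹ * (D c)⁻¹ * D a * D x) ≠ 0 := by
    refine mul_ne_zero (mul_ne_zero (mul_ne_zero (inv_ne_zero hk) (inv_ne_zero hc)) ha) hx
  exact and_congr ⟨fun h => mul_left_cancel₀ n1 h, fun h => by rw [h]⟩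
    ⟨fun h => mul_left_cancel₀ n2 h, fun h => by rw [h]⟩

section

variable {V : Finset ι} {S : ι → ι → ℂ} {a b c d : ι}

theorem SG.not_HT_of_RT (h : SG V S) (ha : a ∈ V) (hb : b ∈ V) (hc : c ∈ V) (hab : a ≠ b) (hac : a ≠ c)
    (hbc : b ≠ c) (hR : RT S a b c) : (S a b * S b c * S c a).im = 0 := by
  by_contra hh
  exact hR (h.tri ha hb hc hab hac hbc hh)

theorem SG.not_RT_of_HT (h : SG V S) (ha : a ∈ V) (hb : b ∈ V) (hc : c ∈ V) (hab : a ≠ b) (hac : a ≠ c)
    (hbc : b ≠ c) (hH : HT S a b c) : ‖S a b * S b c * S c a‖ = ‖S a c * S c b * S b a‖ :=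
  h.tri ha hb hc hab hac hbc hH

theorem im_mul_real {x y : ℂ} (hx : x.im = 0) (hx0 : x ≠ 0) : (x * y).im = 0 ↔ y.im = 0 := by
  have hre : x.re ≠ 0 := fun h => hx0 (Complex.ext h hx)
  rw [Complex.mul_im, hx, zero_mul, add_zero]
  exact ⟨fun h => (mul_eq_zero.mp h).resolve_left hre, fun h => by rw [h, mul_zero]⟩

theorem exists_NF (h : SG V S) (ha : a ∈ V) (hb : b ∈ V) (hc : c ∈ V) (hd : d ∈ V) (hab : a ≠ b)
    (hac : a ≠ c) (had : a ≠ d) (hbc : b ≠ c) (hbd : b ≠ d) (hcd : c ≠ d) (hM : Mixed S a b c d) :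
    ∃ D : ι → ℂ, (∀ i, D i ≠ 0) ∧ NF (scl D S) a b c d := by
  obtain ⟨δ1, hδ1, r1, hr1, e1, e1'⟩ := exists_sym (h.prod ha hc hac)
  obtain ⟨δ2, hδ2, r2, hr2, e2, e2'⟩ := exists_sym (h.prod ha hd had)
  obtain ⟨δ3, hδ3, r3, hr3, e3, e3'⟩ := exists_sym (h.prod hc hb hbc.symm)
  let D : ι → ℂ := fun i => if i = c then δ1 else if i = d then δ2 else if i = b then δ1 * δ3 else 1
  have hD : ∀ i, D i ≠ 0 := by
    intro i
    simp only [D]
    split_ifs
    · exact hδ1
    · exact hδ2
    · exact mul_ne_zero hδ1 hδ3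
    · exact one_ne_zero
  have Da : D a = 1 := by simp only [D, if_neg hac, if_neg had, if_neg hab]
  have Dc : D c = δ1 := by simp only [D, if_true]
  have Dd : D d = δ2 := by simp only [D, if_neg hcd.symm, if_true]
  have Db : D b = δ1 * δ3 := by simp only [D, if_neg hbc, if_neg hbd, if_true]
  have h' := h.scl D hD
  have hM' := (Mixed_scl D hD S a b c d).mpr hM
  set T := scl D S with hT
  have Tac : T a c = r1 := by rw [hT]; simp only [scl]; rw [Da, Dc, inv_one, one_mul, e1]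
  have Tca : T c a = r1 := by rw [hT]; simp only [scl]; rw [Da, Dc, mul_one, e1']
  have Tad : T a d = r2 := by rw [hT]; simp only [scl]; rw [Da, Dd, inv_one, one_mul, e2]
  have Tda : T d a = r2 := by rw [hT]; simp only [scl]; rw [Da, Dd, mul_one, e2']
  have Tcb : T c b = r3 := by
    rw [hT]; simp only [scl]; rw [Dc, Db]
    have : δ1⁻¹ * S c b * (δ1 * δ3) = S c b * δ3 := by field_simp
    rw [this, e3]
  have Tbc : T b c = r3 := by
    rw [hT]; simp only [scl]; rw [Dc, Db]
    have : (δ1 * δ3)⁻¹ * S b c * δ1 = δ3⁻¹ * S b c := by field_simp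
    rw [this, e3']
  have c1 : (r1 : ℂ) ≠ 0 := by exact_mod_cast hr1.ne'
  have c2 : (r2 : ℂ) ≠ 0 := by exact_mod_cast hr2.ne'
  have c3 : (r3 : ℂ) ≠ 0 := by exact_mod_cast hr3.ne'
  obtain ⟨hR1, hR2, hH⟩ := hM'
  -- `a b`
  have ab_im : (T a b).im = 0 := by
    have h1 := h'.not_HT_of_RT ha hb hc hab hac hbc hR1
    rw [Tbc, Tca] at h1
    have e : T a b * r3 * r1 = ((r3 * r1 : ℝ) : ℂ) * T a b := by push_cast; ring
    rw [e, Complex.im_ofReal_mul] at h1
    exact (mul_eq_zero.mp h1).resolve_left (mul_pos hr3 hr1).ne'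
  have ba_im : (T b a).im = 0 := im_of_prod ab_im (h'.prod ha hb hab)
  have bd_im : (T b d).im = 0 := by
    have h1 := h'.not_HT_of_RT ha hb hd hab had hbd hR2
    rw [Tda] at h1
    have e : T a b * T b d * r2 = (T a b * r2) * T b d := by ring
    rw [e] at h1
    refine (im_mul_real ?_ ?_).mp h1
    · rw [Complex.mul_im, Complex.ofReal_im, ab_im]; ring
    · exact mul_ne_zero (h'.ne ha hb hab) c2
  have db_im : (T d b).im = 0 := im_of_prod bd_im (h'.prod hb hd hbd)
  have hcd_norm : ‖T c d‖ = ‖T d c‖ := by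
    have h1 := h'.not_RT_of_HT ha hc hd hac had hcd hH
    rw [Tac, Tda, Tad, Tca] at h1
    have e1 : (r1 : ℂ) * T c d * r2 = T c d * (r1 * r2) := by ring
    have e2 : (r2 : ℂ) * T d c * r1 = T d c * (r1 * r2) := by ring
    rw [e1, e2] at h1
    exact norm_cancel (mul_ne_zero c1 c2) rfl h1
  have hcd_im : (T c d).im ≠ 0 := by
    intro h0
    apply hH
    rw [Tac, Tda]
    rw [Complex.mul_im, Complex.mul_im, Complex.mul_re, Complex.ofReal_im, Complex.ofReal_im, h0]
    ring
  have hcd' : T d c = conj (T c d) := conj_of_norm (h'.prod hc hd hcd) hcd_norm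
  have hbd_norm : ‖T b d‖ = ‖T d b‖ := by
    have hH2 : HT T b c d := by
      intro h0
      apply hcd_im
      have e : T b c * T c d * T d b = (T b c * T d b) * T c d := by ring
      rw [e] at h0
      refine (im_mul_real ?_ ?_).mp h0
      · rw [Complex.mul_im, Tbc, Complex.ofReal_im, db_im]; ring
      · exact mul_ne_zero (h'.ne hb hc hbc) (h'.ne hd hb hbd.symm)
    have h1 := h'.not_RT_of_HT hb hc hd hbc hbd hcd hH2
    have e1 : T b c * T c d * T d b = T d b * (T b c * T c d) := by ring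
    have e2 : T b d * T d c * T c b = T b d * (T c b * T d c) := by ring
    rw [e1, e2] at h1
    refine (norm_cancel (mul_ne_zero (h'.ne hb hc hbc) (h'.ne hc hd hcd)) ?_ h1).symm
    rw [norm_mul, norm_mul, hcd_norm, Tbc, Tcb]
  have hab' : T a b ≠ T b a := by
    intro hab'
    apply hR1
    rw [hab', Tbc, Tca, Tac, Tcb]
    congr 1
    ring
  have hNF : NF T a b c d :=
    { ac := by rw [Tac, Tca]
      ac_im := by rw [Tac]; exact Complex.ofReal_im _
      ad := by rw [Tad, Tda]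
      ad_im := by rw [Tad]; exact Complex.ofReal_im _
      bc := by rw [Tbc, Tcb]
      bc_im := by rw [Tbc]; exact Complex.ofReal_im _
      bd := eq_of_norm bd_im (h'.prod hb hd hbd) hbd_norm
      bd_im := bd_im
      ab_im := ab_im
      ba_im := ba_im
      ab := hab'
      cd := hcd'
      cd_im := hcd_im }
  exact ⟨D, hD, hNF⟩

/-- the rank one relation in normal form -/
theorem NF.rel (h : SG V S) (ha : a ∈ V) (hb : b ∈ V) (hc : c ∈ V) (hd : d ∈ V) (hab : a ≠ b)
    (hac : a ≠ c) (had : a ≠ d) (hbc : b ≠ c) (hbd : b ≠ d) (hcd : c ≠ d) (hN : NF S a b c d) :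
    S a c * S b d = S a d * S b c := by
  have hs := real_of_im (h.diag_im hc)
  have hs0 : (S c c).re ≠ 0 := by
    intro h0; apply h.diag_ne hc; rw [hs, h0, Complex.ofReal_zero]
  set s := (S c c).re with hs_def
  have e1 := real_of_im hN.ac_im
  have e2 := real_of_im hN.ad_im
  have e3 := real_of_im hN.bc_im
  have e4 := real_of_im hN.bd_im
  have e5 := real_of_im hN.ab_im
  have e6 := real_of_im hN.ba_im
  set p := (S a c).re
  set q := (S a d).re
  set r := (S b c).re
  set t := (S b d).re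
  set u := (S a b).re
  set v := (S b a).re
  set z := S c d with hz
  have hY := h.sch hc
  have ma : a ∈ V.erase c := mem_erase.mpr ⟨hac, ha⟩
  have mb : b ∈ V.erase c := mem_erase.mpr ⟨hbc, hb⟩
  have md : d ∈ V.erase c := mem_erase.mpr ⟨hcd.symm, hd⟩
  have yab : sch S c a b = ((u - p * r / s : ℝ) : ℂ) := by
    simp only [sch]; rw [e5, e1, hN.bc, e3, hs]; push_cast; ring
  have yba : sch S c b a = ((v - r * p / s : ℝ) : ℂ) := by
    simp only [sch]; rw [e6, hN.ac, e1, e3, hs]; push_cast; ring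
  have yad : sch S c a d = q - p * z / s := by simp only [sch]; rw [e2, e1, hs]
  have yda : sch S c d a = q - p * conj z / s := by
    simp only [sch]; rw [hN.ad, e2, hN.ac, e1, hN.cd, hs]; ring
  have ybd : sch S c b d = t - r * z / s := by simp only [sch]; rw [e4, e3, hs]
  have ydb : sch S c d b = t - r * conj z / s := by
    simp only [sch]; rw [hN.bd, e4, hN.bc, e3, hN.cd, hs]; ring
  have cda : sch S c d a = conj (sch S c a d) := by
    rw [yda, yad]; simp
  have cdb : sch S c d b = conj (sch S c b d) := by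
    rw [ydb, ybd]; simp
  have him : (sch S c a b * sch S c b d * sch S c d a).im = 0 := by
    by_contra hne
    have h1 := hY.tri ma mb md hab had hbd hne
    have h2 : ‖sch S c a b‖ = ‖sch S c b a‖ := by
      have e1 : sch S c a b * sch S c b d * sch S c d a = sch S c a b * (sch S c b d * sch S c d a) := by ring
      have e2 : sch S c a d * sch S c d b * sch S c b a = sch S c b a * (sch S c d b * sch S c a d) := by ring
      rw [e1, e2] at h1
      refine norm_cancel (mul_ne_zero (hY.ne mb md hbd) (hY.ne md ma had.symm)) ?_ h1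
      rw [norm_mul, norm_mul, cda, cdb, Complex.norm_conj, Complex.norm_conj]
    have h3 := eq_of_norm (by rw [yab]; exact Complex.ofReal_im _) (hY.prod ma mb hab) h2
    rw [yab, yba] at h3
    have h4 : v - r * p / s = u - p * r / s := by exact_mod_cast h3
    apply hN.ab
    rw [e5, e6]
    have : u = v := by
      have h5 : r * p / s = p * r / s := by ring
      linarith
    rw [this]
  have e : sch S c a b * sch S c b d * sch S c d a = sch S c a b * (sch S c b d * sch S c d a) := by ring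
  rw [e] at him
  have him2 := (im_mul_real (by rw [yab]; exact Complex.ofReal_im _) (hY.ne ma mb hab)).mp him
  rw [ybd, yda] at him2
  have e7 : ((t : ℂ) - r * z / s) * (q - p * conj z / s)
      = ((t * q : ℝ) : ℂ) - ((t * p / s : ℝ) : ℂ) * conj z - ((r * q / s : ℝ) : ℂ) * z
        + ((r * p / (s * s) : ℝ) : ℂ) * (z * conj z) := by
    push_cast; ring
  rw [e7, Complex.mul_conj, Complex.add_im, Complex.sub_im, Complex.sub_im, Complex.im_ofReal_mul,
    Complex.im_ofReal_mul, Complex.im_ofReal_mul, Complex.ofReal_im, Complex.ofReal_im, Complex.conj_im] at him2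
  have h8 : z.im * ((t * p - r * q) / s) = 0 := by
    have : z.im * ((t * p - r * q) / s) = 0 - t * p / s * -z.im - r * q / s * z.im + r * p / (s * s) * 0 := by
      ring
    rw [this]; exact him2
  have h9 : t * p - r * q = 0 := by
    rcases mul_eq_zero.mp h8 with h | h
    · exact absurd h hN.cd_im
    · exact (div_eq_zero_iff.mp h).resolve_right hs0
  rw [e1, e2, e3, e4]
  have : p * t = q * r := by linarith
  exact_mod_cast this

end

end Pool.Agent.Helper69.GKK
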