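import Mathlib
import Pool.Agent.Helper69.GKK.Mixed

/-!
Symmetries, the cocycle relations on four indices, and mixed quadruples under Schur complements.
-/

namespace Pool.Agent.Helper69.GKK

open Matrix Finset Filter Topology
open scoped ComplexOrder ComplexConjugate

set_option linter.unusedSectionVars false

variable {ι : Type*} [DecidableEq ι] {V : Finset ι} {S : ι → ι → ℂ} {a b c d v : ι}

theorem RT.rot (h : RT S a b c) : RT S b c a := by
  unfold RT at h ⊢
  have e1 : S b c * S c a * S a b = S a b * S b c * S c a := by ring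
  have e2 : S b a * S a c * S c b = S a c * S c b * S b a := by ring
  rw [e1, e2]; exact h

theorem RT.swap (h : RT S a b c) : RT S a c b := by
  unfold RT at h ⊢
  exact h.symm

theorem HT.rot (h : HT S a b c) : HT S b c a := by
  unfold HT at h ⊢
  have e1 : S b c * S c a * S a b = S a b * S b c * S c a := by ring
  rw [e1]; exact h

theorem im_ne_of_prod {z w : ℂ} (h : 0 < z * w) (hz : z.im ≠ 0) : w.im ≠ 0 := by
  intro h0
  apply hz
  exact im_of_prod h0 (by rw [mul_comm]; exact h)

theorem SG.HT_swap (h : SG V S) (ha : a ∈ V) (hb : b ∈ V) (hc : c ∈ V) (hab : a ≠ b) (hac : a ≠ c)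
    (hbc : b ≠ c) (hH : HT S a b c) : HT S a c b := by
  refine im_ne_of_prod ?_ hH
  have e : S a b * S b c * S c a * (S a c * S c b * S b a)
      = (S a b * S b a) * (S b c * S c b) * (S c a * S a c) := by ring
  rw [e]
  exact mul_pos (mul_pos (h.prod ha hb hab) (h.prod hb hc hbc)) (h.prod hc ha hac.symm)

theorem SG.not_both (h : SG V S) (ha : a ∈ V) (hb : b ∈ V) (hc : c ∈ V) (hab : a ≠ b) (hac : a ≠ c)
    (hbc : b ≠ c) : ¬ (RT S a b c ∧ HT S a b c) := fun hh => hh.1 (h.tri ha hb hc hab hac hbc hh.2)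

/-- an unbalanced triangle is not alone in a quadruple -/
theorem SG.RT_four (h : SG V S) (ha : a ∈ V) (hb : b ∈ V) (hc : c ∈ V) (hd : d ∈ V) (hab : a ≠ b)
    (hac : a ≠ c) (had : a ≠ d) (hR : RT S b c d) : RT S a b c ∨ RT S a c d ∨ RT S a d b := by
  by_contra hno
  push Not at hno
  obtain ⟨h1, h2, h3⟩ := hno
  unfold RT at h1 h2 h3 hR
  push Not at h1 h2 h3
  apply hR
  have e1 : (S a b * S b c * S c a) * (S a c * S c d * S d a) * (S a d * S d b * S b a)
      = (S a b * S b a * (S a c * S c a) * (S a d * S d a)) * (S b c * S c d * S d b) := by ring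
  have e2 : (S a c * S c b * S b a) * (S a d * S d c * S c a) * (S a b * S b d * S d a)
      = (S a b * S b a * (S a c * S c a) * (S a d * S d a)) * (S b d * S d c * S c b) := by ring
  have n : S a b * S b a * (S a c * S c a) * (S a d * S d a) ≠ 0 :=
    mul_ne_zero (mul_ne_zero (h.prod ha hb hab).ne' (h.prod ha hc hac).ne') (h.prod ha hd had).ne'
  have h4 : ‖(S a b * S b c * S c a) * (S a c * S c d * S d a) * (S a d * S d b * S b a)‖
      = ‖(S a c * S c b * S b a) * (S a d * S d c * S c a) * (S a b * S b d * S d a)‖ := by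
    rw [norm_mul, norm_mul, h1, h2, h3, norm_mul (S a c * S c b * S b a * (S a d * S d c * S c a)),
      norm_mul (S a c * S c b * S b a)]
  rw [e1, e2, norm_mul, norm_mul (S a b * S b a * (S a c * S c a) * (S a d * S d a))] at h4
  exact mul_left_cancel₀ (norm_ne_zero_iff.mpr n) h4

theorem im_three {x y z : ℂ} (hx : x.im = 0) (hy : y.im = 0) (hz : z.im = 0) : (x * y * z).im = 0 := by
  rw [Complex.mul_im, Complex.mul_im, hx, hy, hz]; ring

/-- a nonreal triangle is not alone in a quadruple -/
theorem SG.HT_four (h : SG V S) (ha : a ∈ V) (hb : b ∈ V) (hc : c ∈ V) (hd : d ∈ V) (hab : a ≠ b)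
    (hac : a ≠ c) (had : a ≠ d) (hH : HT S b c d) : HT S a b c ∨ HT S a c d ∨ HT S a d b := by
  by_contra hno
  push Not at hno
  obtain ⟨h1, h2, h3⟩ := hno
  unfold HT at h1 h2 h3 hH
  push Not at h1 h2 h3
  apply hH
  have hp : 0 < S a b * S b a * (S a c * S c a) * (S a d * S d a) :=
    mul_pos (mul_pos (h.prod ha hb hab) (h.prod ha hc hac)) (h.prod ha hd had)
  have e1 : (S a b * S b c * S c a) * (S a c * S c d * S d a) * (S a d * S d b * S b a)
      = (S a b * S b a * (S a c * S c a) * (S a d * S d a)) * (S b c * S c d * S d b) := by ring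
  have h4 : ((S a b * S b c * S c a) * (S a c * S c d * S d a) * (S a d * S d b * S b a)).im = 0 :=
    im_three h1 h2 h3
  rw [e1] at h4
  exact (im_mul_real (Complex.pos_iff.mp hp).2.symm hp.ne').mp h4

/-- a rank one relation and nonreal triangles -/
theorem SG.rel_HT (h : SG V S) (hb : b ∈ V) (hc : c ∈ V) (hv : v ∈ V) (hbc : b ≠ c) (hbv : b ≠ v)
    (hrel : S a c * S b v = S a v * S b c) : HT S a c b ↔ HT S a v b := by
  have p1 := h.prod hb hc hbc
  have p2 := h.prod hb hv hbv
  have e : (S b v * S v b) * (S a c * S c b * S b a) = (S b c * S c b) * (S a v * S v b * S b a) := by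
    linear_combination (S v b * S c b * S b a) * hrel
  unfold HT
  have e1 := im_mul_real (y := S a c * S c b * S b a) (Complex.pos_iff.mp p2).2.symm p2.ne'
  have e2 := im_mul_real (y := S a v * S v b * S b a) (Complex.pos_iff.mp p1).2.symm p1.ne'
  rw [Ne, Ne, ← e1, ← e2, e]

section

variable (h : SG V S) (ha : a ∈ V) (hb : b ∈ V) (hc : c ∈ V) (hd : d ∈ V) (hab : a ≠ b)
    (hac : a ≠ c) (had : a ≠ d) (hbc : b ≠ c) (hbd : b ≠ d) (hcd : c ≠ d) (hM : Mixed S a b c d)

include h ha hb hc hd hab hac had hbc hbd hcd hM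

theorem Mixed.par : par S a c b d := by
  obtain ⟨D, hD, hN⟩ := exists_NF h ha hb hc hd hab hac had hbc hbd hcd hM
  rw [← par_scl D hD]
  have h1 := hN.rel (h.scl D hD) ha hb hc hd hab hac had hbc hbd hcd
  exact ⟨h1.symm, by rw [hN.ad, hN.bc, hN.ac, hN.bd]; exact h1.symm⟩

theorem Mixed.HT_bcd : HT S b c d := by
  obtain ⟨D, hD, hN⟩ := exists_NF h ha hb hc hd hab hac had hbc hbd hcd hM
  rw [← HT_scl D hD]
  have h' := h.scl D hD
  set T := scl D S
  intro h0
  apply hN.cd_im
  have e : T b c * T c d * T d b = (T b c * T d b) * T c d := by ring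
  rw [e] at h0
  refine (im_mul_real ?_ ?_).mp h0
  · rw [hN.bd, Complex.mul_im, hN.bc_im, hN.bd_im]; ring
  · exact mul_ne_zero (h'.ne hb hc hbc) (h'.ne hd hb hbd.symm)

/-- elimination of an index of the nonreal pair keeps the triangle unbalanced -/
theorem Mixed.R_sch : RT (sch S d) a b c := by
  obtain ⟨D, hD, hN⟩ := exists_NF h ha hb hc hd hab hac had hbc hbd hcd hM
  rw [← RT_scl D hD, ← sch_scl D hD]
  have h' := h.scl D hD
  set T := scl D S
  have hY := h'.sch hd
  have ma : a ∈ V.erase d := mem_erase.mpr ⟨had, ha⟩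
  have mb : b ∈ V.erase d := mem_erase.mpr ⟨hbd, hb⟩
  have mc : c ∈ V.erase d := mem_erase.mpr ⟨hcd, hc⟩
  have hs : conj (T d d) = T d d := Complex.conj_eq_iff_im.mpr (h'.diag_im hd)
  have c1 : conj (T a d) = T a d := Complex.conj_eq_iff_im.mpr hN.ad_im
  have c2 : conj (T b d) = T b d := Complex.conj_eq_iff_im.mpr hN.bd_im
  have c3 : conj (T a b) = T a b := Complex.conj_eq_iff_im.mpr hN.ab_im
  have c4 : conj (T a c) = T a c := Complex.conj_eq_iff_im.mpr hN.ac_im
  have c5 : conj (T b c) = T b c := Complex.conj_eq_iff_im.mpr hN.bc_im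
  have yab : (sch T d a b).im = 0 := by
    apply Complex.conj_eq_iff_im.mp
    simp only [sch, map_sub, map_mul, map_div₀, hs, hN.bd, c1, c2, c3]
  have yca : sch T d c a = conj (sch T d a c) := by
    simp only [sch, map_sub, map_mul, map_div₀, hs, hN.ad, c1, c4, hN.ac, hN.cd, Complex.conj_conj]
    ring
  have ycb : sch T d c b = conj (sch T d b c) := by
    simp only [sch, map_sub, map_mul, map_div₀, hs, hN.bd, c2, c5, hN.bc, hN.cd, Complex.conj_conj]
    ring
  intro h0
  have e1 : sch T d a b * sch T d b c * sch T d c a = sch T d a b * (sch T d b c * sch T d c a) := by ring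
  have e2 : sch T d a c * sch T d c b * sch T d b a = sch T d b a * (sch T d c b * sch T d a c) := by ring
  rw [e1, e2] at h0
  have h2 : ‖sch T d a b‖ = ‖sch T d b a‖ := by
    refine norm_cancel (mul_ne_zero (hY.ne mb mc hbc) (hY.ne mc ma hac.symm)) ?_ h0
    rw [norm_mul, norm_mul, yca, ycb, Complex.norm_conj, Complex.norm_conj]
  have h3 := eq_of_norm yab (hY.prod ma mb hab) h2
  apply hN.ab
  simp only [sch, hN.ad, hN.bd] at h3
  have h4 : T b d * T a d / T d d = T a d * T b d / T d d := by ring
  rw [h4] at h3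
  exact (sub_left_inj.mp h3).symm

/-- elimination of an index of the unbalanced pair keeps the triangle nonreal -/
theorem Mixed.H_sch : HT (sch S a) b c d := by
  obtain ⟨D, hD, hN⟩ := exists_NF h ha hb hc hd hab hac had hbc hbd hcd hM
  rw [← HT_scl D hD, ← sch_scl D hD]
  have h' := h.scl D hD
  set T := scl D S
  have hY := h'.sch ha
  have mb : b ∈ V.erase a := mem_erase.mpr ⟨hab.symm, hb⟩
  have mc : c ∈ V.erase a := mem_erase.mpr ⟨hac.symm, hc⟩
  have md : d ∈ V.erase a := mem_erase.mpr ⟨had.symm, hd⟩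
  have hs : conj (T a a) = T a a := Complex.conj_eq_iff_im.mpr (h'.diag_im ha)
  have c1 : conj (T a d) = T a d := Complex.conj_eq_iff_im.mpr hN.ad_im
  have c2 : conj (T b d) = T b d := Complex.conj_eq_iff_im.mpr hN.bd_im
  have c3 : conj (T a b) = T a b := Complex.conj_eq_iff_im.mpr hN.ab_im
  have c3' : conj (T b a) = T b a := Complex.conj_eq_iff_im.mpr hN.ba_im
  have c4 : conj (T a c) = T a c := Complex.conj_eq_iff_im.mpr hN.ac_im
  have c5 : conj (T b c) = T b c := Complex.conj_eq_iff_im.mpr hN.bc_im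
  have ybc : (sch T a b c).im = 0 := by
    apply Complex.conj_eq_iff_im.mp
    simp only [sch, map_sub, map_mul, map_div₀, hs, c3', c4, c5]
  have ydb : (sch T a d b).im = 0 := by
    apply Complex.conj_eq_iff_im.mp
    simp only [sch, map_sub, map_mul, map_div₀, hs, hN.bd, hN.ad, c1, c2, c3]
  have ycd : (sch T a c d).im = (T c d).im := by
    have e : (T c a * T a d / T a a).im = 0 := by
      apply Complex.conj_eq_iff_im.mp
      simp only [map_mul, map_div₀, hs, hN.ac, c1, c4]
    simp only [sch, Complex.sub_im, e, sub_zero]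
  intro h0
  have e : sch T a b c * sch T a c d * sch T a d b = (sch T a b c * sch T a d b) * sch T a c d := by ring
  rw [e] at h0
  have h1 := (im_mul_real (by rw [Complex.mul_im, ybc, ydb]; ring)
    (mul_ne_zero (hY.ne mb mc hbc) (hY.ne md mb hbd.symm))).mp h0
  rw [ycd] at h1
  exact hN.cd_im h1

end

/-- the two dichotomies that follow from the rank one relation in the Schur complement -/
theorem row_dich (hv0 : S v v ≠ 0) (h1 : S a d * S b c = S a c * S b d)
    (h2 : sch S v a d * sch S v b c = sch S v a c * sch S v b d) :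
    S a c * S v d = S a d * S v c ∨ S a c * S b v = S a v * S b c := by
  have key : (S a c * S v d - S a d * S v c) * (S a c * S b v - S a v * S b c) = 0 := by
    simp only [sch] at h2
    field_simp at h2
    have h3 : S v v * ((S a c * S v d - S a d * S v c) * (S a c * S b v - S a v * S b c)) = 0 := by
      linear_combination (S a c) * h2 + (S v v * S a v * S v c - S v v * S v v * S a c) * h1
    exact (mul_eq_zero.mp h3).resolve_left hv0
  rcases mul_eq_zero.mp key with h | h
  · exact Or.inl (sub_eq_zero.mp h)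
  · exact Or.inr (sub_eq_zero.mp h)

end Pool.Agent.Helper69.GKK
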