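import Mathlib
import Pool.Agent.Helper69.GKK.Mixed2

/-!
A mixed quadruple `a b | c d` and a fifth index `v`: row and column `v` are proportional to row and
column `a` on `c d`, or column and row `v` are proportional to column and row `c` on `a b`.
-/

namespace Pool.Agent.Helper69.GKK

open Matrix Finset Filter Topology
open scoped ComplexOrder ComplexConjugate

set_option linter.unusedSectionVars false

variable {ι : Type*} [DecidableEq ι] {V : Finset ι} {S : ι → ι → ℂ} {a b c d v : ι}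

theorem row_scl (D : ι → ℂ) (hD : ∀ i, D i ≠ 0) (S : ι → ι → ℂ) (a c x k : ι) :
    scl D S a k * scl D S x c = scl D S a c * scl D S x k ↔ S a k * S x c = S a c * S x k := by
  have ha := hD a
  have hc := hD c
  have hx := hD x
  have hk := hD k
  have e1 : scl D S a k * scl D S x c = ((D a)⁻¹ * (D x)⁻¹ * D k * D c) * (S a k * S x c) := by
    simp only [scl]; ring
  have e2 : scl D S a c * scl D S x k = ((D a)⁻¹ * (D x)⁻¹ * D k * D c) * (S a c * S x k) := by
    simp only [scl]; ring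
  rw [e1, e2]
  have n1 : ((D a)⁻¹ * (D x)⁻¹ * D k * D c) ≠ 0 := by
    refine mul_ne_zero (mul_ne_zero (mul_ne_zero (inv_ne_zero ha) (inv_ne_zero hx)) hk) hc
  exact ⟨fun h => mul_left_cancel₀ n1 h, fun h => by rw [h]⟩

theorem par_trans (hbc : S b c ≠ 0) (hcb : S c b ≠ 0)
    (h1 : par S a c b d) (h2 : par S b c v d) : par S a c v d := by
  obtain ⟨h1, h1'⟩ := h1
  obtain ⟨h2, h2'⟩ := h2
  constructor
  · apply mul_left_cancel₀ hbc
    linear_combination (S v c) * h1 + (S a c) * h2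
  · apply mul_left_cancel₀ hcb
    linear_combination (S c v) * h1' + (S c a) * h2'

theorem par_change (had : S a d ≠ 0) (hda : S d a ≠ 0)
    (h1 : par S a c b d) (h2 : par S a d b v) : par S a c b v := by
  obtain ⟨h1, h1'⟩ := h1
  obtain ⟨h2, h2'⟩ := h2
  constructor
  · apply mul_left_cancel₀ had
    linear_combination (S a v) * h1 + (S a c) * h2
  · apply mul_left_cancel₀ hda
    linear_combination (S v a) * h1' + (S c a) * h2'

section

variable (h : SG V S) (ha : a ∈ V) (hb : b ∈ V) (hc : c ∈ V) (hd : d ∈ V) (hv : v ∈ V) (hab : a ≠ b)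
    (hac : a ≠ c) (had : a ≠ d) (hbc : b ≠ c) (hbd : b ≠ d) (hcd : c ≠ d)
    (hva : v ≠ a) (hvb : v ≠ b) (hvc : v ≠ c) (hvd : v ≠ d) (hM : Mixed S a b c d)

include h ha hb hc hd hv hab hac had hbc hbd hcd hva hvb hvc hvd hM

/-- a neutral index -/
theorem neutral (h1 : ¬ RT S v a c) (h2 : ¬ HT S v a c) (h3 : ¬ RT S v a d) (h4 : ¬ HT S v a d)
    (h5 : ¬ RT S v b c) (h6 : ¬ HT S v b c) : Mixed (sch S v) a b c d ∧
      (S a d * S v c = S a c * S v d ↔ S d a * S c v = S c a * S d v) ∧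
      (par S a c v d ∨ par S a c b v) := by
  obtain ⟨D, hD, hN⟩ := exists_NF h ha hb hc hd hab hac had hbc hbd hcd hM
  obtain ⟨δ, hδ, r, hr, e1, e2⟩ := exists_sym ((h.scl D hD).prod ha hv hva.symm)
  let E : ι → ℂ := fun i => if i = v then D v * δ else D i
  have hE : ∀ i, E i ≠ 0 := by
    intro i; simp only [E]; split_ifs
    · exact mul_ne_zero (hD v) hδ
    · exact hD i
  have hEi : ∀ i, i ≠ v → E i = D i := fun i hi => by simp only [E, if_neg hi]
  have hEv : E v = D v * δ := by simp only [E, if_true]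
  have hsame : ∀ i j, i ≠ v → j ≠ v → scl E S i j = scl D S i j := by
    intro i j hi hj; simp only [scl, hEi i hi, hEi j hj]
  have h' := h.scl E hE
  have hM' := (Mixed_scl E hE S a b c d).mpr hM
  have g1 := (not_congr (RT_scl E hE S v a c)).mpr h1
  have g2 := (not_congr (HT_scl E hE S v a c)).mpr h2
  have g3 := (not_congr (RT_scl E hE S v a d)).mpr h3
  have g4 := (not_congr (HT_scl E hE S v a d)).mpr h4
  have g5 := (not_congr (RT_scl E hE S v b c)).mpr h5
  have g6 := (not_congr (HT_scl E hE S v b c)).mpr h6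
  have Tav : scl E S a v = r := by
    have : scl E S a v = scl D S a v * δ := by
      simp only [scl, hEi a hva.symm, hEv]; ring
    rw [this, e1]
  have Tva : scl E S v a = r := by
    have : scl E S v a = δ⁻¹ * scl D S v a := by
      simp only [scl, hEi a hva.symm, hEv, mul_inv]; ring
    rw [this, e2]
  have hN' : NF (scl E S) a b c d := by
    have sa := hva.symm
    have sb := hvb.symm
    have sc := hvc.symm
    have sd := hvd.symm
    exact
    { ac := by rw [hsame c a sc sa, hsame a c sa sc]; exact hN.ac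
      ac_im := by rw [hsame a c sa sc]; exact hN.ac_im
      ad := by rw [hsame d a sd sa, hsame a d sa sd]; exact hN.ad
      ad_im := by rw [hsame a d sa sd]; exact hN.ad_im
      bc := by rw [hsame c b sc sb, hsame b c sb sc]; exact hN.bc
      bc_im := by rw [hsame b c sb sc]; exact hN.bc_im
      bd := by rw [hsame d b sd sb, hsame b d sb sd]; exact hN.bd
      bd_im := by rw [hsame b d sb sd]; exact hN.bd_im
      ab_im := by rw [hsame a b sa sb]; exact hN.ab_im
      ba_im := by rw [hsame b a sb sa]; exact hN.ba_im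
      ab := by rw [hsame a b sa sb, hsame b a sb sa]; exact hN.ab
      cd := by rw [hsame d c sd sc, hsame c d sc sd]; exact hN.cd
      cd_im := by rw [hsame c d sc sd]; exact hN.cd_im }
  rw [← Mixed_scl E hE, ← sch_scl E hE, ← par_scl E hE S a c v d, ← par_scl E hE S a c b v,
    ← row_scl E hE S a c v d]
  have hcol : scl E S d a * scl E S c v = scl E S c a * scl E S d v ↔ S d a * S c v = S c a * S d v := by
    have e3 : scl E S d a * scl E S c v = ((E d)⁻¹ * (E c)⁻¹ * E a * E v) * (S d a * S c v) := by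
      simp only [scl]; ring
    have e4 : scl E S c a * scl E S d v = ((E d)⁻¹ * (E c)⁻¹ * E a * E v) * (S c a * S d v) := by
      simp only [scl]; ring
    rw [e3, e4]
    have n1 : ((E d)⁻¹ * (E c)⁻¹ * E a * E v) ≠ 0 := by
      refine mul_ne_zero (mul_ne_zero (mul_ne_zero (inv_ne_zero (hE d)) (inv_ne_zero (hE c))) (hE a)) (hE v)
    exact ⟨fun h => mul_left_cancel₀ n1 h, fun h => by rw [h]⟩
  rw [← hcol]
  clear hcol
  set T := scl E S with hT
  have cr : (r : ℂ) ≠ 0 := by exact_mod_cast hr.ne'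
  have hav : T v a = T a v := by rw [Tva, Tav]
  have av_im : (T a v).im = 0 := by rw [Tav]; exact Complex.ofReal_im _
  -- from `a` to `x`
  have step : ∀ p x, p ∈ V → x ∈ V → p ≠ v → x ≠ v → p ≠ x → T v p = T p v → (T p v).im = 0 →
      T x p = T p x → (T p x).im = 0 → ¬ RT T v p x → ¬ HT T v p x → T v x = T x v ∧ (T x v).im = 0 := by
    intro p x hp hx hpv hxv hpx k1 k2 k3 k4 k5 k6
    unfold RT at k5
    unfold HT at k6
    push Not at k5 k6
    have im1 : (T x v).im = 0 := by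
      refine (im_mul_real (x := T v p * T p x) ?_ ?_).mp k6
      · rw [k1, Complex.mul_im, k2, k4]; ring
      · exact mul_ne_zero (h'.ne hv hp hpv.symm) (h'.ne hp hx hpx)
    have hn : ‖T x v‖ = ‖T v x‖ := by
      have e1 : T v p * T p x * T x v = T x v * (T v p * T p x) := by ring
      have e2 : T v x * T x p * T p v = T v x * (T v p * T p x) := by rw [k3, k1]; ring
      rw [e1, e2] at k5
      exact norm_cancel (mul_ne_zero (h'.ne hv hp hpv.symm) (h'.ne hp hx hpx)) rfl k5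
    exact ⟨eq_of_norm im1 (h'.prod hx hv hxv) hn, im1⟩
  obtain ⟨hcv, cv_im⟩ := step a c ha hc hva.symm hvc.symm hac hav av_im hN'.ac hN'.ac_im g1 g2
  obtain ⟨hdv, dv_im⟩ := step a d ha hd hva.symm hvd.symm had hav av_im hN'.ad hN'.ad_im g3 g4
  have g5' : ¬ RT T v c b := fun hh => g5 hh.swap
  have g6' : ¬ HT T v c b := fun hh => g6 (h'.HT_swap hv hc hb hvc hvb hbc.symm hh)
  have cv_im' : (T c v).im = 0 := cv_im
  obtain ⟨hbv, bv_im⟩ := step c b hc hb hvc.symm hvb.symm hbc.symm hcv cv_im hN'.bc.symm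
    (by rw [hN'.bc]; exact hN'.bc_im) g5' g6'
  -- the Schur complement
  have hY := h'.sch hv
  have ma : a ∈ V.erase v := mem_erase.mpr ⟨hva.symm, ha⟩
  have mb : b ∈ V.erase v := mem_erase.mpr ⟨hvb.symm, hb⟩
  have mc : c ∈ V.erase v := mem_erase.mpr ⟨hvc.symm, hc⟩
  have md : d ∈ V.erase v := mem_erase.mpr ⟨hvd.symm, hd⟩
  have hs : conj (T v v) = T v v := Complex.conj_eq_iff_im.mpr (h'.diag_im hv)
  have c1 : conj (T a v) = T a v := Complex.conj_eq_iff_im.mpr av_im
  have c2 : conj (T b v) = T b v := Complex.conj_eq_iff_im.mpr bv_im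
  have c3 : conj (T c v) = T c v := Complex.conj_eq_iff_im.mpr cv_im
  have c4 : conj (T d v) = T d v := Complex.conj_eq_iff_im.mpr dv_im
  have ysym : ∀ x y, T v x = T x v → T v y = T y v → T y x = T x y → sch T v y x = sch T v x y := by
    intro x y k1 k2 k3
    simp only [sch, k1, k2, k3]; ring
  have yim : ∀ x y, conj (T x v) = T x v → conj (T y v) = T y v → T v y = T y v →
      (sch T v x y).im = (T x y).im := by
    intro x y k1 k2 k3
    have e : (T x v * T v y / T v v).im = 0 := by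
      apply Complex.conj_eq_iff_im.mp
      simp only [map_mul, map_div₀, hs, k3, k1, k2]
    simp only [sch, Complex.sub_im, e, sub_zero]
  have yac : sch T v c a = sch T v a c := ysym a c hav hcv hN'.ac
  have yad : sch T v d a = sch T v a d := ysym a d hav hdv hN'.ad
  have ybc : sch T v c b = sch T v b c := ysym b c hbv hcv hN'.bc
  have ybd : sch T v d b = sch T v b d := ysym b d hbv hdv hN'.bd
  have yR : ∀ x, x ∈ V.erase v → a ≠ x → b ≠ x → sch T v x a = sch T v a x → sch T v x b = sch T v b x →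
      RT (sch T v) a b x := by
    intro x mx hax hbx k1 k2 h0
    have e1 : sch T v a b * sch T v b x * sch T v x a = sch T v a b * (sch T v b x * sch T v x a) := by ring
    have e2 : sch T v a x * sch T v x b * sch T v b a = sch T v b a * (sch T v b x * sch T v x a) := by
      rw [k1, k2]; ring
    rw [e1, e2] at h0
    have h2 : ‖sch T v a b‖ = ‖sch T v b a‖ :=
      norm_cancel (mul_ne_zero (hY.ne mb mx hbx) (hY.ne mx ma hax.symm)) rfl h0
    have yab : (sch T v a b).im = 0 := by rw [yim a b c1 c2 hbv]; exact hN'.ab_im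
    have h3 := eq_of_norm yab (hY.prod ma mb hab) h2
    apply hN'.ab
    simp only [sch, hav, hbv] at h3
    have h4 : T b v * T a v / T v v = T a v * T b v / T v v := by ring
    rw [h4] at h3
    exact (sub_left_inj.mp h3).symm
  have hMix : Mixed (sch T v) a b c d := by
    refine ⟨yR c mc hac hbc yac ybc, yR d md had hbd yad ybd, ?_⟩
    intro h0
    apply hN'.cd_im
    have e : sch T v a c * sch T v c d * sch T v d a = (sch T v a c * sch T v d a) * sch T v c d := by ring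
    rw [e] at h0
    have h1 := (im_mul_real (by
      rw [yad, Complex.mul_im, yim a c c1 c3 hcv, yim a d c1 c4 hdv, hN'.ac_im, hN'.ad_im]; ring)
      (mul_ne_zero (hY.ne ma mc hac) (hY.ne md ma had.symm))).mp h0
    rwa [yim c d c3 c4 hdv] at h1
  refine ⟨hMix, ?_, ?_⟩
  · rw [hN'.ad, hN'.ac, hcv, hdv]
  · have hpar := Mixed.par hY ma mb mc md hab hac had hbc hbd hcd hMix
    have hpar0 := Mixed.par h' ha hb hc hd hab hac had hbc hbd hcd hM'
    rcases row_dich (h'.diag_ne hv) hpar0.1 hpar.1 with hr | hr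
    · left
      refine ⟨hr.symm, ?_⟩
      rw [hN'.ad, hN'.ac, ← hcv, ← hdv]; exact hr.symm
    · right
      refine ⟨hr.symm, ?_⟩
      rw [hN'.ac, hN'.bc, hav, hbv]; exact hr.symm

/-- the pentagon pattern is impossible -/
theorem pentagon (r1 : RT S v a c) (r2 : RT S v b d) (r3 : RT S v c d) (k1 : HT S v a d)
    (k2 : HT S v b c) (k3 : HT S v a b) : False := by
  obtain ⟨hR1, hR2, hH⟩ := hM
  have hY := h.sch hv
  have ma : a ∈ V.erase v := mem_erase.mpr ⟨hva.symm, ha⟩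
  have mb : b ∈ V.erase v := mem_erase.mpr ⟨hvb.symm, hb⟩
  have mc : c ∈ V.erase v := mem_erase.mpr ⟨hvc.symm, hc⟩
  have md : d ∈ V.erase v := mem_erase.mpr ⟨hvd.symm, hd⟩
  have M1 : Mixed S a c b v := ⟨hR1.swap, r1.rot, k3.rot⟩
  have q1 : RT (sch S v) a b c :=
    (Mixed.R_sch h ha hc hb hv hac hab hva.symm hbc.symm hvc.symm hvb.symm M1).swap
  have M2 : Mixed S b d a v := ⟨hR2.rot, r2.rot, (h.HT_swap hv ha hb hva hvb hab k3).rot⟩
  have q2 : RT (sch S v) a b d :=
    (Mixed.R_sch h hb hd ha hv hbd hab.symm hvb.symm had.symm hvd.symm hva.symm M2).rot.rot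
  have M3 : Mixed S v c a d := ⟨r1.swap, r3, k1⟩
  have q3 : HT (sch S v) a c d := by
    have h1 := Mixed.H_sch h hv hc ha hd hvc hva hvd hac.symm hcd had M3
    exact hY.HT_swap ma md mc had hac hcd.symm h1.rot
  have hMix : Mixed (sch S v) a b c d := ⟨q1, q2, q3⟩
  have hpar := Mixed.par hY ma mb mc md hab hac had hbc hbd hcd hMix
  have hpar0 := Mixed.par h ha hb hc hd hab hac had hbc hbd hcd ⟨hR1, hR2, hH⟩
  rcases row_dich (h.diag_ne hv) hpar0.1 hpar.1 with hr | hr
  · have h1 := (h.rel_HT (a := a) hv hc hd hvc hvd hr).mpr k1.rot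
    exact h.not_both hv ha hc hva hvc hac ⟨r1, h1.rot.rot⟩
  · have h1 := (h.rel_HT (a := a) hb hc hv hbc hvb.symm hr).mpr
      (h.HT_swap ha hb hv hab hva.symm hvb.symm k3.rot)
    exact h.not_both ha hc hb hac hab hbc.symm ⟨hR1.swap, h1⟩

end

theorem comb {Rab Rac Rad Rbc Rbd Rcd Hab Hac Had Hbc Hbd Hcd : Prop}
    (dab : ¬ (Rab ∧ Hab)) (dac : ¬ (Rac ∧ Hac)) (dad : ¬ (Rad ∧ Had)) (dbc : ¬ (Rbc ∧ Hbc))
    (dbd : ¬ (Rbd ∧ Hbd)) (dcd : ¬ (Rcd ∧ Hcd))
    (f1 : Rab ∨ Rbc ∨ Rac) (f2 : Hac ∨ Hcd ∨ Had) (f3 : Hbc ∨ Hcd ∨ Hbd)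
    (g1 : Hac → Hbc ∨ Hab) (g2 : Hbc → Hac ∨ Hab) (g3 : Had → Hbd ∨ Hab)
    (g5 : Rac → Rad ∨ Rcd) (g6 : Rad → Rac ∨ Rcd) (g7 : Rcd → Rac ∨ Rad)
    (g8 : Rbc → Rbd ∨ Rcd) (g9 : Rbd → Rbc ∨ Rcd) (g10 : Rcd → Rbc ∨ Rbd)
    (n1 : ¬ (Rac ∧ Rad)) (n3 : ¬ (Rbc ∧ Rbd)) (m2 : ¬ (Hac ∧ Hbc)) (m4 : ¬ (Had ∧ Hbd)) :
    (¬ Rac ∧ ¬ Hac ∧ ¬ Rad ∧ ¬ Had ∧ ¬ Rbc ∧ ¬ Hbc) ∨ (Rac ∧ Rbd ∧ Rcd ∧ Had ∧ Hbc ∧ Hab) ∨
      (Rad ∧ Rbc ∧ Rcd ∧ Hac ∧ Hbd ∧ Hab) := by
  by_cases hRcd : Rcd
  · have hHcd : ¬ Hcd := fun hh => dcd ⟨hRcd, hh⟩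
    right
    rcases g7 hRcd with hR | hR
    · left
      have h1 : ¬ Hac := fun hh => dac ⟨hR, hh⟩
      have h2 : Had := f2.elim (fun hh => absurd hh h1) (fun hh => hh.elim (fun k => absurd k hHcd) id)
      have h3 : ¬ Hbd := fun hh => m4 ⟨h2, hh⟩
      have h4 : Hbc := f3.elim id (fun hh => hh.elim (fun k => absurd k hHcd) (fun k => absurd k h3))
      have h5 : ¬ Rbc := fun hh => dbc ⟨hh, h4⟩
      have h6 : Rbd := (g10 hRcd).elim (fun hh => absurd hh h5) id
      have h7 : Hab := (g2 h4).elim (fun hh => absurd hh h1) id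
      exact ⟨hR, h6, hRcd, h2, h4, h7⟩
    · right
      have h1 : ¬ Had := fun hh => dad ⟨hR, hh⟩
      have h2 : Hac := f2.elim id (fun hh => hh.elim (fun k => absurd k hHcd) (fun k => absurd k h1))
      have h3 : ¬ Hbc := fun hh => m2 ⟨h2, hh⟩
      have h4 : Hbd := f3.elim (fun hh => absurd hh h3) (fun hh => hh.elim (fun k => absurd k hHcd) id)
      have h5 : ¬ Rbd := fun hh => dbd ⟨hh, h4⟩
      have h6 : Rbc := (g10 hRcd).elim id (fun hh => absurd hh h5)
      have h7 : Hab := (g1 h2).elim (fun hh => absurd hh h3) id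
      exact ⟨hR, h6, hRcd, h2, h4, h7⟩
  · left
    have h1 : ¬ Rac := fun hh => (g5 hh).elim (fun k => n1 ⟨hh, k⟩) hRcd
    have h2 : ¬ Rad := fun hh => (g6 hh).elim (fun k => n1 ⟨k, hh⟩) hRcd
    have h3 : ¬ Rbc := fun hh => (g8 hh).elim (fun k => n3 ⟨hh, k⟩) hRcd
    have h4 : Rab := f1.elim id (fun hh => hh.elim (fun k => absurd k h3) (fun k => absurd k h1))
    have h5 : ¬ Hab := fun hh => dab ⟨h4, hh⟩
    have h6 : ¬ Hac := fun hh => (g1 hh).elim (fun k => m2 ⟨hh, k⟩) h5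
    have h7 : ¬ Hbc := fun hh => (g2 hh).elim h6 h5
    have h8 : ¬ Had := fun hh => (g3 hh).elim (fun k => m4 ⟨hh, k⟩) h5
    exact ⟨h1, h6, h2, h8, h3, h7⟩

theorem comb2 {Rab Rac Rad Rbc Rbd Rcd Hab Hac Had Hbc Hcd : Prop}
    (dab : ¬ (Rab ∧ Hab)) (dcd : ¬ (Rcd ∧ Hcd))
    (f1 : Rab ∨ Rbc ∨ Rac) (f2 : Hac ∨ Hcd ∨ Had)
    (g2 : Hbc → Hac ∨ Hab)
    (g5 : Rac → Rad ∨ Rcd) (g6 : Rad → Rac ∨ Rcd)
    (g8 : Rbc → Rbd ∨ Rcd)
    (n1 : ¬ (Rac ∧ Rad)) (n3 : ¬ (Rbc ∧ Rbd)) (hac : ¬ Hac) (had : ¬ Had) :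
    ¬ Rac ∧ ¬ Hac ∧ ¬ Rad ∧ ¬ Had ∧ ¬ Rbc ∧ ¬ Hbc := by
  have h0 : Hcd := f2.elim (fun hh => absurd hh hac) (fun hh => hh.elim id (fun k => absurd k had))
  have hRcd : ¬ Rcd := fun hh => dcd ⟨hh, h0⟩
  have h1 : ¬ Rac := fun hh => (g5 hh).elim (fun k => n1 ⟨hh, k⟩) hRcd
  have h2 : ¬ Rad := fun hh => (g6 hh).elim (fun k => n1 ⟨k, hh⟩) hRcd
  have h3 : ¬ Rbc := fun hh => (g8 hh).elim (fun k => n3 ⟨hh, k⟩) hRcd
  have h4 : Rab := f1.elim id (fun hh => hh.elim (fun k => absurd k h3) (fun k => absurd k h1))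
  have h5 : ¬ Hab := fun hh => dab ⟨h4, hh⟩
  have h7 : ¬ Hbc := fun hh => (g2 hh).elim hac h5
  exact ⟨h1, hac, h2, had, h3, h7⟩

section

variable (h : SG V S) (ha : a ∈ V) (hb : b ∈ V) (hc : c ∈ V) (hd : d ∈ V) (hv : v ∈ V) (hab : a ≠ b)
    (hac : a ≠ c) (had : a ≠ d) (hbc : b ≠ c) (hbd : b ≠ d) (hcd : c ≠ d)
    (hva : v ≠ a) (hvb : v ≠ b) (hvc : v ≠ c) (hvd : v ≠ d) (hM : Mixed S a b c d)

include h ha hb hc hd hv hab hac had hbc hbd hcd hva hvb hvc hvd hM

theorem not_n1 (hα : ¬ par S a c v d) : ¬ (RT S v a c ∧ RT S v a d) := by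
  rintro ⟨h1, h2⟩
  have hM1 : Mixed S a v c d := ⟨h1.swap.rot.rot, h2.swap.rot.rot, hM.2.2⟩
  exact hα (Mixed.par h ha hv hc hd hva.symm hac had hvc hvd hcd hM1)

theorem not_n3 (hα : ¬ par S a c v d) : ¬ (RT S v b c ∧ RT S v b d) := by
  rintro ⟨h1, h2⟩
  have hH := Mixed.HT_bcd h ha hb hc hd hab hac had hbc hbd hcd hM
  have hM1 : Mixed S b v c d := ⟨h1.swap.rot.rot, h2.swap.rot.rot, hH⟩
  have hp := Mixed.par h hb hv hc hd hvb.symm hbc hbd hvc hvd hcd hM1
  exact hα (par_trans (h.ne hb hc hbc) (h.ne hc hb hbc.symm)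
    (Mixed.par h ha hb hc hd hab hac had hbc hbd hcd hM) hp)

theorem not_m2 (hβ : ¬ par S a c b v) : ¬ (HT S v a c ∧ HT S v b c) := by
  rintro ⟨h1, h2⟩
  have hR : RT S v a b := by
    rcases h.RT_four hv ha hb hc hva hvb hvc hM.1 with hh | hh | hh
    · exact hh
    · exact absurd ⟨hh, h2⟩ (h.not_both hv hb hc hvb hvc hbc)
    · exact absurd ⟨hh.swap, h1⟩ (h.not_both hv ha hc hva hvc hac)
  have hM1 : Mixed S a b c v := ⟨hM.1, hR.rot, h1.rot⟩
  exact hβ (Mixed.par h ha hb hc hv hab hac hva.symm hbc hvb.symm hvc.symm hM1)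

theorem not_m4 (hβ : ¬ par S a c b v) : ¬ (HT S v a d ∧ HT S v b d) := by
  rintro ⟨h1, h2⟩
  have hR : RT S v a b := by
    rcases h.RT_four hv ha hb hd hva hvb hvd hM.2.1 with hh | hh | hh
    · exact hh
    · exact absurd ⟨hh, h2⟩ (h.not_both hv hb hd hvb hvd hbd)
    · exact absurd ⟨hh.swap, h1⟩ (h.not_both hv ha hd hva hvd had)
  have hM1 : Mixed S a b d v := ⟨hM.2.1, hR.rot, h1.rot⟩
  have hp := Mixed.par h ha hb hd hv hab had hva.symm hbd hvb.symm hvd.symm hM1
  exact hβ (par_change (h.ne ha hd had) (h.ne hd ha had.symm)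
    (Mixed.par h ha hb hc hd hab hac had hbc hbd hcd hM) hp)

theorem dichotomy : par S a c v d ∨ par S a c b v := by
  by_contra hno
  push Not at hno
  obtain ⟨hα, hβ⟩ := hno
  have n1 := not_n1 h ha hb hc hd hv hab hac had hbc hbd hcd hva hvb hvc hvd hM hα
  have n3 := not_n3 h ha hb hc hd hv hab hac had hbc hbd hcd hva hvb hvc hvd hM hα
  have m2 := not_m2 h ha hb hc hd hv hab hac had hbc hbd hcd hva hvb hvc hvd hM hβ
  have m4 := not_m4 h ha hb hc hd hv hab hac had hbc hbd hcd hva hvb hvc hvd hM hβ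
  have hHb := Mixed.HT_bcd h ha hb hc hd hab hac had hbc hbd hcd hM
  have nabc : ¬ HT S a b c := fun hh => h.not_both ha hb hc hab hac hbc ⟨hM.1, hh⟩
  have nabd : ¬ HT S a b d := fun hh => h.not_both ha hb hd hab had hbd ⟨hM.2.1, hh⟩
  have racd : ¬ RT S a c d := fun hh => h.not_both ha hc hd hac had hcd ⟨hh, hM.2.2⟩
  have rbcd : ¬ RT S b c d := fun hh => h.not_both hb hc hd hbc hbd hcd ⟨hh, hHb⟩
  have sw : ∀ {x y}, x ∈ V → y ∈ V → v ≠ x → v ≠ y → x ≠ y → HT S v x y → HT S v y x :=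
    fun hx hy h1 h2 h3 hh => h.HT_swap hv hx hy h1 h2 h3 hh
  have key := comb (Rab := RT S v a b) (Rac := RT S v a c) (Rad := RT S v a d) (Rbc := RT S v b c)
    (Rbd := RT S v b d) (Rcd := RT S v c d) (Hab := HT S v a b) (Hac := HT S v a c) (Had := HT S v a d)
    (Hbc := HT S v b c) (Hbd := HT S v b d) (Hcd := HT S v c d)
    (h.not_both hv ha hb hva hvb hab) (h.not_both hv ha hc hva hvc hac) (h.not_both hv ha hd hva hvd had)
    (h.not_both hv hb hc hvb hvc hbc) (h.not_both hv hb hd hvb hvd hbd) (h.not_both hv hc hd hvc hvd hcd)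
    (by
      rcases h.RT_four hv ha hb hc hva hvb hvc hM.1 with hh | hh | hh
      · exact Or.inl hh
      · exact Or.inr (Or.inl hh)
      · exact Or.inr (Or.inr hh.swap))
    (by
      rcases h.HT_four hv ha hc hd hva hvc hvd hM.2.2 with hh | hh | hh
      · exact Or.inl hh
      · exact Or.inr (Or.inl hh)
      · exact Or.inr (Or.inr (sw hd ha hvd hva had.symm hh)))
    (by
      rcases h.HT_four hv hb hc hd hvb hvc hvd hHb with hh | hh | hh
      · exact Or.inl hh
      · exact Or.inr (Or.inl hh)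
      · exact Or.inr (Or.inr (sw hd hb hvd hvb hbd.symm hh)))
    (by
      intro hh
      rcases h.HT_four hb hv ha hc hvb.symm hab.symm hbc hh with k | k | k
      · exact Or.inr k.rot
      · exact absurd (h.HT_swap ha hc hb hac hab hbc.symm k.rot) nabc
      · exact Or.inl k.rot.rot)
    (by
      intro hh
      rcases h.HT_four ha hv hb hc hva.symm hab hac hh with k | k | k
      · exact Or.inr (h.HT_swap hv hb ha hvb hva hab.symm k.rot)
      · exact absurd k nabc
      · exact Or.inl k.rot.rot)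
    (by
      intro hh
      rcases h.HT_four hb hv ha hd hvb.symm hab.symm hbd hh with k | k | k
      · exact Or.inr k.rot
      · exact absurd (h.HT_swap ha hd hb had hab hbd.symm k.rot) nabd
      · exact Or.inl k.rot.rot)
    (by
      intro hh
      rcases h.RT_four hd hv ha hc hvd.symm had.symm hcd.symm hh with k | k | k
      · exact Or.inl k.rot
      · exact absurd k.rot racd
      · exact Or.inr k.rot.rot.swap)
    (by
      intro hh
      rcases h.RT_four hc hv ha hd hvc.symm hac.symm hcd hh with k | k | k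
      · exact Or.inl k.rot
      · exact absurd (k.rot.swap) racd
      · exact Or.inr k.rot.rot)
    (by
      intro hh
      rcases h.RT_four ha hv hc hd hva.symm hac had hh with k | k | k
      · exact Or.inl k.rot.swap
      · exact absurd k racd
      · exact Or.inr k.rot.rot)
    (by
      intro hh
      rcases h.RT_four hd hv hb hc hvd.symm hbd.symm hcd.symm hh with k | k | k
      · exact Or.inl k.rot
      · exact absurd k.rot rbcd
      · exact Or.inr k.rot.rot.swap)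
    (by
      intro hh
      rcases h.RT_four hc hv hb hd hvc.symm hbc.symm hcd hh with k | k | k
      · exact Or.inl k.rot
      · exact absurd (k.rot.swap) rbcd
      · exact Or.inr k.rot.rot)
    (by
      intro hh
      rcases h.RT_four hb hv hc hd hvb.symm hbc hbd hh with k | k | k
      · exact Or.inl k.rot.swap
      · exact absurd k rbcd
      · exact Or.inr k.rot.rot)
    n1 n3 m2 m4
  rcases key with ⟨k1, k2, k3, k4, k5, k6⟩ | ⟨k1, k2, k3, k4, k5, k6⟩ | ⟨k1, k2, k3, k4, k5, k6⟩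
  · rcases (neutral h ha hb hc hd hv hab hac had hbc hbd hcd hva hvb hvc hvd hM k1 k2 k3 k4 k5 k6).2.2
      with hh | hh
    · exact hα hh
    · exact hβ hh
  · exact pentagon h ha hb hc hd hv hab hac had hbc hbd hcd hva hvb hvc hvd hM k1 k2 k3 k4 k5 k6
  · have hM' : Mixed S a b d c := ⟨hM.2.1, hM.1, h.HT_swap ha hc hd hac had hcd hM.2.2⟩
    exact pentagon h ha hb hd hc hv hab had hac hbd hbc hcd.symm hva hvb hvd hvc hM' k1 k2 k3.swap k4 k5 k6

end

end Pool.Agent.Helper69.GKK
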