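import Mathlib
import Pool.Agent.Helper69.GKK.Dich

/-!
From a mixed quadruple to a rank one cut of the whole matrix.
-/

namespace Pool.Agent.Helper69.GKK

open Matrix Finset Filter Topology
open scoped ComplexOrder ComplexConjugate

set_option linter.unusedSectionVars false

variable {ι : Type*} [DecidableEq ι] {V : Finset ι} {S : ι → ι → ℂ} {a b c d v x k : ι}

theorem col_dich (hv0 : S v v ≠ 0) (h1 : S d a * S c b = S c a * S d b)
    (h2 : sch S v d a * sch S v c b = sch S v c a * sch S v d b) :
    S c a * S d v = S d a * S c v ∨ S c a * S v b = S v a * S c b := by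
  have key : (S c a * S d v - S d a * S c v) * (S c a * S v b - S v a * S c b) = 0 := by
    simp only [sch] at h2
    field_simp at h2
    have h3 : S v v * ((S c a * S d v - S d a * S c v) * (S c a * S v b - S v a * S c b)) = 0 := by
      linear_combination (S c a) * h2 + (S v v * S v a * S c v - S v v * S v v * S c a) * h1
    exact (mul_eq_zero.mp h3).resolve_left hv0
  rcases mul_eq_zero.mp key with h | h
  · exact Or.inl (sub_eq_zero.mp h)
  · exact Or.inr (sub_eq_zero.mp h)

theorem row_keep (hv0 : S v v ≠ 0) (hs : sch S v a c ≠ 0) (h1 : S a v * S x c = S a c * S x v)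
    (h2 : sch S v a k * sch S v x c = sch S v a c * sch S v x k) : S a k * S x c = S a c * S x k := by
  have key : sch S v a c * (S a k * S x c - S a c * S x k) = 0 := by
    simp only [sch] at h2 ⊢
    field_simp at h2 ⊢
    have h3 : S v v * ((S v v * S a c - S a v * S v c) * (S a k * S x c - S a c * S x k)) = 0 := by
      linear_combination (S a c) * h2 + (S v v * S v k * S a c - S v v * S a k * S v c) * h1
    have h4 := (mul_eq_zero.mp h3).resolve_left hv0
    linear_combination h4
  exact sub_eq_zero.mp ((mul_eq_zero.mp key).resolve_left hs)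

theorem col_keep (hv0 : S v v ≠ 0) (hs : sch S v c a ≠ 0) (h1 : S v a * S c x = S c a * S v x)
    (h2 : sch S v k a * sch S v c x = sch S v c a * sch S v k x) : S k a * S c x = S c a * S k x := by
  have key : sch S v c a * (S k a * S c x - S c a * S k x) = 0 := by
    simp only [sch] at h2 ⊢
    field_simp at h2 ⊢
    have h3 : S v v * ((S v v * S c a - S c v * S v a) * (S k a * S c x - S c a * S k x)) = 0 := by
      linear_combination (S c a) * h2 + (S v v * S k v * S c a - S v v * S k a * S c v) * h1
    have h4 := (mul_eq_zero.mp h3).resolve_left hv0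
    linear_combination h4
  exact sub_eq_zero.mp ((mul_eq_zero.mp key).resolve_left hs)

theorem par_ref (hac : S a c ≠ 0) (hca : S c a ≠ 0) (h1 : par S a c x d) (h2 : par S a c x k) :
    par S a d x k := by
  obtain ⟨h1, h1'⟩ := h1
  obtain ⟨h2, h2'⟩ := h2
  constructor
  · apply mul_left_cancel₀ hac
    linear_combination (-(S a k)) * h1 + (S a d) * h2
  · apply mul_left_cancel₀ hca
    linear_combination (-(S k a)) * h1' + (S d a) * h2'

/-- replacing `d` by `v` -/
theorem new_base (h : SG V S) (ha : a ∈ V) (hb : b ∈ V) (hc : c ∈ V) (hv : v ∈ V) (hab : a ≠ b)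
    (hac : a ≠ c) (hbc : b ≠ c) (hva : v ≠ a) (hvb : v ≠ b) (hvc : v ≠ c) (hR : RT S a b c)
    (hH : HT S v a c) (hp : par S a c b v) : Mixed S a b c v := by
  have nabc : ¬ HT S a b c := fun hh => h.not_both ha hb hc hab hac hbc ⟨hR, hh⟩
  have h1 : ¬ HT S v a b := by
    intro hh
    have h2 : HT S a v b := h.HT_swap ha hb hv hab hva.symm hvb.symm hh.rot
    have h3 := (h.rel_HT (a := a) hb hc hv hbc hvb.symm hp.1.symm).mpr h2
    exact nabc (h.HT_swap ha hc hb hac hab hbc.symm h3)
  have h2 : HT S v b c := by
    rcases h.HT_four hb hv ha hc hvb.symm hab.symm hbc hH with k | k | k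
    · exact absurd k.rot h1
    · exact absurd (h.HT_swap ha hc hb hac hab hbc.symm k.rot) nabc
    · exact k.rot.rot
  have h3 : RT S v a b := by
    rcases h.RT_four hv ha hb hc hva hvb hvc hR with hh | hh | hh
    · exact hh
    · exact absurd ⟨hh, h2⟩ (h.not_both hv hb hc hvb hvc hbc)
    · exact absurd ⟨hh.swap, hH⟩ (h.not_both hv ha hc hva hvc hac)
  exact ⟨hR, h3.rot, hH.rot⟩

theorem no_path : ∀ m : ℕ, ∀ (V : Finset ι) (S : ι → ι → ℂ) (a b c d : ι) (k : ℕ → ι), SG V S →
    a ∈ V → b ∈ V → c ∈ V → d ∈ V → a ≠ b → a ≠ c → a ≠ d → b ≠ c → b ≠ d → c ≠ d →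
    Mixed S a b c d → k 0 = d → k m = b → (∀ i ≤ m, k i ∈ V) → (∀ i ≤ m, k i ≠ a) →
    (∀ i ≤ m, k i ≠ c) → (∀ i, 1 ≤ i → i ≤ m → k i ≠ d) →
    (∀ i < m, ¬ par S a c (k (i + 1)) (k i)) → False := by
  intro m
  induction m using Nat.strong_induction_on with
  | _ m IH =>
  intro V S a b c d k h ha hb hc hd hab hac had hbc hbd hcd hM k0 km kV ka kc kd kp
  have F1 : ∀ i j, i + 1 < j → j ≤ m → par S a c (k j) (k i) := by
    intro i j hij hjm
    by_contra hno
    refine IH (m - (j - i - 1)) (by omega) V S a b c d (fun t => if t ≤ i then k t else k (t + (j - i - 1)))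
      h ha hb hc hd hab hac had hbc hbd hcd hM ?_ ?_ ?_ ?_ ?_ ?_ ?_
    · simp only [Nat.zero_le, if_true]; exact k0
    · have h1 : ¬ (m - (j - i - 1) ≤ i) := by omega
      have h2 : m - (j - i - 1) + (j - i - 1) = m := by omega
      simp only [if_neg h1, h2]; exact km
    · intro t ht
      try dsimp only
      split_ifs
      · exact kV _ (by omega)
      · exact kV _ (by omega)
    · intro t ht
      try dsimp only
      split_ifs
      · exact ka _ (by omega)
      · exact ka _ (by omega)
    · intro t ht
      try dsimp only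
      split_ifs
      · exact kc _ (by omega)
      · exact kc _ (by omega)
    · intro t ht1 ht
      try dsimp only
      split_ifs
      · exact kd _ ht1 (by omega)
      · exact kd _ (by omega) (by omega)
    · intro t ht
      try dsimp only
      by_cases h1 : t + 1 ≤ i
      · rw [if_pos h1, if_pos (by omega)]
        exact kp t (by omega)
      · by_cases h2 : t = i
        · subst h2
          have h3 : t + 1 + (j - t - 1) = j := by omega
          rw [if_neg h1, if_pos le_rfl, h3]
          exact hno
        · have h3 : t + 1 + (j - i - 1) = (t + (j - i - 1)) + 1 := by omega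
          rw [if_neg h1, if_neg (by omega), h3]
          exact kp _ (by omega)
  have F2 : ∀ j, 2 ≤ j → j ≤ m → k j ≠ k 1 := by
    intro j hj hjm heq
    refine IH (m - (j - 1)) (by omega) V S a b c d (fun t => if t = 0 then k 0 else k (t + (j - 1)))
      h ha hb hc hd hab hac had hbc hbd hcd hM ?_ ?_ ?_ ?_ ?_ ?_ ?_
    · simp only [if_true]; exact k0
    · have h1 : ¬ (m - (j - 1) = 0) := by omega
      have h2 : m - (j - 1) + (j - 1) = m := by omega
      simp only [if_neg h1, h2]; exact km
    · intro t ht
      try dsimp only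
      split_ifs
      · exact kV _ (by omega)
      · exact kV _ (by omega)
    · intro t ht
      try dsimp only
      split_ifs
      · exact ka _ (by omega)
      · exact ka _ (by omega)
    · intro t ht
      try dsimp only
      split_ifs
      · exact kc _ (by omega)
      · exact kc _ (by omega)
    · intro t ht1 ht
      try dsimp only
      rw [if_neg (by omega)]
      exact kd _ (by omega) (by omega)
    · intro t ht
      try dsimp only
      rw [if_neg (by omega)]
      by_cases h2 : t = 0
      · subst h2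
        have h3 : 0 + 1 + (j - 1) = j := by omega
        rw [if_pos rfl, h3, heq]
        exact kp 0 (by omega)
      · have h3 : t + 1 + (j - 1) = (t + (j - 1)) + 1 := by omega
        rw [if_neg h2, h3]
        exact kp _ (by omega)
  -- small lengths
  rcases Nat.lt_or_ge m 1 with hm0 | hm1
  · have : m = 0 := by omega
    subst this
    exact hbd (km.symm.trans k0)
  have hpar0 := Mixed.par h ha hb hc hd hab hac had hbc hbd hcd hM
  rcases Nat.lt_or_ge m 2 with hm1' | hm2
  · have : m = 1 := by omega
    subst this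
    have := kp 0 (by omega)
    rw [km, k0] at this
    exact this hpar0
  set v := k 1 with hv_def
  have hv : v ∈ V := kV 1 (by omega)
  have hva : v ≠ a := ka 1 (by omega)
  have hvc : v ≠ c := kc 1 (by omega)
  have hvd : v ≠ d := kd 1 le_rfl (by omega)
  have hvb : v ≠ b := by
    have := F2 m hm2 le_rfl
    rw [km] at this
    exact this.symm
  have hα : ¬ par S a c v d := by
    have := kp 0 (by omega)
    rwa [k0, zero_add] at this
  rcases Nat.lt_or_ge m 3 with hm2' | hm3
  · have : m = 2 := by omega
    subst this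
    have h1 := kp 1 (by omega)
    rw [show (1 + 1 : ℕ) = 2 from rfl, km] at h1
    rcases dichotomy h ha hb hc hd hv hab hac had hbc hbd hcd hva hvb hvc hvd hM with hh | hh
    · exact hα hh
    · exact h1 hh
  have hpbv : par S a c b v := by
    have := F1 1 m (by omega) le_rfl
    rwa [km] at this
  by_cases hH1 : HT S v a c
  · -- the base `a b | c v`
    have hM1 := new_base h ha hb hc hv hab hac hbc hva hvb hvc hM.1 hH1 hpbv
    refine IH (m - 1) (by omega) V S a b c v (fun t => k (t + 1)) h ha hb hc hv hab hac hva.symm hbc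
      hvb.symm hvc.symm hM1 rfl ?_ ?_ ?_ ?_ ?_ ?_
    · have : m - 1 + 1 = m := by omega
      simp only [this]; exact km
    · intro t ht; exact kV _ (by omega)
    · intro t ht; exact ka _ (by omega)
    · intro t ht; exact kc _ (by omega)
    · intro t ht1 ht; exact F2 _ (by omega) (by omega)
    · intro t ht; exact kp _ (by omega)
  by_cases hH2 : HT S v a d
  · -- the base `a b | d v`
    have hpbv' : par S a d b v := par_ref (h.ne ha hc hac) (h.ne hc ha hac.symm) hpar0 hpbv
    have hM1 := new_base h ha hb hd hv hab had hbd hva hvb hvd hM.2.1 hH2 hpbv'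
    refine IH (m - 1) (by omega) V S a b d v (fun t => k (t + 1)) h ha hb hd hv hab had hva.symm hbd
      hvb.symm hvd.symm hM1 rfl ?_ ?_ ?_ ?_ ?_ ?_
    · have : m - 1 + 1 = m := by omega
      simp only [this]; exact km
    · intro t ht; exact kV _ (by omega)
    · intro t ht; exact ka _ (by omega)
    · intro t ht; exact kd _ (by omega) (by omega)
    · intro t ht1 ht; exact F2 _ (by omega) (by omega)
    · intro t ht hp
      have hxd : par S a c (k (t + 1 + 1)) d := by
        have := F1 0 (t + 1 + 1) (by omega) (by omega)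
        rwa [k0] at this
      exact kp (t + 1) (by omega) (par_change (h.ne ha hd had) (h.ne hd ha had.symm) hxd hp)
  -- `v` is neutral
  have n1 := not_n1 h ha hb hc hd hv hab hac had hbc hbd hcd hva hvb hvc hvd hM hα
  have n3 := not_n3 h ha hb hc hd hv hab hac had hbc hbd hcd hva hvb hvc hvd hM hα
  have hHb := Mixed.HT_bcd h ha hb hc hd hab hac had hbc hbd hcd hM
  have nabc : ¬ HT S a b c := fun hh => h.not_both ha hb hc hab hac hbc ⟨hM.1, hh⟩
  have racd : ¬ RT S a c d := fun hh => h.not_both ha hc hd hac had hcd ⟨hh, hM.2.2⟩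
  have rbcd : ¬ RT S b c d := fun hh => h.not_both hb hc hd hbc hbd hcd ⟨hh, hHb⟩
  have key := comb2 (Rab := RT S v a b) (Rac := RT S v a c) (Rad := RT S v a d) (Rbc := RT S v b c)
    (Rbd := RT S v b d) (Rcd := RT S v c d) (Hab := HT S v a b) (Hac := HT S v a c) (Had := HT S v a d)
    (Hbc := HT S v b c) (Hcd := HT S v c d)
    (h.not_both hv ha hb hva hvb hab) (h.not_both hv hc hd hvc hvd hcd)
    (by
      rcases h.RT_four hv ha hb hc hva hvb hvc hM.1 with hh | hh | hh
      · exact Or.inl hh
      · exact Or.inr (Or.inl hh)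
      · exact Or.inr (Or.inr hh.swap))
    (by
      rcases h.HT_four hv ha hc hd hva hvc hvd hM.2.2 with hh | hh | hh
      · exact Or.inl hh
      · exact Or.inr (Or.inl hh)
      · exact Or.inr (Or.inr (h.HT_swap hv hd ha hvd hva had.symm hh)))
    (by
      intro hh
      rcases h.HT_four ha hv hb hc hva.symm hab hac hh with k | k | k
      · exact Or.inr (h.HT_swap hv hb ha hvb hva hab.symm k.rot)
      · exact absurd k nabc
      · exact Or.inl k.rot.rot)
    (by
      intro hh
      rcases h.RT_four hd hv ha hc hvd.symm had.symm hcd.symm hh with k | k | k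
      · exact Or.inl k.rot
      · exact absurd k.rot racd
      · exact Or.inr k.rot.rot.swap)
    (by
      intro hh
      rcases h.RT_four hc hv ha hd hvc.symm hac.symm hcd hh with k | k | k
      · exact Or.inl k.rot
      · exact absurd (k.rot.swap) racd
      · exact Or.inr k.rot.rot)
    (by
      intro hh
      rcases h.RT_four hd hv hb hc hvd.symm hbd.symm hcd.symm hh with k | k | k
      · exact Or.inl k.rot
      · exact absurd k.rot rbcd
      · exact Or.inr k.rot.rot.swap)
    n1 n3 hH1 hH2
  obtain ⟨k1, k2, k3, k4, k5, k6⟩ := key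
  obtain ⟨hMix, hrc, -⟩ := neutral h ha hb hc hd hv hab hac had hbc hbd hcd hva hvb hvc hvd hM k1 k2 k3 k4 k5 k6
  have hrow : ¬ (S a d * S v c = S a c * S v d) := fun hh => hα ⟨hh, hrc.mp hh⟩
  have hcol : ¬ (S d a * S c v = S c a * S d v) := fun hh => hrow (hrc.mpr hh)
  have hY := h.sch hv
  have ma : a ∈ V.erase v := mem_erase.mpr ⟨hva.symm, ha⟩
  have mb : b ∈ V.erase v := mem_erase.mpr ⟨hvb.symm, hb⟩
  have mc : c ∈ V.erase v := mem_erase.mpr ⟨hvc.symm, hc⟩
  have md : d ∈ V.erase v := mem_erase.mpr ⟨hvd.symm, hd⟩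
  refine IH (m - 1) (by omega) (V.erase v) (sch S v) a b c d (fun t => if t = 0 then d else k (t + 1))
    hY ma mb mc md hab hac had hbc hbd hcd hMix ?_ ?_ ?_ ?_ ?_ ?_ ?_
  · simp only [if_true]
  · have h1 : ¬ (m - 1 = 0) := by omega
    have h2 : m - 1 + 1 = m := by omega
    simp only [if_neg h1, h2]; exact km
  · intro t ht
    try dsimp only
    split_ifs
    · exact md
    · exact mem_erase.mpr ⟨F2 _ (by omega) (by omega), kV _ (by omega)⟩
  · intro t ht
    try dsimp only
    split_ifs
    · exact had.symm
    · exact ka _ (by omega)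
  · intro t ht
    try dsimp only
    split_ifs
    · exact hcd.symm
    · exact kc _ (by omega)
  · intro t ht1 ht
    try dsimp only
    rw [if_neg (by omega)]
    exact kd _ (by omega) (by omega)
  · intro t ht
    try dsimp only
    rw [if_neg (by omega)]
    by_cases h2 : t = 0
    · subst h2
      rw [if_pos rfl]
      intro hp
      have hxd : par S a c (k (0 + 1 + 1)) d := by
        have := F1 0 (0 + 1 + 1) (by omega) (by omega)
        rwa [k0] at this
      apply kp (0 + 1) (by omega)
      refine ⟨?_, ?_⟩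
      · rcases row_dich (h.diag_ne hv) hxd.1 hp.1 with hh | hh
        · exact absurd hh.symm hrow
        · exact hh.symm
      · rcases col_dich (h.diag_ne hv) hxd.2 hp.2 with hh | hh
        · exact absurd hh.symm hcol
        · exact hh.symm
    · rw [if_neg h2]
      intro hp
      have hxv : par S a c (k (t + 1 + 1)) v := F1 1 (t + 1 + 1) (by omega) (by omega)
      apply kp (t + 1) (by omega)
      exact ⟨row_keep (h.diag_ne hv) (hY.ne ma mc hac) hxv.1 hp.1,
        col_keep (h.diag_ne hv) (hY.ne mc ma hac.symm) hxv.2 hp.2⟩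

/-- a mixed quadruple extends to a rank one cut -/
theorem separation (h : SG V S) (ha : a ∈ V) (hb : b ∈ V) (hc : c ∈ V) (hd : d ∈ V) (hab : a ≠ b)
    (hac : a ≠ c) (had : a ≠ d) (hbc : b ≠ c) (hbd : b ≠ d) (hcd : c ≠ d) (hM : Mixed S a b c d) :
    ∃ β : Finset ι, β ⊆ V ∧ c ∈ β ∧ d ∈ β ∧ a ∉ β ∧ b ∉ β ∧
      ∀ x ∈ V, x ∉ β → ∀ y ∈ β, par S a c x y := by
  classical
  let P : ℕ → (ℕ → ι) → ι → Prop := fun m k x => k 0 = d ∧ k m = x ∧ (∀ i ≤ m, k i ∈ V) ∧
    (∀ i ≤ m, k i ≠ a) ∧ (∀ i ≤ m, k i ≠ c) ∧ (∀ i, 1 ≤ i → i ≤ m → k i ≠ d) ∧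
    (∀ i < m, ¬ par S a c (k (i + 1)) (k i))
  let β : Finset ι := V.filter fun x => x = c ∨ ∃ m k, P m k x
  have hmem : ∀ x, x ∈ β ↔ x ∈ V ∧ (x = c ∨ ∃ m k, P m k x) := fun x => by
    simp only [β, mem_filter]
  have hcβ : c ∈ β := (hmem c).mpr ⟨hc, Or.inl rfl⟩
  have hdβ : d ∈ β := (hmem d).mpr ⟨hd, Or.inr ⟨0, fun _ => d, rfl, rfl, fun _ _ => hd, fun _ _ => had.symm,
    fun _ _ => hcd.symm, fun i h1 h2 => by omega, fun i hi => by omega⟩⟩
  refine ⟨β, filter_subset _ _, hcβ, hdβ, ?_, ?_, ?_⟩
  · intro haβ
    rcases ((hmem a).mp haβ).2 with hh | ⟨m, k, hk⟩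
    · exact hac hh
    · exact hk.2.2.2.1 m le_rfl hk.2.1
  · intro hbβ
    rcases ((hmem b).mp hbβ).2 with hh | ⟨m, k, k0, km, kV, ka, kc, kd, kp⟩
    · exact hbc hh
    · exact no_path m V S a b c d k h ha hb hc hd hab hac had hbc hbd hcd hM k0 km kV ka kc kd kp
  · intro x hx hxβ y hy
    rcases ((hmem y).mp hy).2 with hh | ⟨m, k, k0, km, kV, ka, kc, kd, kp⟩
    · subst hh
      exact ⟨rfl, rfl⟩
    · by_contra hno
      have hxa : x ≠ a := by
        rintro rfl
        exact hno ⟨by ring, by ring⟩
      have hxc : x ≠ c := by rintro rfl; exact hxβ hcβ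
      have hxd : x ≠ d := by rintro rfl; exact hxβ hdβ
      apply hxβ
      refine (hmem x).mpr ⟨hx, Or.inr ⟨m + 1, fun t => if t ≤ m then k t else x, ?_, ?_, ?_, ?_, ?_, ?_, ?_⟩⟩
      · simp only [Nat.zero_le, if_true]; exact k0
      · show (if m + 1 ≤ m then k (m + 1) else x) = x
        rw [if_neg (by omega)]
      · intro t ht
        try dsimp only
        split_ifs with h1
        · exact kV t h1
        · exact hx
      · intro t ht
        try dsimp only
        split_ifs with h1
        · exact ka t h1
        · exact hxa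
      · intro t ht
        try dsimp only
        split_ifs with h1
        · exact kc t h1
        · exact hxc
      · intro t ht1 ht
        try dsimp only
        split_ifs with h1
        · exact kd t ht1 h1
        · exact hxd
      · intro t ht
        try dsimp only
        by_cases h1 : t = m
        · subst h1
          rw [if_neg (by omega), if_pos le_rfl, km]
          exact hno
        · rw [if_pos (by omega), if_pos (by omega)]
          exact kp t (by omega)

end Pool.Agent.Helper69.GKK
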