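import Mathlib
import Pool.Agent.Helper5.GKK.Basic

/-!
Definitions for the criterion for limits of strict GKK matrices.
-/

namespace Pool.Agent.Helper69.GKK

open Matrix Finset
open Pool.Agent.Helper5.GKK
open scoped ComplexConjugate

/-- `A` restricted to the index set `T` has a rank one cut: `T` is the disjoint union of two sets with
at least two elements such that the two submatrices between them have rank at most one. -/
def CutOn {ι : Type*} [DecidableEq ι] (T : Finset ι) (A : ι → ι → ℂ) : Prop :=
  ∃ α β : Finset ι, Disjoint α β ∧ α ∪ β = T ∧ 2 ≤ α.card ∧ 2 ≤ β.card ∧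
    ∀ i ∈ α, ∀ j ∈ α, ∀ k ∈ β, ∀ l ∈ β, A i k * A j l = A i l * A j k ∧ A k i * A l j = A l i * A k j

variable {n : ℕ}

/-- The submatrix of `A` with the index set `T` is diagonally similar to a real matrix. -/
def RealOn (T : Finset (Fin n)) (A : Matrix (Fin n) (Fin n) ℂ) : Prop :=
  ∃ g : Fin n → ℂ, (∀ i, ‖g i‖ = 1) ∧ ∀ i ∈ T, ∀ j ∈ T, (conj (g i) * A i j * g j).im = 0

/-- Two indices are linked if each of them can be reached from the other along nonzero entries of `A`.
The classes of linked indices are the irreducible diagonal blocks of `A`. -/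
def Linked (A : Matrix (Fin n) (Fin n) ℂ) (i j : Fin n) : Prop :=
  Relation.ReflTransGen (fun i j => A i j ≠ 0) i j ∧ Relation.ReflTransGen (fun i j => A i j ≠ 0) j i

/-- Every irreducible diagonal block of `A` is diagonally similar to a Hermitian matrix. -/
def HermitianBlocks (A : Matrix (Fin n) (Fin n) ℂ) : Prop :=
  ∃ w : Fin n → ℝ, (∀ i, 0 < w i) ∧ ∀ i j, Linked A i j → (w i : ℂ) * A i j = w j * conj (A j i)

/-- Every irreducible diagonal block of `A` of order at least three is contained in a principal
submatrix without rank one cut that is not diagonally similar to a real matrix. -/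
def NonrealPosition (A : Matrix (Fin n) (Fin n) ℂ) : Prop :=
  ∀ i j k, i ≠ j → i ≠ k → j ≠ k → Linked A i j → Linked A i k →
    ∃ T : Finset (Fin n), (∀ l, Linked A i l → l ∈ T) ∧ ¬ CutOn T A ∧ ¬ RealOn T A

/-- No almost principal minor of `A` vanishes without its transposed minor. -/
def SymmetricZeros (A : Matrix (Fin n) (Fin n) ℂ) : Prop :=
  ∀ (k : ℕ) (α β : Fin k → Fin n), AlmostPrincipal α β → (minor A α β = 0 ↔ minor A β α = 0)

/-- the real strict GKK matrices -/
def RealStrict (n : ℕ) : Set (Matrix (Fin n) (Fin n) ℝ) := {Y | IsStrictGKK (Y.map ((↑) : ℝ → ℂ))}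

/-- `A` is diagonally similar to a real matrix that is a limit of real strict GKK matrices. -/
def RealLimit (A : Matrix (Fin n) (Fin n) ℂ) : Prop :=
  ∃ (g : Fin n → ℂ) (R : Matrix (Fin n) (Fin n) ℝ), (∀ i, ‖g i‖ = 1) ∧
    (∀ i j, conj (g i) * A i j * g j = R i j) ∧ R ∈ closure (RealStrict n)

end Pool.Agent.Helper69.GKK
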