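import Mathlib
import Pool.Agent.Helper69.GKK.Chain
import Pool.Agent.Helper69.GKK.Defs

/-!
Without a rank one cut, all triangles of a strict GKK matrix are balanced or all are real.
-/

namespace Pool.Agent.Helper69.GKK

open Matrix Finset Filter Topology
open scoped ComplexOrder ComplexConjugate

set_option linter.unusedSectionVars false

variable {ι : Type*} [DecidableEq ι] {V : Finset ι} {S : ι → ι → ℂ}

/-- existence of a mixed quadruple -/
def HasMixed (V : Finset ι) (S : ι → ι → ℂ) : Prop :=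
  ∃ a b c d, a ∈ V ∧ b ∈ V ∧ c ∈ V ∧ d ∈ V ∧ a ≠ b ∧ a ≠ c ∧ a ≠ d ∧ b ≠ c ∧ b ≠ d ∧ c ≠ d ∧ Mixed S a b c d

theorem mixed_edge (h : SG V S) {p q r s : ι} (hp : p ∈ V) (hq : q ∈ V) (hr : r ∈ V) (hs : s ∈ V)
    (hpq : p ≠ q) (hpr : p ≠ r) (hps : p ≠ s) (hqr : q ≠ r) (hqs : q ≠ s) (hrs : r ≠ s)
    (hR : RT S p q r) (hH : HT S p q s) : HasMixed V S := by
  have n1 : ¬ RT S p q s := fun hh => h.not_both hp hq hs hpq hps hqs ⟨hh, hH⟩
  have n2 : ¬ HT S p q r := fun hh => h.not_both hp hq hr hpq hpr hqr ⟨hR, hh⟩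
  rcases h.RT_four hs hp hq hr hps.symm hqs.symm hrs.symm hR with k | k | k
  · exact absurd k.rot n1
  · -- `q r s` unbalanced
    refine ⟨q, r, p, s, hq, hr, hp, hs, hqr, hpq.symm, hqs, hpr.symm, hrs, hps, hR.rot, k.rot, ?_⟩
    exact (h.HT_swap hp hq hs hpq hps hqs hH).rot.rot
  · -- `p r s` unbalanced
    refine ⟨p, r, q, s, hp, hr, hq, hs, hpr, hpq, hps, hqr.symm, hrs, hqs, hR.swap, ?_, hH⟩
    exact k.rot.rot.swap

theorem mixed_vertex (h : SG V S) {p q r x y : ι} (hp : p ∈ V) (hq : q ∈ V) (hr : r ∈ V) (hx : x ∈ V)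
    (hy : y ∈ V) (hpq : p ≠ q) (hpr : p ≠ r) (hqr : q ≠ r) (hpx : p ≠ x) (hpy : p ≠ y) (hxy : x ≠ y)
    (hqx : q ≠ x) (hqy : q ≠ y) (hrx : r ≠ x) (hry : r ≠ y)
    (hR : RT S p q r) (hH : HT S p x y) : HasMixed V S := by
  have sw : ∀ {i j k}, i ∈ V → j ∈ V → k ∈ V → i ≠ j → i ≠ k → j ≠ k → HT S i j k → HT S i k j :=
    fun hi hj hk h1 h2 h3 hh => h.HT_swap hi hj hk h1 h2 h3 hh
  rcases h.RT_four hx hp hq hr hpx.symm hqx.symm hrx.symm hR with k | k | k
  · -- `x p q` unbalanced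
    exact mixed_edge h hx hp hq hy hpx.symm hqx.symm hxy hpq hpy hqy k
      (sw hx hy hp hxy hpx.symm hpy.symm hH.rot)
  · -- `x q r` unbalanced
    rcases h.HT_four hq hp hx hy hpq.symm hqx hqy hH with k' | k' | k'
    · exact mixed_edge h hq hp hr hx hpq.symm hqr hqx hpr hpx hrx (hR.swap.rot.rot) k'
    · exact mixed_edge h hq hx hr hy hqx hqr hqy hrx.symm hxy hry (k.rot.swap) k'
    · exact mixed_edge h hp hq hr hy hpq hpr hpy hqr hqy hry hR (k'.rot.rot)
  · -- `x r p` unbalanced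
    exact mixed_edge h hx hp hr hy hpx.symm hrx.symm hxy hpr hpy hry k.swap
      (sw hx hy hp hxy hpx.symm hpy.symm hH.rot)

theorem mixed_common (h : SG V S) {p q r y z : ι} (hp : p ∈ V) (hq : q ∈ V) (hr : r ∈ V)
    (hy : y ∈ V) (hz : z ∈ V) (hpq : p ≠ q) (hpr : p ≠ r) (hqr : q ≠ r) (hpy : p ≠ y) (hpz : p ≠ z)
    (hyz : y ≠ z) (hR : RT S p q r) (hH : HT S p y z) : HasMixed V S := by
  have n2 : ¬ HT S p q r := fun hh => h.not_both hp hq hr hpq hpr hqr ⟨hR, hh⟩
  have n3 : ¬ HT S p r q := fun hh => n2 (h.HT_swap hp hr hq hpr hpq hqr.symm hh)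
  by_cases h1 : y = q
  · subst h1
    by_cases h2 : z = r
    · subst h2; exact absurd hH n2
    · exact mixed_edge h hp hy hr hz hpy hpr hpz hqr hyz (Ne.symm h2) hR hH
  by_cases h2 : y = r
  · subst h2
    by_cases h3 : z = q
    · subst h3; exact absurd hH n3
    · exact mixed_edge h hp hy hq hz hpy hpq hpz hqr.symm hyz (Ne.symm h3) hR.swap hH
  by_cases h3 : z = q
  · subst h3
    exact mixed_edge h hp hz hr hy hpz hpr hpy hqr hyz.symm (Ne.symm h2) hR
      (h.HT_swap hp hy hz hpy hpz hyz hH)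
  by_cases h4 : z = r
  · subst h4
    exact mixed_edge h hp hz hq hy hpz hpq hpy hqr.symm hyz.symm (Ne.symm h1) hR.swap
      (h.HT_swap hp hy hz hpy hpz hyz hH)
  exact mixed_vertex h hp hq hr hy hz hpq hpr hqr hpy hpz hyz (Ne.symm h1) (Ne.symm h3) (Ne.symm h2)
    (Ne.symm h4) hR hH

theorem mixed_any (h : SG V S) {p q r x y z : ι} (hp : p ∈ V) (hq : q ∈ V) (hr : r ∈ V) (hx : x ∈ V)
    (hy : y ∈ V) (hz : z ∈ V) (hpq : p ≠ q) (hpr : p ≠ r) (hqr : q ≠ r) (hxy : x ≠ y) (hxz : x ≠ z)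
    (hyz : y ≠ z) (hR : RT S p q r) (hH : HT S x y z) : HasMixed V S := by
  -- a vertex in common
  have key : ∀ x y z, x ∈ V → y ∈ V → z ∈ V → x ≠ y → x ≠ z → y ≠ z → HT S x y z →
      (x = p ∨ x = q ∨ x = r) → HasMixed V S := by
    intro x y z hx hy hz hxy hxz hyz hH hh
    rcases hh with hh | hh | hh
    · subst hh; exact mixed_common h hx hq hr hy hz hpq hpr hqr hxy hxz hyz hR hH
    · subst hh; exact mixed_common h hx hr hp hy hz hqr hpq.symm hpr.symm hxy hxz hyz hR.rot hH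
    · subst hh; exact mixed_common h hx hp hq hy hz hpr.symm hqr.symm hpq hxy hxz hyz hR.rot.rot hH
  by_cases h1 : x = p ∨ x = q ∨ x = r
  · exact key x y z hx hy hz hxy hxz hyz hH h1
  by_cases h2 : y = p ∨ y = q ∨ y = r
  · exact key y z x hy hz hx hyz hxy.symm hxz.symm hH.rot h2
  by_cases h3 : z = p ∨ z = q ∨ z = r
  · exact key z x y hz hx hy hxz.symm hyz.symm hxy hH.rot.rot h3
  push Not at h1 h2 h3
  obtain ⟨x1, x2, x3⟩ := h1
  obtain ⟨y1, y2, y3⟩ := h2
  obtain ⟨z1, z2, z3⟩ := h3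
  rcases h.RT_four hx hp hq hr x1 x2 x3 hR with k | k | k
  · exact mixed_vertex h hx hp hq hy hz x1 x2 hpq hxy hxz hyz y1.symm z1.symm y2.symm z2.symm k hH
  · exact mixed_vertex h hx hq hr hy hz x2 x3 hqr hxy hxz hyz y2.symm z2.symm y3.symm z3.symm k hH
  · exact mixed_vertex h hx hr hp hy hz x3 x1 hpr.symm hxy hxz hyz y3.symm z3.symm y1.symm z1.symm k hH

theorem balanced_or_real (h : SG V S) (hcut : ¬ CutOn V S) :
    (∀ i ∈ V, ∀ j ∈ V, ∀ k ∈ V, i ≠ j → i ≠ k → j ≠ k → ¬ RT S i j k) ∨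
    (∀ i ∈ V, ∀ j ∈ V, ∀ k ∈ V, i ≠ j → i ≠ k → j ≠ k → ¬ HT S i j k) := by
  by_contra hno
  push Not at hno
  obtain ⟨⟨p, hp, q, hq, r, hr, hpq, hpr, hqr, hR⟩, ⟨x, hx, y, hy, z, hz, hxy, hxz, hyz, hH⟩⟩ := hno
  obtain ⟨a, b, c, d, ha, hb, hc, hd, hab, hac, had, hbc, hbd, hcd, hM⟩ :=
    mixed_any h hp hq hr hx hy hz hpq hpr hqr hxy hxz hyz hR hH
  obtain ⟨β, hβV, hcβ, hdβ, haβ, hbβ, hpar⟩ := separation h ha hb hc hd hab hac had hbc hbd hcd hM
  apply hcut
  refine ⟨V \ β, β, disjoint_sdiff.symm, sdiff_union_of_subset hβV, ?_, ?_, ?_⟩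
  · have h1 : ({a, b} : Finset ι) ⊆ V \ β := by
      intro x hx
      rcases mem_insert.mp hx with rfl | hx
      · exact mem_sdiff.mpr ⟨ha, haβ⟩
      · rw [mem_singleton.mp hx]; exact mem_sdiff.mpr ⟨hb, hbβ⟩
    have h2 := card_le_card h1
    rwa [card_pair hab] at h2
  · have h1 : ({c, d} : Finset ι) ⊆ β := by
      intro x hx
      rcases mem_insert.mp hx with rfl | hx
      · exact hcβ
      · rw [mem_singleton.mp hx]; exact hdβ
    have h2 := card_le_card h1
    rwa [card_pair hcd] at h2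
  · intro i hi j hj k hk l hl
    obtain ⟨hiV, hiβ⟩ := mem_sdiff.mp hi
    obtain ⟨hjV, hjβ⟩ := mem_sdiff.mp hj
    have pik := hpar i hiV hiβ k hk
    have pil := hpar i hiV hiβ l hl
    have pjk := hpar j hjV hjβ k hk
    have pjl := hpar j hjV hjβ l hl
    have n1 := h.ne ha hc hac
    have n2 := h.ne hc ha hac.symm
    constructor
    · apply mul_left_cancel₀ (mul_ne_zero n1 n1)
      have e1 : S a c * S a c * (S i k * S j l) = (S a c * S i k) * (S a c * S j l) := by ring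
      have e2 : S a c * S a c * (S i l * S j k) = (S a c * S i l) * (S a c * S j k) := by ring
      rw [e1, e2, ← pik.1, ← pil.1, ← pjk.1, ← pjl.1]
      ring
    · apply mul_left_cancel₀ (mul_ne_zero n2 n2)
      have e1 : S c a * S c a * (S k i * S l j) = (S c a * S k i) * (S c a * S l j) := by ring
      have e2 : S c a * S c a * (S l i * S k j) = (S c a * S l i) * (S c a * S k j) := by ring
      rw [e1, e2, ← pik.2, ← pil.2, ← pjk.2, ← pjl.2]
      ring

/-- balanced triangles: diagonally similar to a Hermitian matrix -/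
theorem symm_of_balanced (h : SG V S)
    (hb : ∀ i ∈ V, ∀ j ∈ V, ∀ k ∈ V, i ≠ j → i ≠ k → j ≠ k → ¬ RT S i j k) :
    ∃ w : ι → ℝ, (∀ i, 0 < w i) ∧ ∀ i ∈ V, ∀ j ∈ V, (w i : ℂ) * S i j = w j * conj (S j i) := by
  classical
  rcases V.eq_empty_or_nonempty with hV | ⟨o, ho⟩
  · exact ⟨fun _ => 1, fun _ => one_pos, fun i hi => by rw [hV] at hi; simp at hi⟩
  refine ⟨fun i => if i ∈ V ∧ i ≠ o then ‖S o i‖ / ‖S i o‖ else 1, fun i => ?_, fun i hi j hj => ?_⟩
  · dsimp only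
    split_ifs with h1
    · exact div_pos (norm_pos_iff.mpr (h.ne ho h1.1 h1.2.symm)) (norm_pos_iff.mpr (h.ne h1.1 ho h1.2))
    · exact one_pos
  · dsimp only
    rcases eq_or_ne i j with rfl | hne
    · rw [Complex.conj_eq_iff_im.mpr (h.diag_im hi)]
    have pair : ∀ x ∈ V, x ≠ o → ((1 : ℝ) : ℂ) * S o x = ((‖S o x‖ / ‖S x o‖ : ℝ) : ℂ) * conj (S x o) := by
      intro x hxV hx
      obtain ⟨s, hs, hse⟩ := conj_eq_of_mul_pos (h.prod ho hxV hx.symm)
      have hns : ‖S x o‖ = s * ‖S o x‖ := by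
        rw [← Complex.norm_conj, hse, norm_mul, Complex.norm_real, Real.norm_of_nonneg hs.le]
      have n1 : ‖S o x‖ ≠ 0 := norm_ne_zero_iff.mpr (h.ne ho hxV hx.symm)
      rw [hse, hns]
      have e : ‖S o x‖ / (s * ‖S o x‖) = 1 / s := by field_simp
      rw [e]
      push_cast
      have : (s : ℂ) ≠ 0 := by exact_mod_cast hs.ne'
      field_simp
    by_cases hio : i = o
    · subst hio
      rw [if_neg (by simp), if_pos ⟨hj, hne.symm⟩]
      exact pair j hj hne.symm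
    by_cases hjo : j = o
    · subst hjo
      rw [if_neg (by simp : ¬ (j ∈ V ∧ j ≠ j)), if_pos ⟨hi, hne⟩]
      have := congrArg conj (pair i hi hne)
      simp only [map_mul, Complex.conj_ofReal, Complex.conj_conj] at this
      exact this.symm
    rw [if_pos ⟨hi, hio⟩, if_pos ⟨hj, hjo⟩]
    have ht := hb o ho i hi j hj (Ne.symm hio) (Ne.symm hjo) hne
    unfold RT at ht
    push Not at ht
    rw [norm_mul, norm_mul, norm_mul, norm_mul] at ht
    obtain ⟨s, hs, hse⟩ := conj_eq_of_mul_pos (h.prod hi hj hne)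
    have n1 := norm_pos_iff.mpr (h.ne hi ho hio)
    have n2 := norm_pos_iff.mpr (h.ne hj ho hjo)
    have n3 := norm_pos_iff.mpr (h.ne hi hj hne)
    have hns : ‖S j i‖ = s * ‖S i j‖ := by
      rw [← Complex.norm_conj, hse, norm_mul, Complex.norm_real, Real.norm_of_nonneg hs.le]
    rw [hns] at ht
    have key : ‖S o i‖ / ‖S i o‖ = ‖S o j‖ / ‖S j o‖ * s := by
      rw [div_mul_eq_mul_div, div_eq_div_iff n1.ne' n2.ne']
      have := n3.ne'
      apply mul_right_cancel₀ this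
      linarith
    rw [hse, key]
    push_cast
    ring

/-- real triangles: diagonally similar to a real matrix -/
theorem real_of_real (h : SG V S)
    (hb : ∀ i ∈ V, ∀ j ∈ V, ∀ k ∈ V, i ≠ j → i ≠ k → j ≠ k → ¬ HT S i j k) :
    ∃ g : ι → ℂ, (∀ i, ‖g i‖ = 1) ∧ ∀ i ∈ V, ∀ j ∈ V, (conj (g i) * S i j * g j).im = 0 := by
  classical
  rcases V.eq_empty_or_nonempty with hV | ⟨o, ho⟩
  · exact ⟨fun _ => 1, fun _ => by simp, fun i hi => by rw [hV] at hi; simp at hi⟩
  refine ⟨fun i => if i ∈ V ∧ i ≠ o then conj (S o i) / ‖S o i‖ else 1, fun i => ?_, fun i hi j hj => ?_⟩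
  · dsimp only
    split_ifs with h1
    · have n1 : ‖S o i‖ ≠ 0 := norm_ne_zero_iff.mpr (h.ne ho h1.1 h1.2.symm)
      rw [norm_div, Complex.norm_conj, Complex.norm_real, norm_norm, div_self n1]
    · exact norm_one
  · dsimp only
    have n : ∀ x ∈ V, x ≠ o → (‖S o x‖ : ℂ) ≠ 0 := by
      intro x hx hxo
      exact_mod_cast norm_ne_zero_iff.mpr (h.ne ho hx hxo.symm)
    have pair : ∀ x ∈ V, x ≠ o → (S o x * (conj (S o x) / ‖S o x‖)).im = 0 := by
      intro x hx hxo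
      have e : S o x * (conj (S o x) / ‖S o x‖) = ((Complex.normSq (S o x) / ‖S o x‖ : ℝ) : ℂ) := by
        rw [← mul_div_assoc, Complex.mul_conj]; push_cast; ring
      rw [e]; exact Complex.ofReal_im _
    by_cases hio : i = o
    · subst hio
      rw [if_neg (by simp : ¬ (i ∈ V ∧ i ≠ i)), map_one, one_mul]
      by_cases hjo : j = i
      · subst hjo
        rw [if_neg (by simp : ¬ (j ∈ V ∧ j ≠ j)), mul_one]
        exact h.diag_im hi
      · rw [if_pos ⟨hj, hjo⟩]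
        exact pair j hj hjo
    by_cases hjo : j = o
    · subst hjo
      rw [if_pos ⟨hi, hio⟩, if_neg (by simp : ¬ (j ∈ V ∧ j ≠ j)), mul_one]
      obtain ⟨s, hs, hse⟩ := conj_eq_of_mul_pos (h.prod hj hi (Ne.symm hio))
      have hy : S i j = s * conj (S j i) := by
        rw [← Complex.conj_conj (S i j), hse, map_mul, Complex.conj_ofReal]
      have e : conj (conj (S j i) / ‖S j i‖) * S i j
          = ((s * (Complex.normSq (S j i) / ‖S j i‖) : ℝ) : ℂ) := by
        rw [hy, map_div₀, Complex.conj_conj, Complex.conj_ofReal]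
        have : S j i / ‖S j i‖ * (s * conj (S j i)) = s * (S j i * conj (S j i)) / ‖S j i‖ := by ring
        rw [this, Complex.mul_conj]; push_cast; ring
      rw [e]; exact Complex.ofReal_im _
    rw [if_pos ⟨hi, hio⟩, if_pos ⟨hj, hjo⟩]
    rcases eq_or_ne i j with rfl | hne
    · have e : conj (conj (S o i) / ‖S o i‖) * S i i * (conj (S o i) / ‖S o i‖)
          = ((Complex.normSq (S o i) / (‖S o i‖ * ‖S o i‖) : ℝ) : ℂ) * S i i := by
        rw [map_div₀, Complex.conj_conj, Complex.conj_ofReal]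
        have : S o i / ‖S o i‖ * S i i * (conj (S o i) / ‖S o i‖)
            = (S o i * conj (S o i)) / (‖S o i‖ * ‖S o i‖) * S i i := by
          have := n i hi hio
          field_simp
        rw [this, Complex.mul_conj]; push_cast; ring
      rw [e, Complex.im_ofReal_mul, h.diag_im hi, mul_zero]
    · have ht := hb o ho i hi j hj (Ne.symm hio) (Ne.symm hjo) hne
      unfold HT at ht
      push Not at ht
      obtain ⟨s, hs, hse⟩ := conj_eq_of_mul_pos (h.prod ho hj (Ne.symm hjo))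
      -- `conj (S j o) = s * S o j`
      have hy : S j o = s * conj (S o j) := by
        rw [← Complex.conj_conj (S j o), hse, map_mul, Complex.conj_ofReal]
      have sc0 : (s : ℂ) ≠ 0 := by exact_mod_cast hs.ne'
      have e : conj (conj (S o i) / ‖S o i‖) * S i j * (conj (S o j) / ‖S o j‖)
          = ((1 / (‖S o i‖ * ‖S o j‖ * s) : ℝ) : ℂ) * (S o i * S i j * S j o) := by
        rw [map_div₀, Complex.conj_conj, Complex.conj_ofReal, hy]
        have n1 := n i hi hio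
        have n2 := n j hj hjo
        push_cast
        field_simp
      rw [e, Complex.im_ofReal_mul, ht, mul_zero]

end Pool.Agent.Helper69.GKK
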