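import Mathlib
import Pool.Agent.Helper69.GKK.Irr

/-!
The block structure of a matrix (Frobenius normal form), and the fact that block triangular matrices
in general position are dense.
-/

namespace Pool.Agent.Helper69.GKK

open Matrix Finset Filter Topology
open Pool.Agent.Helper5.GKK
open scoped ComplexOrder ComplexConjugate

variable {n : ℕ}

/-- every matrix is block triangular with irreducible diagonal blocks -/
theorem exists_blocks (A : Matrix (Fin n) (Fin n) ℂ) :
    ∃ c : Fin n → ℕ, (∀ i j, c i < c j → A i j = 0) ∧ IrreducibleBlocks A c := by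
  classical
  let R : Fin n → Fin n → Prop := Relation.ReflTransGen fun i j => A i j ≠ 0
  let Rs : Fin n → Finset (Fin n) := fun i => univ.filter fun j => R i j
  let Cl : Fin n → Finset (Fin n) := fun i => univ.filter fun j => R i j ∧ R j i
  have hCl : ∀ i, (Cl i).Nonempty := fun i => ⟨i, by
    simp only [Cl, mem_filter, mem_univ, true_and]
    exact ⟨Relation.ReflTransGen.refl, Relation.ReflTransGen.refl⟩⟩
  let m : Fin n → Fin n := fun i => (Cl i).min' (hCl i)
  let c : Fin n → ℕ := fun i => (Rs i).card * n + (m i).val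
  have hm : ∀ i, R i (m i) ∧ R (m i) i := by
    intro i
    have := (Cl i).min'_mem (hCl i)
    simpa only [Cl, mem_filter, mem_univ, true_and] using this
  have heq : ∀ i j, R i j → R j i → c i = c j := by
    intro i j h1 h2
    have e1 : Rs i = Rs j := by
      ext x
      simp only [Rs, mem_filter, mem_univ, true_and]
      exact ⟨fun h => h2.trans h, fun h => h1.trans h⟩
    have e2 : Cl i = Cl j := by
      ext x
      simp only [Cl, mem_filter, mem_univ, true_and]
      exact ⟨fun h => ⟨h2.trans h.1, h.2.trans h1⟩, fun h => ⟨h1.trans h.1, h.2.trans h2⟩⟩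
    have e3 : m i = m j := by simp only [m, e2]
    simp only [c, e1, e3]
  have hlt : ∀ i j, R i j → ¬ R j i → c j < c i := by
    intro i j h1 h2
    have h3 : Rs j ⊂ Rs i := by
      rw [Finset.ssubset_iff_of_subset]
      · refine ⟨i, ?_, ?_⟩
        · simp only [Rs, mem_filter, mem_univ, true_and]; exact Relation.ReflTransGen.refl
        · simp only [Rs, mem_filter, mem_univ, true_and]; exact h2
      · intro x hx
        simp only [Rs, mem_filter, mem_univ, true_and] at hx ⊢
        exact h1.trans hx
    have h4 : (Rs j).card + 1 ≤ (Rs i).card := card_lt_card h3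
    have h5 : ((Rs j).card + 1) * n ≤ (Rs i).card * n := Nat.mul_le_mul_right n h4
    have h6 := (m j).isLt
    simp only [c]
    rw [add_mul, one_mul] at h5
    omega
  have hback : ∀ i j, c i = c j → R i j := by
    intro i j hij
    have h1 := (m i).isLt
    have h2 := (m j).isLt
    have hn : 0 < n := by omega
    have e1 : c i % n = (m i).val := by
      simp only [c]; rw [Nat.mul_comm, Nat.mul_add_mod, Nat.mod_eq_of_lt h1]
    have e2 : c j % n = (m j).val := by
      simp only [c]; rw [Nat.mul_comm, Nat.mul_add_mod, Nat.mod_eq_of_lt h2]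
    have e3 : m i = m j := Fin.ext (by rw [← e1, ← e2, hij])
    have := (hm i).1
    rw [e3] at this
    exact this.trans (hm j).2
  refine ⟨c, fun i j hij => ?_, fun S _ hSb hS i hi j hj => ?_⟩
  · by_contra h
    have h1 : R i j := Relation.ReflTransGen.single h
    by_cases h2 : R j i
    · exact absurd (heq i j h1 h2) hij.ne
    · exact absurd (hlt i j h1 h2) (by omega)
  · have hji : R j i := hback j i hj
    have claim : ∀ x, R i x → R x j → x ∈ S := by
      intro x hx
      induction hx with
      | refl => intro _; exact hi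
      | @tail y z hy hyz ih =>
        intro hzj
        have hyj : R y j := Relation.ReflTransGen.head hyz hzj
        have hyS := ih hyj
        by_contra hzS
        have hcz : c z = c y := by
          have h1 : R z y := (hzj.trans hji).trans hy
          exact heq z y h1 (Relation.ReflTransGen.single hyz)
        exact hyz (hS y hyS z hcz hzS)
    exact claim j (hback i j hj.symm) Relation.ReflTransGen.refl

/-- phases in general position -/
theorem exists_phases (H : Fin n → Fin n → ℂ) : ∃ G : Fin n → ℂ, (∀ i, G i ≠ 0) ∧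
    ∀ j k, j ≠ k → H j k ≠ 0 → (conj (G j) * H j k * G k).im ≠ 0 := by
  have key : ∀ j k : Fin n, j ≠ k → H j k ≠ 0 → ∀ᶠ s : ℝ in 𝓝[>] (0 : ℝ),
      (H j k).im * (1 + s ^ (j.val + k.val + 2)) + (H j k).re * (s ^ (k.val + 1) - s ^ (j.val + 1)) ≠ 0 := by
    intro j k hjk hH
    let Q : Polynomial ℂ := Polynomial.C ((H j k).im : ℂ) * (1 + Polynomial.X ^ (j.val + k.val + 2))
      + Polynomial.C ((H j k).re : ℂ) * (Polynomial.X ^ (k.val + 1) - Polynomial.X ^ (j.val + 1))
    have hev : ∀ s : ℝ, Q.eval (s : ℂ) = (((H j k).im * (1 + s ^ (j.val + k.val + 2))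
        + (H j k).re * (s ^ (k.val + 1) - s ^ (j.val + 1)) : ℝ) : ℂ) := by
      intro s
      simp [Q]
    have hQ : Q ≠ 0 := by
      intro h0
      by_cases him : (H j k).im = 0
      · have hre : (H j k).re ≠ 0 := fun hre => hH (Complex.ext hre him)
        have h1 := hev 2
        rw [h0, Polynomial.eval_zero, him, zero_mul, zero_add] at h1
        have h2 : (H j k).re * ((2 : ℝ) ^ (k.val + 1) - 2 ^ (j.val + 1)) = 0 := by exact_mod_cast h1.symm
        rcases mul_eq_zero.mp h2 with h | h
        · exact hre h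
        · have h3 : (2 : ℝ) ^ (k.val + 1) = 2 ^ (j.val + 1) := by linarith
          have h4 := pow_right_injective₀ (by norm_num : (0 : ℝ) < 2) (by norm_num : (2 : ℝ) ≠ 1) h3
          exact hjk (Fin.ext (by omega))
      · have h1 := hev 0
        rw [h0, Polynomial.eval_zero] at h1
        have h2 : (H j k).im * (1 + (0 : ℝ) ^ (j.val + k.val + 2))
            + (H j k).re * ((0 : ℝ) ^ (k.val + 1) - 0 ^ (j.val + 1)) = 0 := by exact_mod_cast h1.symm
        rw [zero_pow (by omega), zero_pow (by omega), zero_pow (by omega)] at h2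
        apply him
        linarith
    filter_upwards [eventually_eval_ne hQ] with s hs h0
    rw [hev, h0] at hs
    exact hs (by simp)
  have hall : ∀ᶠ s : ℝ in 𝓝[>] (0 : ℝ), ∀ j k : Fin n, j ≠ k → H j k ≠ 0 →
      (H j k).im * (1 + s ^ (j.val + k.val + 2)) + (H j k).re * (s ^ (k.val + 1) - s ^ (j.val + 1)) ≠ 0 := by
    simp only [eventually_all]
    exact key
  obtain ⟨s, hs⟩ := hall.exists
  refine ⟨fun j => ⟨1, s ^ (j.val + 1)⟩, fun i h => ?_, fun j k hjk hH => ?_⟩
  · have := congrArg Complex.re h
    simp at this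
  · have h1 := hs j k hjk hH
    have e : (conj (⟨1, s ^ (j.val + 1)⟩ : ℂ) * H j k * (⟨1, s ^ (k.val + 1)⟩ : ℂ)).im
        = (H j k).im * (1 + s ^ (j.val + k.val + 2)) + (H j k).re * (s ^ (k.val + 1) - s ^ (j.val + 1)) := by
      simp only [Complex.mul_im, Complex.mul_re, Complex.conj_re, Complex.conj_im]
      have e1 : s ^ (j.val + k.val + 2) = s ^ (j.val + 1) * s ^ (k.val + 1) := by
        rw [← pow_add]; congr 1; omega
      rw [e1]; ring
    rw [e]; exact h1

/-- Among the block triangular matrices with at least two blocks and given GKK diagonal blocks those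
in general position are dense. -/
theorem exists_general {A : Matrix (Fin n) (Fin n) ℂ} (hA : IsGKK A) {c : Fin n → ℕ}
    (hne : ∃ i j, c i ≠ c j) {ε : ℝ} (hε : 0 < ε) :
    ∃ A' : Matrix (Fin n) (Fin n) ℂ, (∀ i j, c i ≤ c j → A' i j = A i j) ∧
      (∀ i j, ‖A' i j - A i j‖ < ε) ∧ GeneralPosition A' c := by
  classical
  obtain ⟨hP, hap⟩ := (isGKK_iff A).mp hA
  have hp : ∀ i j, i ≠ j → 0 ≤ A i j * A j i := by
    intro i j hij
    rw [← ap_empty A hij]; exact hap ∅ i j (by simp) (by simp) hij
  obtain ⟨G, hG0, hG⟩ := exists_phases fun i j => (A + Aᴴ) i j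
  have hoo : ∀ b : ℕ, ∃ o, c o ≠ b := by
    intro b
    obtain ⟨i, j, hij⟩ := hne
    by_cases h : c i = b
    · exact ⟨j, fun h' => hij (h.trans h'.symm)⟩
    · exact ⟨i, h⟩
  choose oo hoo using hoo
  let F : ℝ → Matrix (Fin n) (Fin n) ℂ := fun t => Matrix.of fun i j =>
    if c i ≤ c j then A i j else A i j + t * (G i * conj (G j))
  have hF : ∀ t i j, c i ≠ c j → (F t + (F t)ᴴ) i j = (A + Aᴴ) i j + t * (G i * conj (G j)) := by
    intro t i j hij
    rw [herm_apply, herm_apply]
    simp only [F, of_apply]
    rcases lt_or_gt_of_ne hij with h | h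
    · rw [if_pos h.le, if_neg (by omega)]
      simp only [map_add, map_mul, Complex.conj_ofReal, Complex.conj_conj]
      ring
    · rw [if_neg (by omega), if_pos (le_of_lt h)]
      ring
  have hF2 : ∀ t i j, c i = c j → (F t + (F t)ᴴ) i j = (A + Aᴴ) i j := by
    intro t i j hij
    rw [herm_apply, herm_apply]
    simp only [F, of_apply]
    rw [if_pos hij.le, if_pos hij.ge]
  have key : ∀ j k : Fin n, j ≠ k → c j = c k → (A + Aᴴ) j k ≠ 0 → ∀ᶠ t : ℝ in 𝓝[>] (0 : ℝ),
      ((F t + (F t)ᴴ) (oo (c j)) j * (F t + (F t)ᴴ) j k * (F t + (F t)ᴴ) k (oo (c j))).im ≠ 0 := by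
    intro j k hjk hc hH
    set o := oo (c j) with ho
    have h1 : c o ≠ c j := hoo (c j)
    have h2 : c k ≠ c o := by rw [← hc]; exact h1.symm
    set a := (A + Aᴴ) o j with ha
    set h := (A + Aᴴ) j k with hh
    set b := (A + Aᴴ) k o with hb
    set u := G o * conj (G j) with hu
    set v := G k * conj (G o) with hv
    let Q : Polynomial ℂ := (Polynomial.C a + Polynomial.X * Polynomial.C u) * Polynomial.C h *
        (Polynomial.C b + Polynomial.X * Polynomial.C v)
      - (Polynomial.C (conj a) + Polynomial.X * Polynomial.C (conj u)) * Polynomial.C (conj h) *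
        (Polynomial.C (conj b) + Polynomial.X * Polynomial.C (conj v))
    have hev : ∀ z : ℂ, Q.eval z = (a + z * u) * h * (b + z * v)
        - (conj a + z * conj u) * conj h * (conj b + z * conj v) := by
      intro z
      simp [Q]
      ring
    have hcoef : Q.coeff 2 = u * h * v - conj (u * h * v) := by
      have e : Q = Polynomial.C (a * h * b - conj a * conj h * conj b)
          + Polynomial.C (a * h * v + u * h * b - (conj a * conj h * conj v + conj u * conj h * conj b)) *
            Polynomial.X
          + Polynomial.C (u * h * v - conj (u * h * v)) * Polynomial.X ^ 2 := by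
        simp only [Q, map_sub, map_add, map_mul]
        ring
      rw [e]
      simp only [Polynomial.coeff_add, Polynomial.coeff_C_mul, Polynomial.coeff_X_pow, Polynomial.coeff_X,
        Polynomial.coeff_C]
      norm_num
    have hQ : Q ≠ 0 := by
      intro h0
      rw [h0, Polynomial.coeff_zero] at hcoef
      have h3 : (u * h * v).im = 0 := by
        apply Complex.conj_eq_iff_im.mp
        exact (sub_eq_zero.mp hcoef.symm).symm
      have h4 : u * h * v = ((Complex.normSq (G o) : ℝ) : ℂ) * (conj (G j) * h * G k) := by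
        rw [← Complex.mul_conj]; simp only [hu, hv]; ring
      rw [h4, Complex.im_ofReal_mul] at h3
      rcases mul_eq_zero.mp h3 with h5 | h5
      · exact hG0 o (Complex.normSq_eq_zero.mp h5)
      · exact hG j k hjk hH h5
    filter_upwards [eventually_eval_ne hQ] with t ht h0
    apply ht
    rw [hF t o j h1, hF2 t j k hc, hF t k o h2, ← ha, ← hh, ← hb, ← hu, ← hv] at h0
    rw [hev, sub_eq_zero]
    have h5 := Complex.conj_eq_iff_im.mpr h0
    rw [← h5]
    simp only [map_mul, map_add, Complex.conj_ofReal]
  have hall : ∀ᶠ t : ℝ in 𝓝[>] (0 : ℝ), ∀ j k : Fin n, j ≠ k → c j = c k → (A + Aᴴ) j k ≠ 0 →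
      ((F t + (F t)ᴴ) (oo (c j)) j * (F t + (F t)ᴴ) j k * (F t + (F t)ᴴ) k (oo (c j))).im ≠ 0 := by
    simp only [eventually_all]
    exact key
  have hsmall : ∀ᶠ t : ℝ in 𝓝[>] (0 : ℝ), ∀ i j, ‖F t i j - A i j‖ < ε := by
    simp only [eventually_all]
    intro i j
    have hc : ContinuousAt (fun t : ℝ => ‖F t i j - A i j‖) 0 := by
      simp only [F, of_apply]
      split_ifs
      · fun_prop
      · fun_prop
    have h0 : ‖F 0 i j - A i j‖ < ε := by
      simp only [F, of_apply]
      split_ifs
      · simpa using hε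
      · simpa using hε
    exact (hc.tendsto.eventually_lt_const h0).filter_mono nhdsWithin_le_nhds
  obtain ⟨t, h1, h2⟩ := (hall.and hsmall).exists
  refine ⟨F t, fun i j hij => ?_, h2, fun b _ => ⟨oo b, fun j k hj hk hjk _ _ hA0 => ?_⟩⟩
  · simp only [F, of_apply, if_pos hij]
  · subst hj
    refine h1 j k hjk hk.symm fun h0 => ?_
    have h3 : F t j k = A j k := by simp only [F, of_apply, if_pos hk.ge]
    rw [h3] at hA0
    obtain ⟨s, hs, hse⟩ := conj_eq_of_mul_nonneg (hp j k hjk) hA0
    rw [herm_apply, hse] at h0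
    have h4 : ((1 + s : ℝ) : ℂ) * A j k = 0 := by push_cast; rw [← h0]; ring
    rcases mul_eq_zero.mp h4 with h5 | h5
    · have : (1 + s : ℝ) = 0 := by exact_mod_cast h5
      linarith
    · exact hA0 h5

end Pool.Agent.Helper69.GKK
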