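import Mathlib
import Pool.Agent.Helper69.GKK.Frob
import Pool.Agent.Helper85.SVG.Main

/-!
The criterion for GKK matrices in general position.
-/

namespace Pool.Agent.Helper69.GKK

open Matrix Finset Filter Topology
open Pool.Agent.Helper5.GKK
open scoped ComplexOrder ComplexConjugate

variable {n : ℕ}

/-- principal minors of a block triangular matrix depend on the diagonal blocks only -/
theorem pm_block {A A' : Matrix (Fin n) (Fin n) ℂ} {c : Fin n → ℕ} (h0 : ∀ i j, c i < c j → A i j = 0)
    (h0' : ∀ i j, c i < c j → A' i j = 0) (h : ∀ i j, c i = c j → A' i j = A i j) (S : Finset (Fin n)) :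
    pm A' S = pm A S := by
  have e1 : (A.submatrix (Subtype.val : S → Fin n) Subtype.val).BlockTriangular
      (fun x : S => OrderDual.toDual (c x.val)) := fun i j hij => h0 i.val j.val (OrderDual.toDual_lt_toDual.mp hij)
  have e2 : (A'.submatrix (Subtype.val : S → Fin n) Subtype.val).BlockTriangular
      (fun x : S => OrderDual.toDual (c x.val)) := fun i j hij => h0' i.val j.val (OrderDual.toDual_lt_toDual.mp hij)
  rw [pm, pm, e1.det, e2.det]
  refine Finset.prod_congr rfl fun a _ => ?_
  congr 1
  ext i j
  simp only [toSquareBlock_def, of_apply, submatrix_apply]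
  apply h
  have hi := i.2
  have hj := j.2
  have := hi.trans hj.symm
  exact OrderDual.toDual_inj.mp this

theorem isGKK_block {A A' : Matrix (Fin n) (Fin n) ℂ} (hA : IsGKK A) {c : Fin n → ℕ}
    (h0 : ∀ i j, c i < c j → A i j = 0) (h : ∀ i j, c i ≤ c j → A' i j = A i j) : IsGKK A' := by
  have e : ∀ S, pm A' S = pm A S := pm_block h0 (fun i j hij => (h i j hij.le).trans (h0 i j hij))
    fun i j hij => h i j hij.le
  rw [isGKK_iff] at hA ⊢
  refine ⟨fun S => by rw [e]; exact hA.1 S, fun K i j hi hj hij => ?_⟩
  have := hA.2 K i j hi hj hij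
  simpa only [ap, e] using this

/-- `A` is in general position with respect to the diagonal blocks given by `c`: either no almost
principal minor of `A` vanishes without its transposed minor, or for every block of order at least
three there is an index `o` (in the block or not) such that `h o j * h j k * h k o` is not real, where
`h = A + Aᴴ`, for all `j ≠ k` other than `o` in the block with `A j k ≠ 0`. -/
def InGeneralPosition (A : Matrix (Fin n) (Fin n) ℂ) (c : Fin n → ℕ) : Prop :=
  (∀ (k : ℕ) (α β : Fin k → Fin n), AlmostPrincipal α β → (minor A α β = 0 ↔ minor A β α = 0)) ∨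
    GeneralPosition A c

theorem symm_vanish {A : Matrix (Fin n) (Fin n) ℂ}
    (h : ∀ (k : ℕ) (α β : Fin k → Fin n), AlmostPrincipal α β → (minor A α β = 0 ↔ minor A β α = 0))
    {i j : Fin n} (hij : i ≠ j) : A i j = 0 ↔ A j i = 0 := by
  have h1 := h 1 (fun _ => i) (fun _ => j) ⟨fun a b hab => absurd hab (by
    rw [Subsingleton.elim a b]; exact lt_irrefl _), fun a b hab => absurd hab (by
    rw [Subsingleton.elim a b]; exact lt_irrefl _), by
    have e : univ.image (fun _ : Fin 1 => i) ∩ univ.image (fun _ : Fin 1 => j) = ∅ := by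
      ext x
      simp only [mem_inter, mem_image, mem_univ, true_and, notMem_empty, iff_false, not_and]
      rintro ⟨_, rfl⟩ ⟨_, hx⟩
      exact hij hx.symm
    rw [e]; rfl⟩
  simpa [minor] using h1

/-- A direct sum of irreducible GKK blocks in general position has symmetrizable blocks. -/
theorem direct_symm {A : Matrix (Fin n) (Fin n) ℂ} (hA : IsGKK A) {c : Fin n → ℕ}
    (h0 : ∀ i j, c i ≠ c j → A i j = 0) (hirr : IrreducibleBlocks A c) (hg : GeneralPosition A c) :
    ∃ w : Fin n → ℝ, (∀ i, 0 < w i) ∧ ∀ i j, c i = c j → (w i : ℂ) * A i j = w j * conj (A j i) := by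
  have hb : ∀ b, ∃ w : Fin n → ℝ, (∀ i, 0 < w i) ∧
      ∀ i j, c i = b → c j = b → (w i : ℂ) * A i j = w j * conj (A j i) := by
    intro b
    by_cases h3 : 3 ≤ (univ.filter fun i => c i = b).card
    · obtain ⟨o, h⟩ := hg b h3
      by_cases ho : c o = b
      · subst ho
        exact self_symm hA hirr h
      · exfalso
        obtain ⟨i, hi⟩ : (univ.filter fun i => c i = b).Nonempty := card_pos.mp (by omega)
        simp only [mem_filter, mem_univ, true_and] at hi
        have hedge : ∃ j, c j = b ∧ j ≠ i ∧ A i j ≠ 0 := by
          by_contra hno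
          push Not at hno
          have hS := hirr {i} ⟨i, by simp⟩ (by simp) (by
            intro x hx j hj hjS
            simp only [mem_singleton] at hx hjS
            subst hx
            exact hno j (hj.trans hi) hjS) i (by simp)
          have hsub : (univ.filter fun i => c i = b) ⊆ {i} := by
            intro j hj
            simp only [mem_filter, mem_univ, true_and] at hj
            exact hS j (hj.trans hi.symm)
          have := card_le_card hsub
          rw [card_singleton] at this
          omega
        obtain ⟨j, hj, hji, hij⟩ := hedge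
        apply h i j hi hj hji.symm (fun h => ho (h ▸ hi)) (fun h => ho (h ▸ hj)) hij
        have e : (A + Aᴴ) o i = 0 := by
          rw [herm_apply, h0 o i (by rw [hi]; exact ho), h0 i o (by rw [hi]; exact Ne.symm ho)]
          simp
        rw [e, zero_mul, zero_mul, Complex.zero_im]
    · exact small_symm hA hirr h3
  choose w hw hs using hb
  refine ⟨fun i => w (c i) i, fun i => hw _ i, fun i j hij => ?_⟩
  have := hs (c i) i j rfl hij.symm
  simpa [hij] using this

/-- **The criterion.** -/
theorem general_iff {A : Matrix (Fin n) (Fin n) ℂ} (hA : IsGKK A) {c : Fin n → ℕ}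
    (ht : ∀ i j, c i < c j → A i j = 0) (hirr : IrreducibleBlocks A c) (hg : InGeneralPosition A c) :
    A ∈ closure {B : Matrix (Fin n) (Fin n) ℂ | IsStrictGKK B} ↔
      (∀ i j, c i ≠ c j → A i j = 0) ∨ ∃ w : Fin n → ℝ, (∀ i, 0 < w i) ∧
        ∀ i j, c i = c j → (w i : ℂ) * A i j = w j * conj (A j i) := by
  rcases hg with hg | hg
  · refine ⟨fun _ => Or.inl fun i j hij => ?_, fun _ => ?_⟩
    · have hne : i ≠ j := fun h => hij (congrArg c h)
      rcases lt_or_gt_of_ne hij with h | h
      · exact ht i j h
      · exact (symm_vanish hg hne).mpr (ht j i h)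
    · obtain ⟨C, hC⟩ := (Pool.Agent.Helper85.SVG.main hA.1).mp ⟨hA, hg⟩
      exact closure_mono (fun X hX => hX.1) hC
  · rw [reducible_iff hA ht hirr hg]
    exact ⟨Or.inr, fun h => h.elim (fun h0 => direct_symm hA h0 hirr hg) id⟩

end Pool.Agent.Helper69.GKK
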