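import Mathlib
import Pool.Agent.Helper69.GKK.Main
import Pool.Agent.Helper69.GKK.Exist

/-!
Limits of strict GKK matrices without rank one cut.
-/

namespace Pool.Agent.Helper69.GKK

open Matrix Finset Filter Topology
open Pool.Agent.Helper5.GKK
open scoped ComplexOrder ComplexConjugate

variable {n : ℕ}

theorem isClosed_realOn (T : Finset (Fin n)) : IsClosed {A : Matrix (Fin n) (Fin n) ℂ | RealOn T A} := by
  let S : Set (Matrix (Fin n) (Fin n) ℂ × (Fin n → Circle)) :=
    {p | ∀ i ∈ T, ∀ j ∈ T, (conj (p.2 i : ℂ) * p.1 i j * (p.2 j : ℂ)).im = 0}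
  have hS : IsClosed S := by
    simp only [S, Set.ofPred_forall]
    refine isClosed_iInter fun i => isClosed_iInter fun _ => isClosed_iInter fun j => isClosed_iInter fun _ => ?_
    refine isClosed_eq (Complex.continuous_im.comp ?_) continuous_const
    have h1 : ∀ i, Continuous fun p : Matrix (Fin n) (Fin n) ℂ × (Fin n → Circle) => (p.2 i : ℂ) := fun i =>
      continuous_subtype_val.comp ((continuous_apply i).comp continuous_snd)
    exact ((Complex.continuous_conj.comp (h1 i)).mul (continuous_fst.matrix_elem i j)).mul (h1 j)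
  have e : {A : Matrix (Fin n) (Fin n) ℂ | RealOn T A} = Prod.fst '' S := by
    ext A
    simp only [Set.mem_ofPred_eq, Set.mem_image, S]
    constructor
    · rintro ⟨g, hg, h⟩
      refine ⟨(A, fun i => ⟨g i, mem_sphere_zero_iff_norm.mpr (hg i)⟩), h, rfl⟩
    · rintro ⟨⟨A', g⟩, h, rfl⟩
      exact ⟨fun i => (g i : ℂ), fun i => Circle.norm_coe _, h⟩
  rw [e]
  exact isClosedMap_fst_of_compactSpace _ hS

theorem isClosed_cutOn (T : Finset (Fin n)) : IsClosed {A : Matrix (Fin n) (Fin n) ℂ | CutOn T A} := by
  have e : {A : Matrix (Fin n) (Fin n) ℂ | CutOn T A} =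
      ⋃ α : Finset (Fin n), ⋃ β : Finset (Fin n), {A | Disjoint α β ∧ α ∪ β = T ∧ 2 ≤ α.card ∧ 2 ≤ β.card ∧
        ∀ i ∈ α, ∀ j ∈ α, ∀ k ∈ β, ∀ l ∈ β, A i k * A j l = A i l * A j k ∧ A k i * A l j = A l i * A k j} := by
    ext A
    simp only [CutOn, Set.mem_ofPred_eq, Set.mem_iUnion]
  rw [e]
  refine isClosed_iUnion_of_finite fun α => isClosed_iUnion_of_finite fun β => ?_
  have hc : ∀ i j : Fin n, Continuous fun A : Matrix (Fin n) (Fin n) ℂ => A i j :=
    fun i j => continuous_id.matrix_elem i j
  simp only [Set.ofPred_and, Set.ofPred_forall]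
  refine isClosed_const.inter (isClosed_const.inter (isClosed_const.inter (isClosed_const.inter ?_)))
  refine isClosed_iInter fun i => isClosed_iInter fun _ => isClosed_iInter fun j => isClosed_iInter fun _ =>
    isClosed_iInter fun k => isClosed_iInter fun _ => isClosed_iInter fun l => isClosed_iInter fun _ => ?_
  exact (isClosed_eq ((hc i k).mul (hc j l)) ((hc i l).mul (hc j k))).inter
    (isClosed_eq ((hc k i).mul (hc l j)) ((hc l i).mul (hc k j)))

/-- the part of `X` on the index set `T` -/
def res (T : Finset (Fin n)) (X : Matrix (Fin n) (Fin n) ℂ) : Matrix (Fin n) (Fin n) ℂ :=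
  Matrix.of fun i j => if i ∈ T ∧ j ∈ T then X i j else 0

theorem continuous_res (T : Finset (Fin n)) : Continuous (res T) := by
  refine continuous_matrix fun i j => ?_
  simp only [res, of_apply]
  split_ifs
  · exact continuous_id.matrix_elem i j
  · exact continuous_const

theorem res_apply {T : Finset (Fin n)} (X : Matrix (Fin n) (Fin n) ℂ) {i j : Fin n} (hi : i ∈ T) (hj : j ∈ T) :
    res T X i j = X i j := by
  simp only [res, of_apply, if_pos (And.intro hi hj)]

/-- a strict GKK matrix without cut is symmetrizable or real -/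
theorem strict_alt {X : Matrix (Fin n) (Fin n) ℂ} (hX : IsStrictGKK X) {T : Finset (Fin n)}
    (hcut : ¬ CutOn T X) : Symmetrizable (res T X) ∨ RealOn T X := by
  have h := SG.of_strict hX T
  rcases balanced_or_real h hcut with hb | hb
  · left
    obtain ⟨w, hw, hs⟩ := symm_of_balanced h hb
    refine ⟨w, hw, fun i j => ?_⟩
    by_cases hij : i ∈ T ∧ j ∈ T
    · rw [res_apply X hij.1 hij.2, res_apply X hij.2 hij.1]
      exact hs i hij.1 j hij.2
    · have hji : ¬ (j ∈ T ∧ i ∈ T) := fun h => hij ⟨h.2, h.1⟩
      simp only [res, of_apply, if_neg hij, if_neg hji]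
      simp
  · right
    exact real_of_real h hb

/-- the part of a limit of strict GKK matrices without cut that is not real is a limit of symmetrizable
matrices -/
theorem symm_of_noCut {A : Matrix (Fin n) (Fin n) ℂ} {T : Finset (Fin n)}
    (hA : A ∈ closure {B : Matrix (Fin n) (Fin n) ℂ | IsStrictGKK B}) (h1 : ¬ CutOn T A)
    (h2 : ¬ RealOn T A) : res T A ∈ closure {X : Matrix (Fin n) (Fin n) ℂ | Symmetrizable X} := by
  rw [mem_closure_iff_frequently] at hA ⊢
  have e1 : ∀ᶠ X in 𝓝 A, ¬ CutOn T (X : Matrix (Fin n) (Fin n) ℂ) := (isClosed_cutOn T).isOpen_compl.mem_nhds h1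
  have e2 : ∀ᶠ X in 𝓝 A, ¬ RealOn T X := (isClosed_realOn T).isOpen_compl.mem_nhds h2
  have h3 : ∃ᶠ X in 𝓝 A, Symmetrizable (res T X) :=
    ((hA.and_eventually e1).and_eventually e2).mono fun X hX =>
      (strict_alt hX.1.1 hX.1.2).resolve_right hX.2
  exact (continuous_res T).continuousAt.tendsto.frequently h3

/-- if a matrix that contains an irreducible block of `A` is a limit of symmetrizable matrices, then the
block is symmetrizable -/
theorem block_symm' {A M : Matrix (Fin n) (Fin n) ℂ} {c : Fin n → ℕ} (hirr : IrreducibleBlocks A c) {b : ℕ}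
    (hM : ∀ i j, c i = b → c j = b → M i j = A i j)
    (h : M ∈ closure {X : Matrix (Fin n) (Fin n) ℂ | Symmetrizable X}) :
    ∃ w : Fin n → ℝ, (∀ i, 0 < w i) ∧ ∀ i j, c i = b → c j = b → (w i : ℂ) * A i j = w j * conj (A j i) := by
  obtain ⟨ℓ, w, hw, h0, h1⟩ := exists_block h
  refine ⟨w, hw, fun i j hi hj => ?_⟩
  have hconst : ∀ i j, c i = b → c j = b → ℓ i = ℓ j := by
    intro i j hi hj
    obtain ⟨m, hm, hmin⟩ := Finset.exists_min_image (univ.filter fun i => c i = b) ℓ ⟨i, by simpa using hi⟩
    simp only [mem_filter, mem_univ, true_and] at hm hmin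
    have hS := hirr (univ.filter fun i => c i = b ∧ ℓ i = ℓ m) ⟨m, by simpa using hm⟩
      (by
        intro x hx y hy
        simp only [mem_filter, mem_univ, true_and] at hx hy
        rw [hx.1, hy.1])
      (by
        intro x hx y hy hyS
        simp only [mem_filter, mem_univ, true_and, not_and] at hx hy hyS
        have hyb : c y = b := hy.trans hx.1
        have h2 : ℓ x < ℓ y := by
          rw [hx.2]
          exact lt_of_le_of_ne (hmin y hyb) (Ne.symm (hyS hyb))
        have h3 := h0 x y h2
        rwa [hM x y hx.1 hyb] at h3)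
      m (by simpa using hm)
    have e1 : ℓ i = ℓ m := by
      have := hS i (hi.trans hm.symm)
      simp only [mem_filter, mem_univ, true_and] at this
      exact this.2
    have e2 : ℓ j = ℓ m := by
      have := hS j (hj.trans hm.symm)
      simp only [mem_filter, mem_univ, true_and] at this
      exact this.2
    rw [e1, e2]
  have h2 := h1 i j (hconst i j hi hj)
  rwa [hM i j hi hj, hM j i hj hi] at h2

theorem linked_iff {A : Matrix (Fin n) (Fin n) ℂ} {c : Fin n → ℕ} (ht : ∀ i j, c i < c j → A i j = 0)
    (hirr : IrreducibleBlocks A c) (i j : Fin n) : Linked A i j ↔ c i = c j := by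
  classical
  have hle : ∀ i j, Relation.ReflTransGen (fun i j => A i j ≠ 0) i j → c j ≤ c i := by
    intro i j h
    induction h with
    | refl => exact le_rfl
    | tail _ hyz ih =>
      refine le_trans ?_ ih
      by_contra hh
      exact hyz (ht _ _ (not_le.mp hh))
  constructor
  · rintro ⟨h1, h2⟩
    exact le_antisymm (hle _ _ h2) (hle _ _ h1)
  · have key : ∀ i j, c i = c j → Relation.ReflTransGen (fun i j => A i j ≠ 0) i j := by
      intro i j hij
      have hS := hirr (univ.filter fun k => c k = c i ∧ Relation.ReflTransGen (fun i j => A i j ≠ 0) i k)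
        ⟨i, by simp only [mem_filter, mem_univ, true_and]; exact Relation.ReflTransGen.refl⟩
        (by
          intro x hx y hy
          simp only [mem_filter, mem_univ, true_and] at hx hy
          rw [hx.1, hy.1])
        (by
          intro x hx y hy hyS
          simp only [mem_filter, mem_univ, true_and, not_and] at hx hyS
          by_contra hxy
          exact hyS (hy.trans hx.1) (hx.2.tail hxy))
        i (by simp only [mem_filter, mem_univ, true_and]; exact Relation.ReflTransGen.refl) j hij.symm
      simp only [mem_filter, mem_univ, true_and] at hS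
      exact hS.2
    intro hij
    exact ⟨key i j hij, key j i hij.symm⟩

theorem mem_of_hermitianBlocks {A : Matrix (Fin n) (Fin n) ℂ} (hA : IsGKK A) (h : HermitianBlocks A) :
    A ∈ closure {B : Matrix (Fin n) (Fin n) ℂ | IsStrictGKK B} := by
  obtain ⟨c, ht, hirr⟩ := exists_blocks A
  obtain ⟨w, hw, hs⟩ := h
  have h := block_mem_closure ((isGKK_iff A).mp hA).1 c hw ht
    fun i j hij => hs i j ((linked_iff ht hirr i j).mpr hij)
  exact closure_mono (fun X hX => hX.1) h

theorem hermitianBlocks_of_nonreal {A : Matrix (Fin n) (Fin n) ℂ} (hA : IsGKK A) (hN : NonrealPosition A)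
    (hL : A ∈ closure {B : Matrix (Fin n) (Fin n) ℂ | IsStrictGKK B}) : HermitianBlocks A := by
  obtain ⟨c, ht, hirr⟩ := exists_blocks A
  have hb : ∀ b, ∃ w : Fin n → ℝ, (∀ i, 0 < w i) ∧
      ∀ i j, c i = b → c j = b → (w i : ℂ) * A i j = w j * conj (A j i) := by
    intro b
    by_cases h3 : 3 ≤ (univ.filter fun i => c i = b).card
    · obtain ⟨i, j, k, hi, hj, hk, hij, hik, hjk⟩ := Finset.two_lt_card_iff.mp (show 2 < _ from h3)
      simp only [mem_filter, mem_univ, true_and] at hi hj hk
      obtain ⟨T, hT, h1, h2⟩ := hN i j k hij hik hjk ((linked_iff ht hirr i j).mpr (hi.trans hj.symm))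
        ((linked_iff ht hirr i k).mpr (hi.trans hk.symm))
      have hT' : ∀ l, c l = b → l ∈ T := fun l hl => hT l ((linked_iff ht hirr i l).mpr (hi.trans hl.symm))
      exact block_symm' hirr (fun x y hx hy => res_apply A (hT' x hx) (hT' y hy)) (symm_of_noCut hL h1 h2)
    · exact small_symm hA hirr h3
  choose w hw hs using hb
  refine ⟨fun i => w (c i) i, fun i => hw _ i, fun i j hij => ?_⟩
  rw [linked_iff ht hirr] at hij
  have := hs (c i) i j rfl hij.symm
  simpa [hij] using this

end Pool.Agent.Helper69.GKK
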