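import Mathlib
import Pool.Agent.Helper69.GKK.Close

/-!
Reducible matrices whose blocks are in nonreal position are dense.
-/

namespace Pool.Agent.Helper69.GKK

open Matrix Finset Filter Topology
open Pool.Agent.Helper5.GKK
open scoped ComplexOrder ComplexConjugate

variable {n : ℕ}

private theorem phase_lin (x y : ℂ) {k l : Fin n} (hkl : k ≠ l) (hx : x ≠ 0) : ∀ᶠ s : ℝ in 𝓝[>] (0 : ℝ),
    x * (⟨1, s ^ (l.val + 1)⟩ : ℂ) ≠ y * (⟨1, s ^ (k.val + 1)⟩ : ℂ) := by
  let Q : Polynomial ℂ := Polynomial.C x * (1 + Polynomial.C Complex.I * Polynomial.X ^ (l.val + 1))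
    - Polynomial.C y * (1 + Polynomial.C Complex.I * Polynomial.X ^ (k.val + 1))
  have hG : ∀ (s : ℝ) (m : ℕ), (⟨1, s ^ m⟩ : ℂ) = 1 + Complex.I * (s : ℂ) ^ m := by
    intro s m
    have e : (s : ℂ) ^ m = ((s ^ m : ℝ) : ℂ) := (Complex.ofReal_pow s m).symm
    rw [e]
    generalize s ^ m = r
    apply Complex.ext <;> simp
  have hev : ∀ s : ℝ, Q.eval (s : ℂ) = x * (⟨1, s ^ (l.val + 1)⟩ : ℂ) - y * (⟨1, s ^ (k.val + 1)⟩ : ℂ) := by
    intro s
    rw [hG, hG]
    simp [Q]
  have hQ : Q ≠ 0 := by
    intro h0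
    have hv : k.val ≠ l.val := fun h => hkl (Fin.ext h)
    have h1 : Q.coeff (l.val + 1) = x * Complex.I := by
      simp only [Q, mul_add, mul_one, Polynomial.coeff_sub, Polynomial.coeff_add, Polynomial.coeff_C_mul,
        Polynomial.coeff_X_pow, Polynomial.coeff_C]
      simp [Ne.symm hv]
    rw [h0, Polynomial.coeff_zero] at h1
    exact mul_ne_zero hx Complex.I_ne_zero h1.symm
  filter_upwards [eventually_eval_ne hQ] with s hs h0
  rw [hev, h0, sub_self] at hs
  exact hs rfl

/-- phases in general position -/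
theorem exists_phases2 (A H : Fin n → Fin n → ℂ) : ∃ G : Fin n → ℂ, (∀ i, G i ≠ 0) ∧
    (∀ j k, j ≠ k → H j k ≠ 0 → (conj (G j) * H j k * G k).im ≠ 0) ∧
    (∀ i k l, k ≠ l → A i k ≠ 0 → A i k * conj (G l) ≠ A i l * conj (G k)) ∧
    (∀ i k l, k ≠ l → A k i ≠ 0 → A k i * G l ≠ A l i * G k) := by
  have key : ∀ j k : Fin n, j ≠ k → H j k ≠ 0 → ∀ᶠ s : ℝ in 𝓝[>] (0 : ℝ),
      (H j k).im * (1 + s ^ (j.val + k.val + 2)) + (H j k).re * (s ^ (k.val + 1) - s ^ (j.val + 1)) ≠ 0 := by
    intro j k hjk hH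
    let Q : Polynomial ℂ := Polynomial.C ((H j k).im : ℂ) * (1 + Polynomial.X ^ (j.val + k.val + 2))
      + Polynomial.C ((H j k).re : ℂ) * (Polynomial.X ^ (k.val + 1) - Polynomial.X ^ (j.val + 1))
    have hev : ∀ s : ℝ, Q.eval (s : ℂ) = (((H j k).im * (1 + s ^ (j.val + k.val + 2))
        + (H j k).re * (s ^ (k.val + 1) - s ^ (j.val + 1)) : ℝ) : ℂ) := by
      intro s
      simp [Q]
    have hQ : Q ≠ 0 := by
      intro h0
      by_cases him : (H j k).im = 0
      · have hre : (H j k).re ≠ 0 := fun hre => hH (Complex.ext hre him)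
        have h1 := hev 2
        rw [h0, Polynomial.eval_zero, him, zero_mul, zero_add] at h1
        have h2 : (H j k).re * ((2 : ℝ) ^ (k.val + 1) - 2 ^ (j.val + 1)) = 0 := by exact_mod_cast h1.symm
        rcases mul_eq_zero.mp h2 with h | h
        · exact hre h
        · have h3 : (2 : ℝ) ^ (k.val + 1) = 2 ^ (j.val + 1) := by linarith
          have h4 := pow_right_injective₀ (by norm_num : (0 : ℝ) < 2) (by norm_num : (2 : ℝ) ≠ 1) h3
          exact hjk (Fin.ext (by omega))
      · have h1 := hev 0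
        rw [h0, Polynomial.eval_zero] at h1
        have h2 : (H j k).im * (1 + (0 : ℝ) ^ (j.val + k.val + 2))
            + (H j k).re * ((0 : ℝ) ^ (k.val + 1) - 0 ^ (j.val + 1)) = 0 := by exact_mod_cast h1.symm
        rw [zero_pow (by omega), zero_pow (by omega), zero_pow (by omega)] at h2
        apply him
        linarith
    filter_upwards [eventually_eval_ne hQ] with s hs h0
    rw [hev, h0] at hs
    exact hs (by simp)
  have hall : ∀ᶠ s : ℝ in 𝓝[>] (0 : ℝ), ∀ j k : Fin n, j ≠ k → H j k ≠ 0 →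
      (H j k).im * (1 + s ^ (j.val + k.val + 2)) + (H j k).re * (s ^ (k.val + 1) - s ^ (j.val + 1)) ≠ 0 := by
    simp only [eventually_all]
    exact key
  have hall2 : ∀ᶠ s : ℝ in 𝓝[>] (0 : ℝ), ∀ i k l : Fin n, k ≠ l → A i k ≠ 0 →
      conj (A i k) * (⟨1, s ^ (l.val + 1)⟩ : ℂ) ≠ conj (A i l) * (⟨1, s ^ (k.val + 1)⟩ : ℂ) := by
    simp only [eventually_all]
    intro i k l hkl h
    exact phase_lin _ _ hkl (fun h0 => h ((map_eq_zero _).mp h0))
  have hall3 : ∀ᶠ s : ℝ in 𝓝[>] (0 : ℝ), ∀ i k l : Fin n, k ≠ l → A k i ≠ 0 →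
      A k i * (⟨1, s ^ (l.val + 1)⟩ : ℂ) ≠ A l i * (⟨1, s ^ (k.val + 1)⟩ : ℂ) := by
    simp only [eventually_all]
    intro i k l hkl h
    exact phase_lin _ _ hkl h
  obtain ⟨s, ⟨hs, hs2⟩, hs3⟩ := ((hall.and hall2).and hall3).exists
  refine ⟨fun j => ⟨1, s ^ (j.val + 1)⟩, fun i h => ?_, fun j k hjk hH => ?_, fun i k l hkl h h0 => ?_,
    fun i k l hkl h => hs3 i k l hkl h⟩
  · have := congrArg Complex.re h
    simp at this
  · have h1 := hs j k hjk hH
    have e : (conj (⟨1, s ^ (j.val + 1)⟩ : ℂ) * H j k * (⟨1, s ^ (k.val + 1)⟩ : ℂ)).im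
        = (H j k).im * (1 + s ^ (j.val + k.val + 2)) + (H j k).re * (s ^ (k.val + 1) - s ^ (j.val + 1)) := by
      simp only [Complex.mul_im, Complex.mul_re, Complex.conj_re, Complex.conj_im]
      have e1 : s ^ (j.val + k.val + 2) = s ^ (j.val + 1) * s ^ (k.val + 1) := by
        rw [← pow_add]; congr 1; omega
      rw [e1]; ring
    rw [e]; exact h1
  · apply hs2 i k l hkl h
    have := congrArg conj h0
    simpa only [map_mul, Complex.conj_conj] using this

private theorem lin_ne {α β : ℂ} (hβ : β ≠ 0) : ∀ᶠ t : ℝ in 𝓝[>] (0 : ℝ), α + t * β ≠ 0 := by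
  have hQ : (Polynomial.C α + Polynomial.X * Polynomial.C β : Polynomial ℂ) ≠ 0 := by
    intro h0
    have h1 : (Polynomial.C α + Polynomial.X * Polynomial.C β : Polynomial ℂ).coeff 1 = β := by
      rw [Polynomial.coeff_add, Polynomial.coeff_C, Polynomial.coeff_X_mul (Polynomial.C β) 0,
        Polynomial.coeff_C]
      simp
    rw [h0, Polynomial.coeff_zero] at h1
    exact hβ h1.symm
  filter_upwards [eventually_eval_ne hQ] with t ht
  rwa [Polynomial.eval_add, Polynomial.eval_mul, Polynomial.eval_C, Polynomial.eval_C, Polynomial.eval_X] at ht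

private theorem im_mul3 {x y z : ℂ} (hx : x.im = 0) (hy : y.im = 0) (hz : z.im = 0) : (x * y * z).im = 0 := by
  rw [Complex.mul_im, Complex.mul_im, hx, hy, hz]
  ring

/-- a cut puts `o` on one side: no cut if the entries at `o` are in general position -/
private theorem no_cut_aux {F A : Matrix (Fin n) (Fin n) ℂ} {c : Fin n → ℕ} (hirr : IrreducibleBlocks A c)
    {b : ℕ} {o : Fin n} (ho : c o ≠ b) (hF : ∀ i j, c i = b → c j = b → F i j = A i j)
    (h2 : b < c o → ∀ i k l, c i = b → c k = b → c l = b → k ≠ l → A i k ≠ 0 → A i k * F o l ≠ A i l * F o k)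
    (h3 : c o < b → ∀ i k l, c i = b → c k = b → c l = b → k ≠ l → A k i ≠ 0 → A k i * F l o ≠ A l i * F k o)
    {α β : Finset (Fin n)} (hd : Disjoint α β) (hT : α ∪ β = insert o (univ.filter fun i => c i = b))
    (hα : 2 ≤ α.card) (hβ : 2 ≤ β.card) (hoα : o ∈ α)
    (h : ∀ i ∈ α, ∀ j ∈ α, ∀ k ∈ β, ∀ l ∈ β, F i k * F j l = F i l * F j k ∧ F k i * F l j = F l i * F k j) :
    False := by
  classical
  have hmem : ∀ x, x ∈ α ∨ x ∈ β ↔ x = o ∨ c x = b := by
    intro x
    rw [← mem_union, hT, mem_insert]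
    simp
  have hβb : ∀ x ∈ β, c x = b := by
    intro x hx
    rcases (hmem x).mp (Or.inr hx) with rfl | h
    · exact absurd hx (disjoint_left.mp hd hoα)
    · exact h
  have hαb : ∀ x ∈ α, x ≠ o → c x = b := by
    intro x hx hxo
    exact ((hmem x).mp (Or.inl hx)).resolve_left hxo
  have hside : ∀ x, c x = b → x ∈ α ∨ x ∈ β := fun x hx => (hmem x).mpr (Or.inr hx)
  have hne : ∀ x, c x = b → x ≠ o := fun x hx h => ho (h ▸ hx)
  obtain ⟨i0, hi0, hi0o⟩ : ∃ i0 ∈ α, i0 ≠ o := exists_mem_ne (by omega) o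
  obtain ⟨k0, hk0⟩ : β.Nonempty := card_pos.mp (by omega)
  rcases lt_or_gt_of_ne ho with hlt | hgt
  · -- `c o < b`
    have hex : ∃ k ∈ β, ∃ i ∈ α, c i = b ∧ A k i ≠ 0 := by
      by_contra hno
      push Not at hno
      have := hirr β ⟨k0, hk0⟩ (fun x hx y hy => (hβb x hx).trans (hβb y hy).symm) (by
        intro x hx y hy hyβ
        have hyb : c y = b := hy.trans (hβb x hx)
        exact hno x hx y ((hside y hyb).resolve_right hyβ) hyb) k0 hk0 i0
          ((hαb i0 hi0 hi0o).trans (hβb k0 hk0).symm)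
      exact disjoint_left.mp hd hi0 this
    obtain ⟨k, hk, i, hi, hib, hki⟩ := hex
    obtain ⟨l, hl, hlk⟩ : ∃ l ∈ β, l ≠ k := exists_mem_ne (by omega) k
    have h4 := (h i hi o hoα k hk l hl).2
    rw [hF k i (hβb k hk) hib, hF l i (hβb l hl) hib] at h4
    exact h3 hlt i k l hib (hβb k hk) (hβb l hl) hlk.symm hki h4
  · have hex : ∃ i ∈ α, c i = b ∧ ∃ k ∈ β, A i k ≠ 0 := by
      by_contra hno
      push Not at hno
      have := hirr (α.erase o) ⟨i0, mem_erase.mpr ⟨hi0o, hi0⟩⟩
        (fun x hx y hy => (hαb x (mem_erase.mp hx).2 (mem_erase.mp hx).1).trans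
          (hαb y (mem_erase.mp hy).2 (mem_erase.mp hy).1).symm) (by
        intro x hx y hy hyα
        have hxb := hαb x (mem_erase.mp hx).2 (mem_erase.mp hx).1
        have hyb : c y = b := hy.trans hxb
        have hyα' : y ∉ α := fun hh => hyα (mem_erase.mpr ⟨hne y hyb, hh⟩)
        exact hno x (mem_erase.mp hx).2 hxb y ((hside y hyb).resolve_left hyα')) i0
          (mem_erase.mpr ⟨hi0o, hi0⟩) k0 ((hβb k0 hk0).trans (hαb i0 hi0 hi0o).symm)
      exact disjoint_left.mp hd (mem_erase.mp this).2 hk0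
    obtain ⟨i, hi, hib, k, hk, hik⟩ := hex
    obtain ⟨l, hl, hlk⟩ : ∃ l ∈ β, l ≠ k := exists_mem_ne (by omega) k
    have h4 := (h i hi o hoα k hk l hl).1
    rw [hF i k hib (hβb k hk), hF i l hib (hβb l hl)] at h4
    exact h2 hgt i k l hib (hβb k hk) (hβb l hl) hlk.symm hik h4

/-- Among the block triangular matrices with at least two blocks and given GKK diagonal blocks those
in nonreal position are dense. -/
theorem exists_nonreal {A : Matrix (Fin n) (Fin n) ℂ} (hA : IsGKK A) {c : Fin n → ℕ}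
    (hz : ∀ i j, c i < c j → A i j = 0) (hirr : IrreducibleBlocks A c)
    (hne : ∃ i j, c i ≠ c j) {ε : ℝ} (hε : 0 < ε) :
    ∃ A' : Matrix (Fin n) (Fin n) ℂ, (∀ i j, c i ≤ c j → A' i j = A i j) ∧
      (∀ i j, ‖A' i j - A i j‖ < ε) ∧ IsGKK A' ∧ (∀ i j, Linked A' i j ↔ Linked A i j) ∧
      NonrealPosition A' := by
  classical
  obtain ⟨hP, hap⟩ := (isGKK_iff A).mp hA
  have hp : ∀ i j, i ≠ j → 0 ≤ A i j * A j i := by
    intro i j hij
    rw [← ap_empty A hij]; exact hap ∅ i j (by simp) (by simp) hij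
  obtain ⟨G, hG0, hG, hG2, hG3⟩ := exists_phases2 (fun i j => A i j) fun i j => (A + Aᴴ) i j
  have hoo : ∀ b : ℕ, ∃ o, c o ≠ b := by
    intro b
    obtain ⟨i, j, hij⟩ := hne
    by_cases h : c i = b
    · exact ⟨j, fun h' => hij (h.trans h'.symm)⟩
    · exact ⟨i, h⟩
  choose oo hoo using hoo
  let F : ℝ → Matrix (Fin n) (Fin n) ℂ := fun t => Matrix.of fun i j =>
    if c i ≤ c j then A i j else A i j + t * (G i * conj (G j))
  have hFlow : ∀ t i j, c j < c i → F t i j = A i j + t * (G i * conj (G j)) := by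
    intro t i j hij
    simp only [F, of_apply]
    rw [if_neg (by omega)]
  have hFup : ∀ t i j, c i ≤ c j → F t i j = A i j := by
    intro t i j hij
    simp only [F, of_apply]
    rw [if_pos hij]
  have hF : ∀ t i j, c i ≠ c j → (F t + (F t)ᴴ) i j = (A + Aᴴ) i j + t * (G i * conj (G j)) := by
    intro t i j hij
    rw [herm_apply, herm_apply]
    simp only [F, of_apply]
    rcases lt_or_gt_of_ne hij with h | h
    · rw [if_pos h.le, if_neg (by omega)]
      simp only [map_add, map_mul, Complex.conj_ofReal, Complex.conj_conj]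
      ring
    · rw [if_neg (by omega), if_pos (le_of_lt h)]
      ring
  have hF2 : ∀ t i j, c i = c j → (F t + (F t)ᴴ) i j = (A + Aᴴ) i j := by
    intro t i j hij
    rw [herm_apply, herm_apply]
    simp only [F, of_apply]
    rw [if_pos hij.le, if_pos hij.ge]
  have key : ∀ j k : Fin n, j ≠ k → c j = c k → (A + Aᴴ) j k ≠ 0 → ∀ᶠ t : ℝ in 𝓝[>] (0 : ℝ),
      ((F t + (F t)ᴴ) (oo (c j)) j * (F t + (F t)ᴴ) j k * (F t + (F t)ᴴ) k (oo (c j))).im ≠ 0 := by
    intro j k hjk hc hH
    set o := oo (c j) with ho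
    have h1 : c o ≠ c j := hoo (c j)
    have h2 : c k ≠ c o := by rw [← hc]; exact h1.symm
    set a := (A + Aᴴ) o j with ha
    set h := (A + Aᴴ) j k with hh
    set b := (A + Aᴴ) k o with hb
    set u := G o * conj (G j) with hu
    set v := G k * conj (G o) with hv
    let Q : Polynomial ℂ := (Polynomial.C a + Polynomial.X * Polynomial.C u) * Polynomial.C h *
        (Polynomial.C b + Polynomial.X * Polynomial.C v)
      - (Polynomial.C (conj a) + Polynomial.X * Polynomial.C (conj u)) * Polynomial.C (conj h) *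
        (Polynomial.C (conj b) + Polynomial.X * Polynomial.C (conj v))
    have hev : ∀ z : ℂ, Q.eval z = (a + z * u) * h * (b + z * v)
        - (conj a + z * conj u) * conj h * (conj b + z * conj v) := by
      intro z
      simp [Q]
      ring
    have hcoef : Q.coeff 2 = u * h * v - conj (u * h * v) := by
      have e : Q = Polynomial.C (a * h * b - conj a * conj h * conj b)
          + Polynomial.C (a * h * v + u * h * b - (conj a * conj h * conj v + conj u * conj h * conj b)) *
            Polynomial.X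
          + Polynomial.C (u * h * v - conj (u * h * v)) * Polynomial.X ^ 2 := by
        simp only [Q, map_sub, map_add, map_mul]
        ring
      rw [e]
      simp only [Polynomial.coeff_add, Polynomial.coeff_C_mul, Polynomial.coeff_X_pow, Polynomial.coeff_X,
        Polynomial.coeff_C]
      norm_num
    have hQ : Q ≠ 0 := by
      intro h0
      rw [h0, Polynomial.coeff_zero] at hcoef
      have h3 : (u * h * v).im = 0 := by
        apply Complex.conj_eq_iff_im.mp
        exact (sub_eq_zero.mp hcoef.symm).symm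
      have h4 : u * h * v = ((Complex.normSq (G o) : ℝ) : ℂ) * (conj (G j) * h * G k) := by
        rw [← Complex.mul_conj]; simp only [hu, hv]; ring
      rw [h4, Complex.im_ofReal_mul] at h3
      rcases mul_eq_zero.mp h3 with h5 | h5
      · exact hG0 o (Complex.normSq_eq_zero.mp h5)
      · exact hG j k hjk hH h5
    filter_upwards [eventually_eval_ne hQ] with t ht h0
    apply ht
    rw [hF t o j h1, hF2 t j k hc, hF t k o h2, ← ha, ← hh, ← hb, ← hu, ← hv] at h0
    rw [hev, sub_eq_zero]
    have h5 := Complex.conj_eq_iff_im.mpr h0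
    rw [← h5]
    simp only [map_mul, map_add, Complex.conj_ofReal]
  have hall : ∀ᶠ t : ℝ in 𝓝[>] (0 : ℝ), ∀ j k : Fin n, j ≠ k → c j = c k → (A + Aᴴ) j k ≠ 0 →
      ((F t + (F t)ᴴ) (oo (c j)) j * (F t + (F t)ᴴ) j k * (F t + (F t)ᴴ) k (oo (c j))).im ≠ 0 := by
    simp only [eventually_all]
    exact key
  have hall2 : ∀ᶠ t : ℝ in 𝓝[>] (0 : ℝ), ∀ i k l : Fin n, c k = c i → c l = c i → c i < c (oo (c i)) →
      k ≠ l → A i k ≠ 0 → A i k * F t (oo (c i)) l ≠ A i l * F t (oo (c i)) k := by
    simp only [eventually_all]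
    intro i k l hk hl ho hkl hik
    have hβ : G (oo (c i)) * (A i k * conj (G l) - A i l * conj (G k)) ≠ 0 :=
      mul_ne_zero (hG0 _) (sub_ne_zero.mpr (hG2 i k l hkl hik))
    filter_upwards [lin_ne (α := A i k * A (oo (c i)) l - A i l * A (oo (c i)) k) hβ] with t ht h0
    rw [hFlow t _ l (by omega), hFlow t _ k (by omega)] at h0
    apply ht
    linear_combination h0
  have hall3 : ∀ᶠ t : ℝ in 𝓝[>] (0 : ℝ), ∀ i k l : Fin n, c k = c i → c l = c i → c (oo (c i)) < c i →
      k ≠ l → A k i ≠ 0 → A k i * F t l (oo (c i)) ≠ A l i * F t k (oo (c i)) := by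
    simp only [eventually_all]
    intro i k l hk hl ho hkl hik
    have hβ : conj (G (oo (c i))) * (A k i * G l - A l i * G k) ≠ 0 :=
      mul_ne_zero (fun h => hG0 _ ((map_eq_zero _).mp h)) (sub_ne_zero.mpr (hG3 i k l hkl hik))
    filter_upwards [lin_ne (α := A k i * A l (oo (c i)) - A l i * A k (oo (c i))) hβ] with t ht h0
    rw [hFlow t l _ (by omega), hFlow t k _ (by omega)] at h0
    apply ht
    linear_combination h0
  have hsmall : ∀ᶠ t : ℝ in 𝓝[>] (0 : ℝ), ∀ i j, ‖F t i j - A i j‖ < ε := by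
    simp only [eventually_all]
    intro i j
    have hc : ContinuousAt (fun t : ℝ => ‖F t i j - A i j‖) 0 := by
      simp only [F, of_apply]
      split_ifs
      · fun_prop
      · fun_prop
    have h0 : ‖F 0 i j - A i j‖ < ε := by
      simp only [F, of_apply]
      split_ifs
      · simpa using hε
      · simpa using hε
    exact (hc.tendsto.eventually_lt_const h0).filter_mono nhdsWithin_le_nhds
  obtain ⟨t, ⟨⟨h1, h2⟩, h3⟩, h4⟩ := (((hall.and hsmall).and hall2).and hall3).exists
  have hz' : ∀ i j, c i < c j → F t i j = 0 := fun i j hij => by rw [hFup t i j hij.le]; exact hz i j hij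
  have hirr' : IrreducibleBlocks (F t) c := by
    intro S hS hSb hcl
    refine hirr S hS hSb fun i hi j hj hjS => ?_
    rw [← hFup t i j hj.ge]
    exact hcl i hi j hj hjS
  refine ⟨F t, hFup t, h2, isGKK_block hA hz (hFup t), fun i j => ?_, ?_⟩
  · rw [linked_iff hz' hirr', linked_iff hz hirr]
  · intro i j k hij hik hjk hLj hLk
    rw [linked_iff hz' hirr'] at hLj hLk
    set o := oo (c i) with ho
    have hoi : c o ≠ c i := hoo (c i)
    refine ⟨insert o (univ.filter fun l => c l = c i), fun l hl => ?_, ?_, ?_⟩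
    · rw [linked_iff hz' hirr'] at hl
      exact mem_insert_of_mem (by simpa using hl.symm)
    · rintro ⟨α, β, hd, hT, hα, hβ, h⟩
      have e2 : c i < c o → ∀ i' k l, c i' = c i → c k = c i → c l = c i → k ≠ l → A i' k ≠ 0 →
          A i' k * F t o l ≠ A i' l * F t o k := by
        intro hlt i' k l hi' hk hl hkl hne
        have := h3 i' k l (hk.trans hi'.symm) (hl.trans hi'.symm) (by rw [hi', ← ho]; exact hlt) hkl hne
        rwa [hi', ← ho] at this
      have e3 : c o < c i → ∀ i' k l, c i' = c i → c k = c i → c l = c i → k ≠ l → A k i' ≠ 0 →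
          A k i' * F t l o ≠ A l i' * F t k o := by
        intro hlt i' k l hi' hk hl hkl hne
        have := h4 i' k l (hk.trans hi'.symm) (hl.trans hi'.symm) (by rw [hi', ← ho]; exact hlt) hkl hne
        rwa [hi', ← ho] at this
      have hFb : ∀ x y, c x = c i → c y = c i → F t x y = A x y := fun x y hx hy =>
        hFup t x y (hx.trans hy.symm).le
      have hoT : o ∈ α ∪ β := by rw [hT]; exact mem_insert_self _ _
      rcases mem_union.mp hoT with hoα | hoβ
      · exact no_cut_aux hirr hoi hFb e2 e3 hd hT hα hβ hoα h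
      · refine no_cut_aux hirr hoi hFb e2 e3 hd.symm ((union_comm β α).trans hT) hβ hα hoβ ?_
        intro p hp q hq r hr s hs
        obtain ⟨k1, k2⟩ := h r hr s hs p hp q hq
        exact ⟨by rw [k2]; ring, by rw [k1]; ring⟩
    · rintro ⟨g, hg, hre⟩
      -- an edge of the block
      obtain ⟨p, q, hp', hq', hpq, hpq0⟩ : ∃ p q, c p = c i ∧ c q = c i ∧ p ≠ q ∧ A p q ≠ 0 := by
        by_contra hno
        push Not at hno
        have := hirr {i} ⟨i, by simp⟩ (by simp) (by
          intro x hx y hy hyS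
          simp only [mem_singleton] at hx hyS
          subst hx
          exact hno x y rfl hy (Ne.symm hyS)) i (by simp) j hLj.symm
        simp only [mem_singleton] at this
        exact hij this.symm
      have hH : (A + Aᴴ) p q ≠ 0 := by
        intro h0
        obtain ⟨s, hs, hse⟩ := conj_eq_of_mul_nonneg (hp p q hpq) hpq0
        rw [herm_apply, hse] at h0
        have h4 : ((1 + s : ℝ) : ℂ) * A p q = 0 := by push_cast; rw [← h0]; ring
        rcases mul_eq_zero.mp h4 with h5 | h5
        · have : (1 + s : ℝ) = 0 := by exact_mod_cast h5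
          linarith
        · exact hpq0 h5
      have h6 := h1 p q hpq (hp'.trans hq'.symm) hH
      rw [hp', ← ho] at h6
      apply h6
      have hreal : ∀ x y, x ∈ insert o (univ.filter fun l => c l = c i) →
          y ∈ insert o (univ.filter fun l => c l = c i) → (conj (g x) * (F t + (F t)ᴴ) x y * g y).im = 0 := by
        intro x y hx hy
        have r1 := hre x hx y hy
        have r2 := hre y hy x hx
        have e : conj (g x) * (F t + (F t)ᴴ) x y * g y
            = conj (g x) * F t x y * g y + conj (conj (g y) * F t y x * g x) := by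
          rw [herm_apply]
          simp only [map_mul, Complex.conj_conj]
          ring
        rw [e, Complex.add_im, Complex.conj_im, r1, r2]
        simp
      have hgg : ∀ x, g x * conj (g x) = 1 := by
        intro x
        rw [Complex.mul_conj, Complex.normSq_eq_norm_sq, hg]; simp
      have mo : o ∈ insert o (univ.filter fun l => c l = c i) := mem_insert_self _ _
      have mp' : p ∈ insert o (univ.filter fun l => c l = c i) := mem_insert_of_mem (by simpa using hp')
      have mq' : q ∈ insert o (univ.filter fun l => c l = c i) := mem_insert_of_mem (by simpa using hq')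
      have c1 := hreal o p mo mp'
      have c2 := hreal p q mp' mq'
      have c3 := hreal q o mq' mo
      have e : (F t + (F t)ᴴ) o p * (F t + (F t)ᴴ) p q * (F t + (F t)ᴴ) q o
          = (conj (g o) * (F t + (F t)ᴴ) o p * g p) * (conj (g p) * (F t + (F t)ᴴ) p q * g q) *
            (conj (g q) * (F t + (F t)ᴴ) q o * g o) := by
        have e1 := hgg o
        have e2 := hgg p
        have e3 := hgg q
        have e4 : (conj (g o) * (F t + (F t)ᴴ) o p * g p) * (conj (g p) * (F t + (F t)ᴴ) p q * g q) *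
            (conj (g q) * (F t + (F t)ᴴ) q o * g o)
            = (g o * conj (g o)) * (g p * conj (g p)) * (g q * conj (g q)) *
              ((F t + (F t)ᴴ) o p * (F t + (F t)ᴴ) p q * (F t + (F t)ᴴ) q o) := by ring
        rw [e4, e1, e2, e3]; ring
      rw [e]
      exact im_mul3 c1 c2 c3

end Pool.Agent.Helper69.GKK
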