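import Mathlib
import Pool.Agent.Helper69.GKK.Close

/-!
Without rank one cut, the question which matrices are limits of strict GKK matrices reduces to real
matrices.
-/

namespace Pool.Agent.Helper69.GKK

open Matrix Finset Filter Topology
open Pool.Agent.Helper5.GKK
open scoped ComplexOrder ComplexConjugate

variable {n : ℕ}

theorem pm_dia {g : Fin n → ℂ} (hg : ∀ i, ‖g i‖ = 1) (X : Matrix (Fin n) (Fin n) ℂ) (S : Finset (Fin n)) :
    pm (Matrix.of fun i j => conj (g i) * X i j * g j) S = pm X S := by
  have e : (Matrix.of fun i j => conj (g i) * X i j * g j).submatrix (Subtype.val : S → Fin n) Subtype.val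
      = diagonal (fun i : S => conj (g i.val)) * X.submatrix (Subtype.val : S → Fin n) Subtype.val *
        diagonal (fun i : S => g i.val) := by
    ext i j
    rw [mul_diagonal, diagonal_mul]
    rfl
  have h1 : (∏ i : S, conj (g i.val)) * ∏ i : S, g i.val = 1 := by
    rw [← Finset.prod_mul_distrib]
    refine Finset.prod_eq_one fun i _ => ?_
    rw [mul_comm, Complex.mul_conj, Complex.normSq_eq_norm_sq, hg]
    simp
  rw [pm, pm, e, det_mul, det_mul, det_diagonal, det_diagonal]
  have h2 : (∏ i : S, conj (g i.val)) * (X.submatrix (Subtype.val : S → Fin n) Subtype.val).det *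
      ∏ i : S, g i.val = ((∏ i : S, conj (g i.val)) * ∏ i : S, g i.val) *
        (X.submatrix (Subtype.val : S → Fin n) Subtype.val).det := by ring
  rw [h2, h1, one_mul]

theorem strict_dia {g : Fin n → ℂ} (hg : ∀ i, ‖g i‖ = 1) {X : Matrix (Fin n) (Fin n) ℂ} (hX : IsStrictGKK X) :
    IsStrictGKK (Matrix.of fun i j => conj (g i) * X i j * g j) := by
  rw [isStrictGKK_iff] at hX ⊢
  refine ⟨fun S => by rw [pm_dia hg]; exact hX.1 S, fun K i j hi hj hij => ?_⟩
  have := hX.2 K i j hi hj hij
  simpa only [ap, pm_dia hg] using this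

theorem isClosed_realLimit : IsClosed {A : Matrix (Fin n) (Fin n) ℂ | RealLimit A} := by
  let S : Set (Matrix (Fin n) (Fin n) ℂ × (Fin n → Circle)) :=
    {p | (∀ i j, (conj (p.2 i : ℂ) * p.1 i j * (p.2 j : ℂ)).im = 0)} ∩
      (fun p => (Matrix.of fun i j => (conj (p.2 i : ℂ) * p.1 i j * (p.2 j : ℂ)).re :
        Matrix (Fin n) (Fin n) ℝ)) ⁻¹' closure (RealStrict n)
  have h1 : ∀ i, Continuous fun p : Matrix (Fin n) (Fin n) ℂ × (Fin n → Circle) => (p.2 i : ℂ) := fun i =>
    continuous_subtype_val.comp ((continuous_apply i).comp continuous_snd)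
  have h2 : ∀ i j, Continuous fun p : Matrix (Fin n) (Fin n) ℂ × (Fin n → Circle) =>
      conj (p.2 i : ℂ) * p.1 i j * (p.2 j : ℂ) := fun i j =>
    ((Complex.continuous_conj.comp (h1 i)).mul (continuous_fst.matrix_elem i j)).mul (h1 j)
  have hS : IsClosed S := by
    refine IsClosed.inter ?_ (isClosed_closure.preimage ?_)
    · simp only [Set.ofPred_forall]
      refine isClosed_iInter fun i => isClosed_iInter fun j => ?_
      exact isClosed_eq (Complex.continuous_im.comp (h2 i j)) continuous_const
    · exact continuous_matrix fun i j => Complex.continuous_re.comp (h2 i j)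
  have e : {A : Matrix (Fin n) (Fin n) ℂ | RealLimit A} = Prod.fst '' S := by
    ext A
    simp only [Set.mem_ofPred_eq, Set.mem_image]
    constructor
    · rintro ⟨g, R, hg, h, hR⟩
      refine ⟨(A, fun i => ⟨g i, mem_sphere_zero_iff_norm.mpr (hg i)⟩), ⟨fun i j => ?_, ?_⟩, rfl⟩
      · exact (congrArg Complex.im (h i j)).trans (Complex.ofReal_im _)
      · have e : (Matrix.of fun i j => (conj (g i) * A i j * g j).re : Matrix (Fin n) (Fin n) ℝ) = R := by
          ext i j
          rw [of_apply, h i j, Complex.ofReal_re]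
        simp only [Set.mem_preimage]
        exact e ▸ hR
    · rintro ⟨⟨A', g⟩, ⟨h, hR⟩, rfl⟩
      refine ⟨fun i => (g i : ℂ), _, fun i => Circle.norm_coe _, fun i j => ?_, hR⟩
      apply Complex.ext
      · rw [Complex.ofReal_re]; rfl
      · rw [Complex.ofReal_im]; exact h i j
  rw [e]
  exact isClosedMap_fst_of_compactSpace _ hS

theorem realLimit_of_strict {X : Matrix (Fin n) (Fin n) ℂ} (hX : IsStrictGKK X) (h : RealOn univ X) :
    RealLimit X := by
  obtain ⟨g, hg, h⟩ := h
  have e : ∀ i j, conj (g i) * X i j * g j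
      = ((Matrix.of fun i j => (conj (g i) * X i j * g j).re : Matrix (Fin n) (Fin n) ℝ) i j : ℂ) := by
    intro i j
    apply Complex.ext
    · rw [Complex.ofReal_re, of_apply]
    · rw [Complex.ofReal_im]; exact h i (mem_univ i) j (mem_univ j)
  refine ⟨g, Matrix.of fun i j => (conj (g i) * X i j * g j).re, hg, e, subset_closure ?_⟩
  have h1 := strict_dia hg hX
  have h2 : (Matrix.of fun i j => conj (g i) * X i j * g j)
      = (Matrix.of fun i j => (conj (g i) * X i j * g j).re : Matrix (Fin n) (Fin n) ℝ).map ((↑) : ℝ → ℂ) := by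
    ext i j
    rw [map_apply, of_apply]
    exact e i j
  rw [h2] at h1
  exact h1

theorem mem_of_realLimit {A : Matrix (Fin n) (Fin n) ℂ} (h : RealLimit A) :
    A ∈ closure {B : Matrix (Fin n) (Fin n) ℂ | IsStrictGKK B} := by
  obtain ⟨g, R, hg, h, hR⟩ := h
  let Φ : Matrix (Fin n) (Fin n) ℝ → Matrix (Fin n) (Fin n) ℂ := fun Y =>
    Matrix.of fun i j => g i * (Y i j : ℂ) * conj (g j)
  have hΦ : Continuous Φ := by
    refine continuous_matrix fun i j => ?_
    have h1 : Continuous fun Y : Matrix (Fin n) (Fin n) ℝ => Y i j := continuous_id.matrix_elem i j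
    exact (continuous_const.mul (Complex.continuous_ofReal.comp h1)).mul continuous_const
  have hgg : ∀ i, g i * conj (g i) = 1 := by
    intro i
    rw [Complex.mul_conj, Complex.normSq_eq_norm_sq, hg]; simp
  have hA : Φ R = A := by
    ext i j
    simp only [Φ, of_apply]
    rw [← h i j]
    have h1 := hgg i
    have h2 := hgg j
    calc g i * (conj (g i) * A i j * g j) * conj (g j) = (g i * conj (g i)) * A i j * (g j * conj (g j)) := by ring
      _ = A i j := by rw [h1, h2]; ring
  have hmaps : Set.MapsTo Φ (RealStrict n) {B : Matrix (Fin n) (Fin n) ℂ | IsStrictGKK B} := by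
    intro Y hY
    have hY' : IsStrictGKK (Y.map ((↑) : ℝ → ℂ)) := hY
    have h1 := strict_dia (g := fun i => conj (g i)) (fun i => by rw [Complex.norm_conj]; exact hg i) hY'
    simp only [Complex.conj_conj] at h1
    exact h1
  rw [← hA]
  exact map_mem_closure hΦ hR hmaps

theorem hermitianBlocks_of_symm {A : Matrix (Fin n) (Fin n) ℂ}
    (h : A ∈ closure {X : Matrix (Fin n) (Fin n) ℂ | Symmetrizable X}) : HermitianBlocks A := by
  obtain ⟨c, ht, hirr⟩ := exists_blocks A
  have hb : ∀ b, ∃ w : Fin n → ℝ, (∀ i, 0 < w i) ∧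
      ∀ i j, c i = b → c j = b → (w i : ℂ) * A i j = w j * conj (A j i) :=
    fun b => block_symm' hirr (fun x y _ _ => rfl) h
  choose w hw hs using hb
  refine ⟨fun i => w (c i) i, fun i => hw _ i, fun i j hij => ?_⟩
  rw [linked_iff ht hirr] at hij
  have := hs (c i) i j rfl hij.symm
  simpa [hij] using this

/-- **Reduction to real matrices.** -/
theorem noCut_iff {A : Matrix (Fin n) (Fin n) ℂ} (hA : IsGKK A) (hcut : ¬ CutOn univ A) :
    A ∈ closure {B : Matrix (Fin n) (Fin n) ℂ | IsStrictGKK B} ↔ HermitianBlocks A ∨ RealLimit A := by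
  constructor
  · intro hL
    rw [mem_closure_iff_frequently] at hL
    have e1 : ∀ᶠ X in 𝓝 A, ¬ CutOn univ (X : Matrix (Fin n) (Fin n) ℂ) :=
      (isClosed_cutOn univ).isOpen_compl.mem_nhds hcut
    have h3 : ∃ᶠ X in 𝓝 A, Symmetrizable X ∨ RealLimit X :=
      (hL.and_eventually e1).mono fun X hX => by
        rcases strict_alt hX.1 hX.2 with h | h
        · left
          have e : res univ X = X := by
            ext i j; exact res_apply X (mem_univ i) (mem_univ j)
          rwa [e] at h
        · exact Or.inr (realLimit_of_strict hX.1 h)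
    rcases frequently_or_distrib.mp h3 with h | h
    · exact Or.inl (hermitianBlocks_of_symm (mem_closure_iff_frequently.mpr h))
    · right
      have h1 : A ∈ closure {X : Matrix (Fin n) (Fin n) ℂ | RealLimit X} := mem_closure_iff_frequently.mpr h
      rwa [isClosed_realLimit.closure_eq] at h1
  · rintro (h | h)
    · exact mem_of_hermitianBlocks hA h
    · exact mem_of_realLimit h

end Pool.Agent.Helper69.GKK
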