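import Mathlib
import Pool.Agent.Helper69.GKK.Dense
import Pool.Agent.Helper69.GKK.RealRed

/-!
The criterion: limits of strict GKK matrices without cut, or in nonreal position, or with symmetric
vanishing.
-/

namespace Pool.Agent.Helper69.GKK

open Matrix Finset Filter Topology
open Pool.Agent.Helper5.GKK
open scoped ComplexOrder ComplexConjugate

variable {n : ℕ}

theorem mem_of_symmetricZeros {A : Matrix (Fin n) (Fin n) ℂ} (hA : IsGKK A) (h : SymmetricZeros A) :
    A ∈ closure {B : Matrix (Fin n) (Fin n) ℂ | IsStrictGKK B} := by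
  obtain ⟨C, hC⟩ := (Pool.Agent.Helper85.SVG.main hA.1).mp ⟨hA, h⟩
  exact closure_mono (fun X hX => hX.1) hC

theorem criterion {A : Matrix (Fin n) (Fin n) ℂ} (hA : IsGKK A)
    (h : SymmetricZeros A ∨ ¬ CutOn univ A ∨ NonrealPosition A) :
    A ∈ closure {B : Matrix (Fin n) (Fin n) ℂ | IsStrictGKK B} ↔
      SymmetricZeros A ∨ HermitianBlocks A ∨ RealLimit A := by
  constructor
  · intro hL
    rcases h with h | h | h
    · exact Or.inl h
    · exact Or.inr ((noCut_iff hA h).mp hL)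
    · exact Or.inr (Or.inl (hermitianBlocks_of_nonreal hA h hL))
  · rintro (h | h | h)
    · exact mem_of_symmetricZeros hA h
    · exact mem_of_hermitianBlocks hA h
    · exact mem_of_realLimit h

theorem density {A : Matrix (Fin n) (Fin n) ℂ} (hA : IsGKK A) (hr : ∃ i j, ¬ Linked A i j) {ε : ℝ}
    (hε : 0 < ε) : ∃ A' : Matrix (Fin n) (Fin n) ℂ, (∀ i j, ‖A' i j - A i j‖ < ε) ∧ IsGKK A' ∧
      (∀ i j, Linked A' i j ↔ Linked A i j) ∧ (∀ i j, Linked A i j → A' i j = A i j) ∧
      NonrealPosition A' := by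
  obtain ⟨c, hz, hirr⟩ := exists_blocks A
  obtain ⟨i, j, hij⟩ := hr
  rw [linked_iff hz hirr] at hij
  obtain ⟨A', h1, h2, h3, h4, h5⟩ := exists_nonreal hA hz hirr ⟨i, j, hij⟩ hε
  exact ⟨A', h2, h3, h4, fun i j h => h1 i j ((linked_iff hz hirr i j).mp h).le, h5⟩

end Pool.Agent.Helper69.GKK
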